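import Mathlib

/-!
General tools: finite powers of a perfect group, and lifting of homomorphisms through the centre.
-/

set_option autoImplicit false

namespace Pool.Agent.TH103.VD

open Function
open scoped commutatorElement

section PiTools

variable {ι : Type} [Finite ι] [DecidableEq ι] {K : Type} [Group K] {H : Type} [Group H]

/-- a function belongs to a subgroup as soon as all its one-point restrictions do -/
theorem mem_of_single (S : Subgroup (ι → K)) (g : ι → K)
    (h : ∀ i, Pi.mulSingle i (g i) ∈ S) : g ∈ S := by
  cases nonempty_fintype ι
  have key : ∀ s : Finset ι, (fun i => if i ∈ s then g i else 1) ∈ S := by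
    intro s
    induction s using Finset.induction_on with
    | empty =>
      have : (fun i => if i ∈ (∅ : Finset ι) then g i else 1) = (1 : ι → K) := by
        funext i; simp
      rw [this]; exact S.one_mem
    | insert a s ha ih =>
      have : (fun i => if i ∈ insert a s then g i else 1) =
          (Pi.mulSingle a (g a) : ι → K) * (fun i => if i ∈ s then g i else 1) := by
        funext i
        by_cases hi : i = a
        · subst hi
          simp [ha]
        · simp [hi]
      rw [this]
      exact S.mul_mem (h a) ih
  simpa using key Finset.univ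

theorem hom_ext_single {f g : (ι → K) →* H}
    (h : ∀ i k, f (Pi.mulSingle i k) = g (Pi.mulSingle i k)) : f = g := by
  ext x
  have : x ∈ f.eqLocus g := mem_of_single _ _ (fun i => h i _)
  exact this

end PiTools

section Perfect

variable {K : Type} [Group K] {H : Type} [Group H]

/-- in a perfect group a subgroup containing all commutators is everything -/
theorem eq_top_of_comm (hK : Group.IsPerfect K) (S : Subgroup K) (h : ∀ x y : K, ⁅x, y⁆ ∈ S) :
    S = ⊤ := by
  rw [eq_top_iff, ← hK.commutator_eq_top, commutator_def, Subgroup.commutator_le]
  intro x _ y _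
  exact h x y

/-- a homomorphism from a perfect group with pairwise commuting values is trivial -/
theorem hom_trivial (hK : Group.IsPerfect K) (f : K →* H) (h : ∀ x y, Commute (f x) (f y)) (k : K) :
    f k = 1 := by
  have : f.ker = ⊤ := eq_top_of_comm hK _ (fun x y => by
    rw [MonoidHom.mem_ker, map_commutatorElement, commutatorElement_eq_one_iff_commute]
    exact h x y)
  have hk : k ∈ f.ker := by rw [this]; trivial
  exact hk

theorem pi_perfect {ι : Type} [Finite ι] (hK : Group.IsPerfect K) :
    Group.IsPerfect (ι → K) := by
  classical
  constructor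
  rw [eq_top_iff]
  intro g _
  refine mem_of_single _ _ (fun i => ?_)
  have h1 : (Subgroup.comap (MonoidHom.mulSingle (fun _ : ι => K) i) (commutator (ι → K))) = ⊤ := by
    apply eq_top_of_comm hK
    intro x y
    rw [Subgroup.mem_comap, map_commutatorElement]
    exact Subgroup.commutator_mem_commutator (Subgroup.mem_top _) (Subgroup.mem_top _)
  have h2 : g i ∈ (Subgroup.comap (MonoidHom.mulSingle (fun _ : ι => K) i)
      (commutator (ι → K))) := by rw [h1]; trivial
  exact h2

end Perfect

/-- Every homomorphism from `K` to a group modulo its centre lifts to the group. -/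
def LP (K : Type) [Group K] : Prop :=
  ∀ (E : Type) [Group E] (f : K →* E ⧸ Subgroup.center E),
    ∃ g : K →* E, ∀ k, (QuotientGroup.mk (g k) : E ⧸ Subgroup.center E) = f k

section LPsec

variable {K : Type} [Group K]

theorem mk_center_eq_iff {E : Type} [Group E] {x y : E} :
    (QuotientGroup.mk x : E ⧸ Subgroup.center E) = QuotientGroup.mk y ↔
      ∃ z ∈ Subgroup.center E, y = x * z := by
  rw [QuotientGroup.eq]
  constructor
  · intro h
    exact ⟨x⁻¹ * y, h, by group⟩
  · rintro ⟨z, hz, rfl⟩
    simpa using hz

theorem LP_pi {ι : Type} [Finite ι] (hK : Group.IsPerfect K) (hL : LP K) : LP (ι → K) := by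
  classical
  cases nonempty_fintype ι
  intro E _ f
  choose g hg using fun i : ι => hL E (f.comp (MonoidHom.mulSingle (fun _ : ι => K) i))
  have hcomm : Pairwise fun i j => ∀ x y, Commute (g i x) (g j y) := by
    intro i j hij x y
    have hcen : ∀ x y, ⁅g i x, g j y⁆ ∈ Subgroup.center E := by
      intro x y
      rw [← QuotientGroup.eq_one_iff]
      change QuotientGroup.mk' (Subgroup.center E) ⁅g i x, g j y⁆ = 1
      rw [map_commutatorElement, commutatorElement_eq_one_iff_commute]
      change Commute (QuotientGroup.mk (g i x) : E ⧸ Subgroup.center E)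
        (QuotientGroup.mk (g j y) : E ⧸ Subgroup.center E)
      rw [hg, hg]
      simp only [MonoidHom.comp_apply, MonoidHom.mulSingle_apply]
      exact (Pi.mulSingle_commute hij x y).map f
    let c : K →* E :=
      { toFun := fun x => ⁅g i x, g j y⁆
        map_one' := by simp
        map_mul' := by
          intro a b
          have hb := hcen b y
          rw [Subgroup.mem_center_iff] at hb
          have e1 : ⁅g i (a * b), g j y⁆ = g i a * ⁅g i b, g j y⁆ * (g i a)⁻¹ * ⁅g i a, g j y⁆ := by
            rw [map_mul]
            simp only [commutatorElement_def]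
            group
          rw [e1, hb (g i a), mul_inv_cancel_right]
          exact (hb _).symm }
    have hc : c x = 1 := by
      apply hom_trivial hK
      intro a b
      exact ((Subgroup.mem_center_iff.mp (hcen b y)) _)
    exact commutatorElement_eq_one_iff_commute.mp hc
  refine ⟨MonoidHom.noncommPiCoprod g hcomm, ?_⟩
  have : (QuotientGroup.mk' (Subgroup.center E)).comp (MonoidHom.noncommPiCoprod g hcomm) = f := by
    apply hom_ext_single
    intro i k
    rw [MonoidHom.comp_apply, MonoidHom.noncommPiCoprod_mulSingle]
    exact hg i k
  intro k
  exact DFunLike.congr_fun this k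

/-- function form: a map which is a homomorphism modulo the centre can be corrected to a
homomorphism -/
theorem LP_fun (hL : LP K) {E : Type} [Group E] (F : K → E)
    (hF : ∀ x y, (F (x * y))⁻¹ * (F x * F y) ∈ Subgroup.center E) :
    ∃ g : K →* E, ∀ k, ∃ z ∈ Subgroup.center E, g k = F k * z := by
  let f : K →* E ⧸ Subgroup.center E := MonoidHom.mk' (fun k => QuotientGroup.mk (F k)) (by
    intro a b
    rw [← QuotientGroup.mk_mul, QuotientGroup.eq]
    exact hF a b)
  obtain ⟨g, hg⟩ := hL E f
  refine ⟨g, fun k => ?_⟩
  have := hg k
  change _ = (QuotientGroup.mk (F k) : E ⧸ Subgroup.center E) at this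
  exact mk_center_eq_iff.mp this.symm

end LPsec

end Pool.Agent.TH103.VD
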