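import Mathlib
import Pool.Agent.TH103.VD.Basic

/-!
Functions on binary windows with values in a perfect group: the extension step.
-/

set_option autoImplicit false

namespace Pool.Agent.TH103.VD

open Function
open scoped commutatorElement

/-- binary words of length `n` -/
abbrev V (n : ℕ) := Fin n → ZMod 2

/-- forget the last letter -/
def ini {n : ℕ} (w : V (n + 1)) : V n := Fin.init w

/-- forget the first letter -/
def tai {n : ℕ} (w : V (n + 1)) : V n := Fin.tail w

/-- the local rule `w i + w (i+1)` -/
def D1 {n : ℕ} (w : V (n + 1)) : V n := fun i => w i.castSucc + w i.succ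

/-- the local rule `w i + w (i+1) + w (i+2)` -/
def D2 {n : ℕ} (w : V (n + 2)) : V n := fun i =>
  w i.castSucc.castSucc + w i.succ.castSucc + w i.succ.succ

theorem tai_ini {n : ℕ} (w : V (n + 2)) : tai (ini w) = ini (tai w) := by
  rfl

theorem ini_D1 {n : ℕ} (w : V (n + 2)) : ini (D1 w) = D1 (ini w) := by
  rfl

theorem tai_D1 {n : ℕ} (w : V (n + 2)) : tai (D1 w) = D1 (tai w) := by
  rfl

theorem ini_D2 {n : ℕ} (w : V (n + 3)) : ini (D2 w) = D2 (ini w) := by
  rfl

theorem tai_D2 {n : ℕ} (w : V (n + 3)) : tai (D2 w) = D2 (tai w) := by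
  rfl

theorem eq_cons {n : ℕ} (w : V (n + 1)) : w = Fin.cons (w 0) (tai w) :=
  (Fin.cons_self_tail w).symm

theorem eq_snoc {n : ℕ} (w : V (n + 1)) : w = Fin.snoc (ini w) (w (Fin.last n)) :=
  (Fin.snoc_init_self w).symm

theorem tai_cons {n : ℕ} (i : ZMod 2) (α : V n) : tai (Fin.cons i α : V (n + 1)) = α :=
  Fin.tail_cons _ _

theorem ini_snoc {n : ℕ} (α : V n) (j : ZMod 2) : ini (Fin.snoc α j : V (n + 1)) = α :=
  Fin.init_snoc _ _

theorem ini_cons_snoc {n : ℕ} (i : ZMod 2) (α : V n) (j : ZMod 2) :
    ini (Fin.cons i (Fin.snoc α j : V (n + 1)) : V (n + 2)) = Fin.cons i α := by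
  have : (Fin.cons i (Fin.snoc α j : V (n + 1)) : V (n + 2)) =
      Fin.snoc (Fin.cons i α : V (n + 1)) j := Fin.cons_snoc_eq_snoc_cons _ _ _
  rw [this]
  exact ini_snoc _ _

theorem zmod2_add_self (a : ZMod 2) : a + a = 0 := by
  revert a; decide

section

variable {K : Type} [Group K] {H : Type} [Group H]

/-- pulling back functions -/
def pull {X Y : Type} (K : Type) [Group K] (f : X → Y) : (Y → K) →* (X → K) where
  toFun c := c ∘ f
  map_one' := rfl
  map_mul' _ _ := rfl

@[simp] theorem pull_apply {X Y : Type} (f : X → Y) (c : Y → K) (x : X) :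
    pull K f c x = c (f x) := rfl

open Classical in
/-- the function with value `k` on `S` and `1` elsewhere -/
noncomputable def ind {X : Type} (S : Set X) (k : K) : X → K := fun w => if w ∈ S then k else 1

theorem comm_of_disjoint {X : Type} (a b : X → K) (h : ∀ x, a x = 1 ∨ b x = 1) : Commute a b := by
  funext x
  rcases h x with h | h <;> simp [h]

theorem comm_of_single {X Y : Type} [Finite X] [Finite Y] [DecidableEq X] [DecidableEq Y]
    (L : (X → K) →* H) (R : (Y → K) →* H) (g : X → K) (g' : Y → K)
    (h : ∀ x y, Commute (L (Pi.mulSingle x (g x))) (R (Pi.mulSingle y (g' y)))) :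
    Commute (L g) (R g') := by
  have h1 : ∀ x, Commute (L (Pi.mulSingle x (g x))) (R g') := by
    intro x
    have : g' ∈ (Subgroup.centralizer {L (Pi.mulSingle x (g x))}).comap R := by
      apply mem_of_single
      intro y
      rw [Subgroup.mem_comap, Subgroup.mem_centralizer_singleton_iff]
      exact (h x y).symm
    rw [Subgroup.mem_comap, Subgroup.mem_centralizer_singleton_iff] at this
    exact Commute.symm this
  have : g ∈ (Subgroup.centralizer {R g'}).comap L := by
    apply mem_of_single
    intro x
    rw [Subgroup.mem_comap, Subgroup.mem_centralizer_singleton_iff]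
    exact (h1 x)
  rw [Subgroup.mem_comap, Subgroup.mem_centralizer_singleton_iff] at this
  exact this

theorem cross {n : ℕ} (hK : Group.IsPerfect K) (L R : (V (n + 1) → K) →* H)
    (hLR : ∀ c : V n → K, L (c ∘ tai) = R (c ∘ ini)) {α β : V n} (hαβ : α ≠ β)
    (i j : ZMod 2) (Sx Sy : Set (V (n + 1)))
    (hxy : ∀ k k' : K, Commute (L (ind Sx k)) (R (ind Sy k')))
    (h1 : ∀ w : V (n + 1), tai w = α → (w ∈ Sx ↔ w = Fin.cons i α))
    (h2 : ∀ w : V (n + 1), ini w = α → w ∉ Sy)
    (h3 : ∀ w : V (n + 1), ini w = β → (w ∈ Sy ↔ w = Fin.snoc β j)) (k k' : K) :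
    Commute (L (Pi.mulSingle (Fin.cons i α) k)) (R (Pi.mulSingle (Fin.snoc β j) k')) := by
  classical
  have stepA : ∀ p k k' : K, Commute (L (Pi.mulSingle (Fin.cons i α) ⁅p, k⁆)) (R (ind Sy k')) := by
    intro p k k'
    have e1 : (Pi.mulSingle (Fin.cons i α) ⁅p, k⁆ : V (n + 1) → K) =
        ⁅(Pi.mulSingle α p : V n → K) ∘ tai, ind Sx k⁆ := by
      funext w
      simp only [commutatorElement_def, Pi.mul_apply, Pi.inv_apply, comp_apply]
      by_cases hw : tai w = α
      · rw [hw, Pi.mulSingle_eq_same]
        by_cases hx : w ∈ Sx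
        · rw [(h1 w hw).mp hx, Pi.mulSingle_eq_same]
          rw [(h1 w hw).mp hx] at hx
          simp [ind, hx]
        · have : w ≠ Fin.cons i α := fun h => hx ((h1 w hw).mpr h)
          rw [Pi.mulSingle_eq_of_ne this]
          simp [ind, hx]
      · have : w ≠ Fin.cons i α := fun h => hw (by rw [h, tai_cons])
        rw [Pi.mulSingle_eq_of_ne this, Pi.mulSingle_eq_of_ne hw]
        simp
    rw [e1, map_commutatorElement]
    have c1 : Commute (L ((Pi.mulSingle α p : V n → K) ∘ tai)) (R (ind Sy k')) := by
      rw [hLR]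
      refine (comm_of_disjoint _ _ (fun w => ?_)).map R
      by_cases hw : ini w = α
      · right
        simp [ind, h2 w hw]
      · left
        rw [comp_apply, Pi.mulSingle_eq_of_ne hw]
    have c2 := hxy k k'
    rw [commutatorElement_def]
    exact ((c1.mul_left c2).mul_left c1.inv_left).mul_left c2.inv_left
  have stepB : ∀ k k' : K, Commute (L (Pi.mulSingle (Fin.cons i α) k)) (R (ind Sy k')) := by
    intro k k'
    have : ((Subgroup.centralizer {R (ind Sy k')}).comap
        (L.comp (MonoidHom.mulSingle (fun _ : V (n + 1) => K) (Fin.cons i α)))) = ⊤ := by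
      apply eq_top_of_comm hK
      intro x y
      rw [Subgroup.mem_comap, Subgroup.mem_centralizer_singleton_iff]
      exact (stepA x y k')
    have h : k ∈ ((Subgroup.centralizer {R (ind Sy k')}).comap
        (L.comp (MonoidHom.mulSingle (fun _ : V (n + 1) => K) (Fin.cons i α)))) := by
      rw [this]; trivial
    rw [Subgroup.mem_comap, Subgroup.mem_centralizer_singleton_iff] at h
    exact h
  have stepC : ∀ p k' : K, Commute (L (Pi.mulSingle (Fin.cons i α) k))
      (R (Pi.mulSingle (Fin.snoc β j) ⁅p, k'⁆)) := by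
    intro p k'
    have e1 : (Pi.mulSingle (Fin.snoc β j) ⁅p, k'⁆ : V (n + 1) → K) =
        ⁅(Pi.mulSingle β p : V n → K) ∘ ini, ind Sy k'⁆ := by
      funext w
      simp only [commutatorElement_def, Pi.mul_apply, Pi.inv_apply, comp_apply]
      by_cases hw : ini w = β
      · rw [hw, Pi.mulSingle_eq_same]
        by_cases hx : w ∈ Sy
        · rw [(h3 w hw).mp hx, Pi.mulSingle_eq_same]
          rw [(h3 w hw).mp hx] at hx
          simp [ind, hx]
        · have : w ≠ Fin.snoc β j := fun h => hx ((h3 w hw).mpr h)
          rw [Pi.mulSingle_eq_of_ne this]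
          simp [ind, hx]
      · have : w ≠ Fin.snoc β j := fun h => hw (by rw [h, ini_snoc])
        rw [Pi.mulSingle_eq_of_ne this, Pi.mulSingle_eq_of_ne hw]
        simp
    rw [e1, map_commutatorElement]
    have c1 : Commute (L (Pi.mulSingle (Fin.cons i α) k)) (R ((Pi.mulSingle β p : V n → K) ∘ ini)) := by
      rw [← hLR]
      refine (comm_of_disjoint _ _ (fun w => ?_)).map L
      by_cases hw : w = Fin.cons i α
      · right
        rw [comp_apply, hw, tai_cons, Pi.mulSingle_eq_of_ne hαβ]
      · left
        rw [Pi.mulSingle_eq_of_ne hw]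
    have c2 := stepB k k'
    rw [commutatorElement_def]
    exact ((c1.mul_right c2).mul_right c1.inv_right).mul_right c2.inv_right
  have : ((Subgroup.centralizer {L (Pi.mulSingle (Fin.cons i α) k)}).comap
      (R.comp (MonoidHom.mulSingle (fun _ : V (n + 1) => K) (Fin.snoc β j)))) = ⊤ := by
    apply eq_top_of_comm hK
    intro x y
    rw [Subgroup.mem_comap, Subgroup.mem_centralizer_singleton_iff]
    exact (stepC x y).symm
  have h : k' ∈ ((Subgroup.centralizer {L (Pi.mulSingle (Fin.cons i α) k)}).comap
      (R.comp (MonoidHom.mulSingle (fun _ : V (n + 1) => K) (Fin.snoc β j)))) := by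
    rw [this]; trivial
  rw [Subgroup.mem_comap, Subgroup.mem_centralizer_singleton_iff] at h
  exact Commute.symm h

/-- functions supported in a set -/
def supp {X : Type} (K : Type) [Group K] (S : Set X) : Subgroup (X → K) where
  carrier := {g | ∀ w, w ∉ S → g w = 1}
  one_mem' := fun _ _ => rfl
  mul_mem' := fun ha hb w hw => by simp [ha w hw, hb w hw]
  inv_mem' := fun ha w hw => by simp [ha w hw]

/-- the block of `α` -/
def Gam {n : ℕ} (L R : (V (n + 1) → K) →* H) (α : V n) : Subgroup H :=
  (supp K {w | tai w = α}).map L ⊔ (supp K {w | ini w = α}).map R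

/-- the complement of the block of `α` -/
def Cof {n : ℕ} (L R : (V (n + 1) → K) →* H) (α : V n) : Subgroup H :=
  (supp K {w | tai w ≠ α}).map L ⊔ (supp K {w | ini w ≠ α}).map R

theorem Gam_le_Cof {n : ℕ} (L R : (V (n + 1) → K) →* H) {α β : V n} (h : α ≠ β) :
    Gam L R β ≤ Cof L R α := by
  apply sup_le_sup
  · apply Subgroup.map_mono
    intro g hg w hw
    apply hg
    simp only [Set.mem_ofPred_eq, not_not] at hw ⊢
    rw [hw]; exact h
  · apply Subgroup.map_mono
    intro g hg w hw
    apply hg
    simp only [Set.mem_ofPred_eq, not_not] at hw ⊢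
    rw [hw]; exact h

/-- pairwise commutation of the points in different blocks -/
def Cross {n : ℕ} (L R : (V (n + 1) → K) →* H) : Prop :=
  ∀ (α β : V n), α ≠ β → ∀ (i j : ZMod 2) (k k' : K),
    Commute (L (Pi.mulSingle (Fin.cons i α) k)) (R (Pi.mulSingle (Fin.snoc β j) k'))

theorem comm_Gam_Cof {n : ℕ} {L R : (V (n + 1) → K) →* H} (hc : Cross L R) (α : V n)
    {x y : H} (hx : x ∈ Gam L R α) (hy : y ∈ Cof L R α) : Commute x y := by
  classical
  have key : Gam L R α ≤ Subgroup.centralizer (Cof L R α : Set H) := by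
    rw [Gam, sup_le_iff]
    have hL : ∀ w : V (n + 1), ∀ w' : V (n + 1), tai w ≠ ini w' → ∀ k k' : K,
        Commute (L (Pi.mulSingle w k)) (R (Pi.mulSingle w' k')) := by
      intro w w' h k k'
      have := hc (tai w) (ini w') h (w 0) (w' (Fin.last n)) k k'
      rwa [← eq_cons, ← eq_snoc] at this
    constructor
    · rw [Subgroup.le_centralizer_iff, Cof, sup_le_iff]
      constructor
      · rintro _ ⟨g', hg', rfl⟩
        rw [Subgroup.mem_centralizer_iff]
        rintro _ ⟨g, hg, rfl⟩
        refine (comm_of_disjoint _ _ (fun w => ?_)).map L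
        by_cases hw : tai w = α
        · right; exact hg' w (by simpa using hw)
        · left; exact hg w hw
      · rintro _ ⟨g', hg', rfl⟩
        rw [Subgroup.mem_centralizer_iff]
        rintro _ ⟨g, hg, rfl⟩
        refine comm_of_single L R g g' (fun w w' => ?_)
        by_cases hw : tai w = α
        · by_cases hw' : ini w' = α
          · rw [hg' w' (by simpa using hw'), Pi.mulSingle_one, map_one]
            exact Commute.one_right _
          · exact hL w w' (by rw [hw]; exact fun h => hw' h.symm) _ _
        · rw [hg w hw, Pi.mulSingle_one, map_one]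
          exact Commute.one_left _
    · rw [Subgroup.le_centralizer_iff, Cof, sup_le_iff]
      constructor
      · rintro _ ⟨g', hg', rfl⟩
        rw [Subgroup.mem_centralizer_iff]
        rintro _ ⟨g, hg, rfl⟩
        refine (comm_of_single L R g' g (fun w w' => ?_)).symm
        by_cases hw : ini w' = α
        · by_cases hw' : tai w = α
          · rw [hg' w (by simpa using hw'), Pi.mulSingle_one, map_one]
            exact Commute.one_left _
          · exact hL w w' (by rw [hw]; exact hw') _ _
        · rw [hg w' hw, Pi.mulSingle_one, map_one]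
          exact Commute.one_right _
      · rintro _ ⟨g', hg', rfl⟩
        rw [Subgroup.mem_centralizer_iff]
        rintro _ ⟨g, hg, rfl⟩
        refine (comm_of_disjoint _ _ (fun w => ?_)).map R
        by_cases hw : ini w = α
        · right; exact hg' w (by simpa using hw)
        · left; exact hg w hw
  have := key hx
  rw [Subgroup.mem_centralizer_iff] at this
  exact (this y hy).symm

end

end Pool.Agent.TH103.VD
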