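import Mathlib
import Pool.Agent.TH103.VD.Window

/-!
The extension step: from windows of length `m + 2` to windows of length `m + 3`.
-/

set_option autoImplicit false

namespace Pool.Agent.TH103.VD

open Function
open scoped commutatorElement

section central

variable {P : Type} [Group P] {E : Type} [Group E]

/-- two homomorphisms from a perfect group which agree modulo the centre are equal -/
theorem eq_of_central (hP : Group.IsPerfect P) (f g : P →* E)
    (h : ∀ x, ∃ z ∈ Subgroup.center E, f x = g x * z) : f = g := by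
  have key : ∀ x y : P, f ⁅x, y⁆ = g ⁅x, y⁆ := by
    intro x y
    obtain ⟨z, hz, hx⟩ := h x
    obtain ⟨z', hz', hy⟩ := h y
    rw [map_commutatorElement, map_commutatorElement, hx, hy]
    rw [Subgroup.mem_center_iff] at hz hz'
    have c1 : Commute z (g x * z) := (hz (g x * z)).symm
    simp only [commutatorElement_def, mul_inv_rev]
    have e1 : g x * z * (g y * z') * (z⁻¹ * (g x)⁻¹) * (z'⁻¹ * (g y)⁻¹) =
        g x * (z * (g y * z') * z⁻¹) * (g x)⁻¹ * (z'⁻¹ * (g y)⁻¹) := by group
    rw [e1, ← hz (g y * z'), mul_inv_cancel_right]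
    have e2 : g x * (g y * z') * (g x)⁻¹ * (z'⁻¹ * (g y)⁻¹) =
        g x * g y * (z' * (g x)⁻¹ * z'⁻¹) * (g y)⁻¹ := by group
    rw [e2, ← hz' (g x)⁻¹, mul_inv_cancel_right]
  have : f.eqLocus g = ⊤ := eq_top_of_comm hP _ (fun x y => key x y)
  ext x
  have hx : x ∈ f.eqLocus g := by rw [this]; trivial
  exact hx

end central

section

variable {K : Type} [Group K] {H : Type} [Group H]

open Classical in
/-- the left block of `α` -/
noncomputable def bl {n : ℕ} (K : Type) [Group K] (α : V n) : (ZMod 2 → K) →* (V (n + 1) → K) where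
  toFun h := fun w => if tai w = α then h (w 0) else 1
  map_one' := by funext w; simp
  map_mul' a b := by
    funext w
    by_cases hw : tai w = α <;> simp [hw]

open Classical in
/-- the right block of `α` -/
noncomputable def br {n : ℕ} (K : Type) [Group K] (α : V n) : (ZMod 2 → K) →* (V (n + 1) → K) where
  toFun h := fun w => if ini w = α then h (w (Fin.last n)) else 1
  map_one' := by funext w; simp
  map_mul' a b := by
    funext w
    by_cases hw : ini w = α <;> simp [hw]

theorem bl_single {n : ℕ} (α : V n) (i : ZMod 2) (k : K) :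
    bl K α (Pi.mulSingle i k) = Pi.mulSingle (Fin.cons i α) k := by
  funext w
  change (if tai w = α then (Pi.mulSingle i k : ZMod 2 → K) (w 0) else 1) = _
  by_cases hw : w = Fin.cons i α
  · rw [hw, Pi.mulSingle_eq_same, tai_cons, if_pos rfl, Fin.cons_zero, Pi.mulSingle_eq_same]
  · rw [Pi.mulSingle_eq_of_ne hw]
    by_cases h : tai w = α
    · rw [if_pos h]
      apply Pi.mulSingle_eq_of_ne
      intro h0
      apply hw
      rw [← h0, ← h]
      exact eq_cons w
    · rw [if_neg h]

theorem br_single {n : ℕ} (α : V n) (j : ZMod 2) (k : K) :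
    br K α (Pi.mulSingle j k) = Pi.mulSingle (Fin.snoc α j) k := by
  funext w
  change (if ini w = α then (Pi.mulSingle j k : ZMod 2 → K) (w (Fin.last n)) else 1) = _
  by_cases hw : w = Fin.snoc α j
  · rw [hw, Pi.mulSingle_eq_same, ini_snoc, if_pos rfl, Fin.snoc_last, Pi.mulSingle_eq_same]
  · rw [Pi.mulSingle_eq_of_ne hw]
    by_cases h : ini w = α
    · rw [if_pos h]
      apply Pi.mulSingle_eq_of_ne
      intro h0
      apply hw
      rw [← h0, ← h]
      exact eq_snoc w
    · rw [if_neg h]

theorem bl_mem {n : ℕ} (L R : (V (n + 1) → K) →* H) (α : V n) (h : ZMod 2 → K) :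
    L (bl K α h) ∈ Gam L R α := by
  apply Subgroup.mem_sup_left
  refine ⟨_, ?_, rfl⟩
  intro w hw
  exact if_neg hw

theorem br_mem {n : ℕ} (L R : (V (n + 1) → K) →* H) (α : V n) (h : ZMod 2 → K) :
    R (br K α h) ∈ Gam L R α := by
  apply Subgroup.mem_sup_right
  refine ⟨_, ?_, rfl⟩
  intro w hw
  exact if_neg hw

/-- functions on a square are generated by the two projections -/
theorem square_gen (hK : Group.IsPerfect K) (S : Subgroup (ZMod 2 × ZMod 2 → K))
    (h1 : ∀ h : ZMod 2 → K, (fun p => h p.1) ∈ S) (h2 : ∀ h : ZMod 2 → K, (fun p => h p.2) ∈ S) :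
    ∀ g, g ∈ S := by
  classical
  intro g
  apply mem_of_single
  rintro ⟨i, j⟩
  have : (S.comap (MonoidHom.mulSingle (fun _ : ZMod 2 × ZMod 2 => K) (i, j))) = ⊤ := by
    apply eq_top_of_comm hK
    intro x y
    rw [Subgroup.mem_comap]
    have e : MonoidHom.mulSingle (fun _ : ZMod 2 × ZMod 2 => K) (i, j) ⁅x, y⁆ =
        ⁅(fun p => (Pi.mulSingle i x : ZMod 2 → K) p.1 : ZMod 2 × ZMod 2 → K),
          (fun p => (Pi.mulSingle j y : ZMod 2 → K) p.2 : ZMod 2 × ZMod 2 → K)⁆ := by
      funext p
      rw [MonoidHom.mulSingle_apply]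
      simp only [commutatorElement_def, Pi.mul_apply, Pi.inv_apply]
      by_cases hi : p.1 = i
      · by_cases hj : p.2 = j
        · have : p = (i, j) := Prod.ext hi hj
          rw [this, Pi.mulSingle_eq_same, Pi.mulSingle_eq_same, Pi.mulSingle_eq_same]
        · have : p ≠ (i, j) := fun h => hj (by rw [h])
          rw [Pi.mulSingle_eq_of_ne this, Pi.mulSingle_eq_of_ne hj]
          simp
      · have : p ≠ (i, j) := fun h => hi (by rw [h])
        rw [Pi.mulSingle_eq_of_ne this, Pi.mulSingle_eq_of_ne hi]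
        simp
    rw [e]
    exact Subgroup.mul_mem _ (Subgroup.mul_mem _ (Subgroup.mul_mem _ (h1 _) (h2 _))
      (Subgroup.inv_mem _ (h1 _))) (Subgroup.inv_mem _ (h2 _))
  have h : g (i, j) ∈ (S.comap (MonoidHom.mulSingle (fun _ : ZMod 2 × ZMod 2 => K) (i, j))) := by
    rw [this]; trivial
  exact h

/-- Step 3: the block homomorphism. -/
theorem exists_sigma {n : ℕ} (hK : Group.IsPerfect K) (hL : LP K) {L R : (V (n + 1) → K) →* H}
    (hc : Cross L R) (α : V n) (θ : (ZMod 2 × ZMod 2 → K) →* H)
    (h1 : ∀ h : ZMod 2 → K, ∃ c ∈ Cof L R α, θ (fun p => h p.1) = L (bl K α h) * c)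
    (h2 : ∀ h : ZMod 2 → K, ∃ c ∈ Cof L R α, θ (fun p => h p.2) = R (br K α h) * c) :
    ∃ σ : (ZMod 2 × ZMod 2 → K) →* H, (∀ h, σ (fun p => h p.1) = L (bl K α h)) ∧
      (∀ h, σ (fun p => h p.2) = R (br K α h)) ∧ ∀ g, σ g ∈ Gam L R α := by
  have hdec : ∀ g, ∃ γ ∈ Gam L R α, ∃ c ∈ Cof L R α, θ g = γ * c := by
    let S : Subgroup (ZMod 2 × ZMod 2 → K) :=
      { carrier := {g | ∃ γ ∈ Gam L R α, ∃ c ∈ Cof L R α, θ g = γ * c}
        one_mem' := ⟨1, Subgroup.one_mem _, 1, Subgroup.one_mem _, by simp⟩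
        mul_mem' := by
          rintro a b ⟨γ, hγ, c, hc1, ha⟩ ⟨γ', hγ', c', hc', hb⟩
          refine ⟨γ * γ', Subgroup.mul_mem _ hγ hγ', c * c', Subgroup.mul_mem _ hc1 hc', ?_⟩
          rw [map_mul, ha, hb]
          have := comm_Gam_Cof hc α hγ' hc1
          have e : γ * c * (γ' * c') = γ * (c * γ') * c' := by group
          rw [e, ← this.eq]
          group
        inv_mem' := by
          rintro a ⟨γ, hγ, c, hc1, ha⟩
          refine ⟨γ⁻¹, Subgroup.inv_mem _ hγ, c⁻¹, Subgroup.inv_mem _ hc1, ?_⟩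
          rw [map_inv, ha, (comm_Gam_Cof hc α hγ hc1).eq]
          group }
    intro g
    refine square_gen hK S ?_ ?_ g
    · intro h
      obtain ⟨c, hc1, e⟩ := h1 h
      exact ⟨_, bl_mem L R α h, c, hc1, e⟩
    · intro h
      obtain ⟨c, hc1, e⟩ := h2 h
      exact ⟨_, br_mem L R α h, c, hc1, e⟩
  choose γ hγ c hcm hθ using hdec
  -- uniqueness of the decomposition modulo the centre
  have huniq : ∀ (x y : Gam L R α) (a b : H), a ∈ Cof L R α → b ∈ Cof L R α →
      (x : H) * a = y * b → x⁻¹ * y ∈ Subgroup.center (Gam L R α) := by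
    intro x y a b ha hb hab
    rw [Subgroup.mem_center_iff]
    intro w
    apply Subtype.ext
    have e : ((x⁻¹ * y : Gam L R α) : H) = a * b⁻¹ := by
      rw [Subgroup.coe_mul, Subgroup.coe_inv]
      calc (x : H)⁻¹ * y = (x : H)⁻¹ * (y * b) * b⁻¹ := by group
        _ = (x : H)⁻¹ * (x * a) * b⁻¹ := by rw [hab]
        _ = a * b⁻¹ := by group
    change (w : H) * ((x⁻¹ * y : Gam L R α) : H) = ((x⁻¹ * y : Gam L R α) : H) * w
    rw [e]
    exact comm_Gam_Cof hc α w.2 (Subgroup.mul_mem _ ha (Subgroup.inv_mem _ hb))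
  let F : (ZMod 2 × ZMod 2 → K) → Gam L R α := fun g => ⟨γ g, hγ g⟩
  have hF : ∀ x y, (F (x * y))⁻¹ * (F x * F y) ∈ Subgroup.center (Gam L R α) := by
    intro x y
    refine huniq _ _ (c (x * y)) (c x * c y) (hcm _) (Subgroup.mul_mem _ (hcm _) (hcm _)) ?_
    change γ (x * y) * c (x * y) = γ x * γ y * (c x * c y)
    rw [← hθ, map_mul, hθ x, hθ y]
    have := comm_Gam_Cof hc α (hγ y) (hcm x)
    have e : γ x * c x * (γ y * c y) = γ x * (c x * γ y) * c y := by group
    rw [e, ← this.eq]
    group
  obtain ⟨σ, hσ⟩ := LP_fun (LP_pi hK hL) F hF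
  refine ⟨(Gam L R α).subtype.comp σ, ?_, ?_, ?_⟩
  · intro h
    let q1 : (ZMod 2 → K) →* Gam L R α := σ.comp (pull K (Prod.fst : ZMod 2 × ZMod 2 → ZMod 2))
    let q2 : (ZMod 2 → K) →* Gam L R α := (L.comp (bl K α)).codRestrict _ (bl_mem L R α)
    have : q1 = q2 := by
      apply eq_of_central (pi_perfect hK)
      intro x
      obtain ⟨z, hz, e⟩ := hσ (fun p => x p.1)
      obtain ⟨c', hc', e'⟩ := h1 x
      have := huniq (q2 x) (F (fun p => x p.1)) c' (c (fun p => x p.1)) hc' (hcm _) (by
        change L (bl K α x) * c' = γ _ * c _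
        rw [← e', hθ])
      refine ⟨(q2 x)⁻¹ * F (fun p => x p.1) * z, Subgroup.mul_mem _ this hz, ?_⟩
      change σ (fun p => x p.1) = _
      rw [e]
      group
    have h3 := DFunLike.congr_fun this h
    exact congrArg Subtype.val h3
  · intro h
    let q1 : (ZMod 2 → K) →* Gam L R α := σ.comp (pull K (Prod.snd : ZMod 2 × ZMod 2 → ZMod 2))
    let q2 : (ZMod 2 → K) →* Gam L R α := (R.comp (br K α)).codRestrict _ (br_mem L R α)
    have : q1 = q2 := by
      apply eq_of_central (pi_perfect hK)
      intro x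
      obtain ⟨z, hz, e⟩ := hσ (fun p => x p.2)
      obtain ⟨c', hc', e'⟩ := h2 x
      have := huniq (q2 x) (F (fun p => x p.2)) c' (c (fun p => x p.2)) hc' (hcm _) (by
        change R (br K α x) * c' = γ _ * c _
        rw [← e', hθ])
      refine ⟨(q2 x)⁻¹ * F (fun p => x p.2) * z, Subgroup.mul_mem _ this hz, ?_⟩
      change σ (fun p => x p.2) = _
      rw [e]
      group
    have h3 := DFunLike.congr_fun this h
    exact congrArg Subtype.val h3
  · intro g
    exact (σ g).2

/-- Step 4: the assembled homomorphism -/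
theorem exists_ext {n : ℕ} {L R : (V (n + 1) → K) →* H} (hc : Cross L R)
    (σ : V n → (ZMod 2 × ZMod 2 → K) →* H)
    (h1 : ∀ α h, σ α (fun p => h p.1) = L (bl K α h))
    (h2 : ∀ α h, σ α (fun p => h p.2) = R (br K α h))
    (h3 : ∀ α g, σ α g ∈ Gam L R α) :
    ∃ Φ : (V (n + 2) → K) →* H, (∀ c : V (n + 1) → K, Φ (c ∘ ini) = L c) ∧
      (∀ c : V (n + 1) → K, Φ (c ∘ tai) = R c) := by
  classical
  have hcomm : Pairwise fun α β => ∀ x y, Commute (σ α x) (σ β y) := by
    intro α β hαβ x y
    exact comm_Gam_Cof hc α (h3 α x) (Gam_le_Cof L R hαβ (h3 β y))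
  let cur : (V (n + 2) → K) →* (V n → ZMod 2 × ZMod 2 → K) :=
    { toFun := fun c α p => c (Fin.cons p.1 (Fin.snoc α p.2 : V (n + 1)))
      map_one' := rfl
      map_mul' := fun _ _ => rfl }
  let Φ : (V (n + 2) → K) →* H := (MonoidHom.noncommPiCoprod σ hcomm).comp cur
  refine ⟨Φ, ?_, ?_⟩
  · have : Φ.comp (pull K ini) = L := by
      apply hom_ext_single
      intro w k
      have e : cur (pull K ini (Pi.mulSingle w k)) =
          Pi.mulSingle (tai w) (fun p => (Pi.mulSingle (w 0) k : ZMod 2 → K) p.1) := by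
        funext α p
        change (Pi.mulSingle w k : V (n + 1) → K)
          (ini (Fin.cons p.1 (Fin.snoc α p.2 : V (n + 1)) : V (n + 2))) = _
        rw [ini_cons_snoc]
        by_cases hα : α = tai w
        · rw [hα, Pi.mulSingle_eq_same]
          by_cases hp : p.1 = w 0
          · rw [hp, Pi.mulSingle_eq_same]
            conv_lhs => rw [← eq_cons w]
            rw [Pi.mulSingle_eq_same]
          · rw [Pi.mulSingle_eq_of_ne hp]
            apply Pi.mulSingle_eq_of_ne
            intro h
            apply hp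
            rw [← h, Fin.cons_zero]
        · rw [Pi.mulSingle_eq_of_ne hα]
          have : (Fin.cons p.1 α : V (n + 1)) ≠ w := by
            intro h
            apply hα
            rw [← h, tai_cons]
          rw [Pi.mulSingle_eq_of_ne this]
          rfl
      change MonoidHom.noncommPiCoprod σ hcomm (cur (pull K ini (Pi.mulSingle w k))) = _
      rw [e, MonoidHom.noncommPiCoprod_mulSingle, h1, bl_single, ← eq_cons]
    intro c
    exact DFunLike.congr_fun this c
  · have : Φ.comp (pull K tai) = R := by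
      apply hom_ext_single
      intro w k
      have e : cur (pull K tai (Pi.mulSingle w k)) =
          Pi.mulSingle (ini w) (fun p => (Pi.mulSingle (w (Fin.last n)) k : ZMod 2 → K) p.2) := by
        funext α p
        change (Pi.mulSingle w k : V (n + 1) → K)
          (tai (Fin.cons p.1 (Fin.snoc α p.2 : V (n + 1)) : V (n + 2))) = _
        rw [tai_cons]
        by_cases hα : α = ini w
        · rw [hα, Pi.mulSingle_eq_same]
          by_cases hp : p.2 = w (Fin.last n)
          · rw [hp, Pi.mulSingle_eq_same]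
            conv_lhs => rw [← eq_snoc w]
            rw [Pi.mulSingle_eq_same]
          · rw [Pi.mulSingle_eq_of_ne hp]
            apply Pi.mulSingle_eq_of_ne
            intro h
            apply hp
            rw [← h, Fin.snoc_last]
        · rw [Pi.mulSingle_eq_of_ne hα]
          have : (Fin.snoc α p.2 : V (n + 1)) ≠ w := by
            intro h
            apply hα
            rw [← h, ini_snoc]
          rw [Pi.mulSingle_eq_of_ne this]
          rfl
      change MonoidHom.noncommPiCoprod σ hcomm (cur (pull K tai (Pi.mulSingle w k))) = _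
      rw [e, MonoidHom.noncommPiCoprod_mulSingle, h2, br_single, ← eq_snoc]
    intro c
    exact DFunLike.congr_fun this c

end

end Pool.Agent.TH103.VD
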