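import Mathlib
import Pool.Agent.TH103.VD.Window2

/-!
The inductive step for systems of windows.
-/

set_option autoImplicit false

namespace Pool.Agent.TH103.VD

open Function
open scoped commutatorElement

section

variable {K : Type} [Group K] {H : Type} [Group H]

/-- functions on words of length at least two are generated by the two restrictions -/
theorem word_gen {n : ℕ} (hK : Group.IsPerfect K) (S : Subgroup (V (n + 2) → K))
    (h1 : ∀ c : V (n + 1) → K, c ∘ ini ∈ S) (h2 : ∀ c : V (n + 1) → K, c ∘ tai ∈ S) :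
    ∀ g, g ∈ S := by
  classical
  intro g
  apply mem_of_single
  intro w
  have : (S.comap (MonoidHom.mulSingle (fun _ : V (n + 2) => K) w)) = ⊤ := by
    apply eq_top_of_comm hK
    intro x y
    rw [Subgroup.mem_comap]
    have e : MonoidHom.mulSingle (fun _ : V (n + 2) => K) w ⁅x, y⁆ =
        ⁅((Pi.mulSingle (ini w) x : V (n + 1) → K) ∘ ini : V (n + 2) → K),
          ((Pi.mulSingle (tai w) y : V (n + 1) → K) ∘ tai : V (n + 2) → K)⁆ := by
      funext p
      rw [MonoidHom.mulSingle_apply]
      simp only [commutatorElement_def, Pi.mul_apply, Pi.inv_apply, comp_apply]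
      by_cases hi : ini p = ini w
      · by_cases hj : tai p = tai w
        · have : p = w := by
            rw [eq_cons p, eq_cons w, hj]
            have : p 0 = w 0 := congrFun hi 0
            rw [this]
          rw [this, Pi.mulSingle_eq_same, Pi.mulSingle_eq_same, Pi.mulSingle_eq_same]
        · have : p ≠ w := fun h => hj (by rw [h])
          rw [Pi.mulSingle_eq_of_ne this, Pi.mulSingle_eq_of_ne hj]
          simp
      · have : p ≠ w := fun h => hi (by rw [h])
        rw [Pi.mulSingle_eq_of_ne this, Pi.mulSingle_eq_of_ne hi]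
        simp
    rw [e]
    exact Subgroup.mul_mem _ (Subgroup.mul_mem _ (Subgroup.mul_mem _ (h1 _) (h2 _))
      (Subgroup.inv_mem _ (h1 _))) (Subgroup.inv_mem _ (h2 _))
  have h : g w ∈ (S.comap (MonoidHom.mulSingle (fun _ : V (n + 2) => K) w)) := by
    rw [this]; trivial
  exact h

theorem word_ext {n : ℕ} (hK : Group.IsPerfect K) (f g : (V (n + 2) → K) →* H)
    (h1 : ∀ c : V (n + 1) → K, f (c ∘ ini) = g (c ∘ ini))
    (h2 : ∀ c : V (n + 1) → K, f (c ∘ tai) = g (c ∘ tai)) : f = g := by
  ext x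
  exact word_gen hK (f.eqLocus g) h1 h2 x

/-- A compatible system on windows of length `m + 2` -/
structure Sys (m : ℕ) (t s f : H) (Φ : (V (m + 2) → K) →* H) : Prop where
  hT : ∀ c : V (m + 1) → K, Φ (c ∘ tai) = t * Φ (c ∘ ini) * t⁻¹
  hS : ∀ c : V (m + 1) → K, Φ (c ∘ D1) = s * Φ (c ∘ ini) * s⁻¹
  hF : ∀ c : V m → K, Φ (c ∘ D2) = f * Φ (c ∘ ini ∘ ini) * f⁻¹
  ts : Commute t s
  tf : Commute t f
  sf : Commute s f

/-- conjugating a homomorphism -/
def cj (t : H) (Φ : K →* H) : K →* H := (MulAut.conj t).toMonoidHom.comp Φ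

theorem cj_apply (t : H) (Φ : K →* H) (x : K) : cj t Φ x = t * Φ x * t⁻¹ := rfl

theorem conj_comm {t s : H} (h : Commute t s) (x : H) :
    t * (s * x * s⁻¹) * t⁻¹ = s * (t * x * t⁻¹) * s⁻¹ := by
  have h2 : t⁻¹ * s⁻¹ = s⁻¹ * t⁻¹ := by
    rw [← mul_inv_rev, ← mul_inv_rev, h.eq]
  calc t * (s * x * s⁻¹) * t⁻¹ = (t * s) * x * (s⁻¹ * t⁻¹) := by group
    _ = (s * t) * x * (t⁻¹ * s⁻¹) := by rw [h.eq, h2]
    _ = s * (t * x * t⁻¹) * s⁻¹ := by group

theorem Sys.cross_D1 {m : ℕ} {t s f : H} {Φ : (V (m + 2) → K) →* H} (hK : Group.IsPerfect K)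
    (h : Sys m t s f Φ) {α β : V (m + 1)} (hD : D1 α ≠ D1 β) (i j : ZMod 2) (k k' : K) :
    Commute (Φ (Pi.mulSingle (Fin.cons i α) k)) (cj t Φ (Pi.mulSingle (Fin.snoc β j) k')) := by
  classical
  have hαβ : α ≠ β := fun e => hD (by rw [e])
  refine cross hK Φ (cj t Φ) (fun c => h.hT c) hαβ i j
    {w | D1 w = D1 (Fin.cons i α : V (m + 2))} {w | D1 w = D1 (Fin.snoc β j : V (m + 2))}
    ?_ ?_ ?_ ?_ k k'
  · intro k k'
    have e1 : ind {w : V (m + 2) | D1 w = D1 (Fin.cons i α : V (m + 2))} k =
        (Pi.mulSingle (D1 (Fin.cons i α : V (m + 2))) k : V (m + 1) → K) ∘ D1 := by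
      funext w
      simp only [ind, Set.mem_ofPred_eq, comp_apply, Pi.mulSingle_apply]
      congr
    have e2 : ind {w : V (m + 2) | D1 w = D1 (Fin.snoc β j : V (m + 2))} k' =
        (Pi.mulSingle (D1 (Fin.snoc β j : V (m + 2))) k' : V (m + 1) → K) ∘ D1 := by
      funext w
      simp only [ind, Set.mem_ofPred_eq, comp_apply, Pi.mulSingle_apply]
      congr
    rw [e1, e2, cj_apply, h.hS, h.hS, conj_comm h.ts, ← h.hT]
    have : Commute (Φ ((Pi.mulSingle (D1 (Fin.cons i α : V (m + 2))) k : V (m + 1) → K) ∘ ini))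
        (Φ ((Pi.mulSingle (D1 (Fin.snoc β j : V (m + 2))) k' : V (m + 1) → K) ∘ tai)) := by
      refine (comm_of_disjoint _ _ (fun w => ?_)).map Φ
      by_cases h1 : ini w = D1 (Fin.cons i α : V (m + 2))
      · right
        rw [comp_apply]
        apply Pi.mulSingle_eq_of_ne
        intro h2
        apply hD
        have e3 : tai (ini w) = D1 α := by
          rw [h1, tai_D1, tai_cons]
        have e4 : ini (tai w) = D1 β := by
          rw [h2, ini_D1, ini_snoc]
        rw [← e3, ← e4]
        rfl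
      · left
        rw [comp_apply]
        exact Pi.mulSingle_eq_of_ne h1 _
    exact this.map (MulAut.conj s).toMonoidHom
  · intro w hw
    rw [Set.mem_ofPred_eq]
    constructor
    · intro h1
      have h0 : w 0 + w 1 = i + α 0 := congrFun h1 0
      have h2 : w 1 = α 0 := congrFun hw 0
      rw [h2] at h0
      have h3 : w 0 = i := add_right_cancel h0
      rw [eq_cons w, h3, hw]
    · intro h1; rw [h1]
  · intro w hw h1
    rw [Set.mem_ofPred_eq] at h1
    apply hD
    rw [← hw, ← ini_D1, h1, ini_D1, ini_snoc]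
  · intro w hw
    rw [Set.mem_ofPred_eq]
    constructor
    · intro h1
      have h0 := congrFun h1 (Fin.last m)
      simp only [D1] at h0
      have h2 : w (Fin.last m).castSucc = β (Fin.last m) := congrFun hw (Fin.last m)
      rw [h2, Fin.snoc_castSucc, Fin.succ_last, Fin.snoc_last] at h0
      have h3 : w (Fin.last (m + 1)) = j := add_left_cancel h0
      rw [eq_snoc w, h3, hw]
    · intro h1; rw [h1]

theorem Sys.cross_D2 {m : ℕ} {t s f : H} {Φ : (V (m + 3) → K) →* H} (hK : Group.IsPerfect K)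
    (h : Sys (m + 1) t s f Φ) {α β : V (m + 2)} (hD : D2 α ≠ D2 β) (i j : ZMod 2) (k k' : K) :
    Commute (Φ (Pi.mulSingle (Fin.cons i α) k)) (cj t Φ (Pi.mulSingle (Fin.snoc β j) k')) := by
  classical
  have hαβ : α ≠ β := fun e => hD (by rw [e])
  refine cross hK Φ (cj t Φ) (fun c => h.hT c) hαβ i j
    {w | D2 w = D2 (Fin.cons i α : V (m + 3))} {w | D2 w = D2 (Fin.snoc β j : V (m + 3))}
    ?_ ?_ ?_ ?_ k k'
  · intro k k'
    have e1 : ind {w : V (m + 3) | D2 w = D2 (Fin.cons i α : V (m + 3))} k =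
        (Pi.mulSingle (D2 (Fin.cons i α : V (m + 3))) k : V (m + 1) → K) ∘ D2 := by
      funext w
      simp only [ind, Set.mem_ofPred_eq, comp_apply, Pi.mulSingle_apply]
      congr
    have e2 : ind {w : V (m + 3) | D2 w = D2 (Fin.snoc β j : V (m + 3))} k' =
        (Pi.mulSingle (D2 (Fin.snoc β j : V (m + 3))) k' : V (m + 1) → K) ∘ D2 := by
      funext w
      simp only [ind, Set.mem_ofPred_eq, comp_apply, Pi.mulSingle_apply]
      congr
    rw [e1, e2, cj_apply, h.hF, h.hF, conj_comm h.tf]
    have e5 := h.hT ((Pi.mulSingle (D2 (Fin.snoc β j : V (m + 3))) k' : V (m + 1) → K) ∘ ini)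
    have e6 : ((Pi.mulSingle (D2 (Fin.snoc β j : V (m + 3))) k' : V (m + 1) → K) ∘ ini) ∘ ini =
      (Pi.mulSingle (D2 (Fin.snoc β j : V (m + 3))) k' : V (m + 1) → K) ∘ ini ∘ ini := rfl
    rw [e6] at e5
    rw [← e5]
    have : Commute (Φ ((Pi.mulSingle (D2 (Fin.cons i α : V (m + 3))) k : V (m + 1) → K) ∘
          ini ∘ ini))
        (Φ (((Pi.mulSingle (D2 (Fin.snoc β j : V (m + 3))) k' : V (m + 1) → K) ∘ ini) ∘ tai)) := by
      refine (comm_of_disjoint _ _ (fun w => ?_)).map Φ
      by_cases h1 : ini (ini w) = D2 (Fin.cons i α : V (m + 3))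
      · right
        simp only [comp_apply]
        apply Pi.mulSingle_eq_of_ne
        intro h2
        apply hD
        have e3 : tai (ini (ini w)) = D2 α := by
          rw [h1, tai_D2, tai_cons]
        have e4 : ini (ini (tai w)) = D2 β := by
          rw [h2, ini_D2, ini_snoc]
        rw [← e3, ← e4]
        rfl
      · left
        simp only [comp_apply]
        exact Pi.mulSingle_eq_of_ne h1 _
    exact this.map (MulAut.conj f).toMonoidHom
  · intro w hw
    rw [Set.mem_ofPred_eq]
    constructor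
    · intro h1
      have h0 : w 0 + w 1 + w 2 = i + α 0 + α 1 := congrFun h1 0
      have h2 : w 1 = α 0 := congrFun hw 0
      have h2' : w 2 = α 1 := congrFun hw 1
      rw [h2, h2'] at h0
      have h3 : w 0 = i := add_right_cancel (add_right_cancel h0)
      rw [eq_cons w, h3, hw]
    · intro h1; rw [h1]
  · intro w hw h1
    rw [Set.mem_ofPred_eq] at h1
    apply hD
    rw [← hw, ← ini_D2, h1, ini_D2, ini_snoc]
  · intro w hw
    rw [Set.mem_ofPred_eq]
    constructor
    · intro h1
      have h0 := congrFun h1 (Fin.last m)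
      simp only [D2] at h0
      have h2 : w (Fin.last m).castSucc.castSucc = β (Fin.last m).castSucc :=
        congrFun hw (Fin.last m).castSucc
      have h2' : w (Fin.last m).succ.castSucc = β (Fin.last m).succ :=
        congrFun hw (Fin.last m).succ
      rw [h2, h2', Fin.snoc_castSucc, Fin.snoc_castSucc, Fin.succ_last, Fin.succ_last,
        Fin.snoc_last] at h0
      have h3 : w (Fin.last (m + 2)) = j := add_left_cancel h0
      rw [eq_snoc w, h3, hw]
    · intro h1; rw [h1]

theorem D_sep {m : ℕ} {α β : V (m + 3)} (h1 : D1 α = D1 β) (h2 : D2 α = D2 β) : α = β := by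
  -- the difference is constant, hence zero
  have key : ∀ i : Fin (m + 3), α i + β i = α 0 + β 0 := by
    intro i
    induction i using Fin.induction with
    | zero => rfl
    | succ i ih =>
      have := congrFun h1 i
      simp only [D1] at this
      rw [← ih]
      have e : ∀ a b c d : ZMod 2, a + b = c + d → b + d = a + c := by decide
      exact e _ _ _ _ this
  have h0 : α 0 + α 1 + α 2 = β 0 + β 1 + β 2 := congrFun h2 0
  have k1 := key 1
  have k2 := key 2
  have e : ∀ a b c a' b' c' : ZMod 2, a + b + c = a' + b' + c' → b + b' = a + a' →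
    c + c' = a + a' → a + a' = 0 := by decide
  have hz := e _ _ _ _ _ _ h0 k1 k2
  funext i
  have hi := key i
  rw [hz] at hi
  have e : ∀ a b : ZMod 2, a + b = 0 → a = b := by decide
  exact e _ _ hi

theorem Sys.cross {m : ℕ} {t s f : H} {Φ : (V (m + 4) → K) →* H} (hK : Group.IsPerfect K)
    (h : Sys (m + 2) t s f Φ) : Cross Φ (cj t Φ) := by
  intro α β hαβ i j k k'
  by_cases h1 : D1 α = D1 β
  · by_cases h2 : D2 α = D2 β
    · exact absurd (D_sep h1 h2) hαβ
    · exact h.cross_D2 hK h2 i j k k'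
  · exact h.cross_D1 hK h1 i j k k'

open Classical in
/-- the function used to build the block homomorphism -/
noncomputable def thetaFun {m : ℕ} (K : Type) [Group K] (α : V (m + 1)) :
    (ZMod 2 × ZMod 2 → K) →* (V (m + 2) → K) where
  toFun h := fun w => if tai (ini w) = D1 α then
    h (w 0 + α 0, w (Fin.last (m + 1)) + α (Fin.last m)) else 1
  map_one' := by funext w; simp
  map_mul' a b := by
    funext w
    by_cases hw : tai (ini w) = D1 α <;> simp [hw]

theorem Sys.exists_sigma {m : ℕ} {t s f : H} {Φ : (V (m + 4) → K) →* H} (hK : Group.IsPerfect K)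
    (hL : LP K) (h : Sys (m + 2) t s f Φ) (α : V (m + 3)) :
    ∃ σ : (ZMod 2 × ZMod 2 → K) →* H, (∀ h, σ (fun p => h p.1) = Φ (bl K α h)) ∧
      (∀ h, σ (fun p => h p.2) = cj t Φ (br K α h)) ∧ ∀ g, σ g ∈ Gam Φ (cj t Φ) α := by
  classical
  refine VD.exists_sigma hK hL (h.cross hK) α (cj s (Φ.comp (thetaFun K α))) ?_ ?_
  · intro g
    let c : V (m + 3) → K := fun u => if tai u = D1 α then g (u 0 + α 0) else 1
    have e1 : thetaFun K α (fun p => g p.1) = c ∘ ini := rfl
    let d : V (m + 4) → K := fun w => if tai w = α then 1 else (c ∘ D1) w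
    have e2 : c ∘ D1 = bl K α g * d := by
      funext w
      by_cases hw : tai w = α
      · have hb : bl K α g w = g (w 0) := if_pos hw
        have hd : d w = 1 := if_pos hw
        rw [Pi.mul_apply, hb, hd, mul_one]
        have h1 : tai (D1 w) = D1 α := by rw [tai_D1, hw]
        change (if tai (D1 w) = D1 α then g (D1 w 0 + α 0) else 1) = _
        rw [if_pos h1]
        have h2 : w 1 = α 0 := congrFun hw 0
        have h3 : D1 w 0 = w 0 + w 1 := rfl
        rw [h3, h2, add_assoc, zmod2_add_self, add_zero]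
      · have hb : bl K α g w = 1 := if_neg hw
        have hd : d w = (c ∘ D1) w := if_neg hw
        rw [Pi.mul_apply, hb, hd, one_mul]
    refine ⟨Φ d, ?_, ?_⟩
    · apply Subgroup.mem_sup_left
      refine ⟨d, ?_, rfl⟩
      intro w hw
      rw [Set.mem_ofPred_eq, not_not] at hw
      exact if_pos hw
    · rw [cj_apply, MonoidHom.comp_apply, e1, ← h.hS, e2, map_mul]
  · intro g
    let c : V (m + 3) → K := fun u => if ini u = D1 α then
      g (u (Fin.last (m + 2)) + α (Fin.last (m + 2))) else 1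
    have e1 : thetaFun K α (fun p => g p.2) = c ∘ tai := rfl
    let d : V (m + 4) → K := fun w => if ini w = α then 1 else (c ∘ D1) w
    have e2 : c ∘ D1 = br K α g * d := by
      funext w
      by_cases hw : ini w = α
      · have hb : br K α g w = g (w (Fin.last (m + 3))) := if_pos hw
        have hd : d w = 1 := if_pos hw
        rw [Pi.mul_apply, hb, hd, mul_one]
        have h1 : ini (D1 w) = D1 α := by rw [ini_D1, hw]
        change (if ini (D1 w) = D1 α then
          g (D1 w (Fin.last (m + 2)) + α (Fin.last (m + 2))) else 1) = _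
        rw [if_pos h1]
        have h2 : w (Fin.last (m + 2)).castSucc = α (Fin.last (m + 2)) :=
          congrFun hw (Fin.last (m + 2))
        have h3 : D1 w (Fin.last (m + 2)) = w (Fin.last (m + 2)).castSucc +
          w (Fin.last (m + 2)).succ := rfl
        rw [h3, h2, Fin.succ_last]
        have e : ∀ a b : ZMod 2, a + b + a = b := by decide
        rw [e]
      · have hb : br K α g w = 1 := if_neg hw
        have hd : d w = (c ∘ D1) w := if_neg hw
        rw [Pi.mul_apply, hb, hd, one_mul]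
    refine ⟨cj t Φ d, ?_, ?_⟩
    · apply Subgroup.mem_sup_right
      refine ⟨d, ?_, rfl⟩
      intro w hw
      rw [Set.mem_ofPred_eq, not_not] at hw
      exact if_pos hw
    · rw [cj_apply, MonoidHom.comp_apply, e1, h.hT, ← conj_comm h.ts, ← h.hS, e2, ← cj_apply,
        map_mul]

/-- the extension of a compatible system -/
theorem Sys.extend {m : ℕ} {t s f : H} {Φ : (V (m + 4) → K) →* H} (hK : Group.IsPerfect K)
    (hL : LP K) (h : Sys (m + 2) t s f Φ) :
    ∃ Φ' : (V (m + 5) → K) →* H, (∀ c : V (m + 4) → K, Φ' (c ∘ ini) = Φ c) ∧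
      Sys (m + 3) t s f Φ' := by
  choose σ h1 h2 h3 using fun α => h.exists_sigma hK hL α
  obtain ⟨Φ', g1, g2⟩ := exists_ext (h.cross hK) σ h1 h2 h3
  refine ⟨Φ', g1, ?_, ?_, ?_, h.ts, h.tf, h.sf⟩
  · intro c
    rw [g1, g2]
    rfl
  · intro c
    rw [g1]
    have : Φ'.comp (pull K D1) = cj s Φ := by
      apply word_ext hK
      · intro c
        change Φ' ((c ∘ ini) ∘ D1) = s * Φ (c ∘ ini) * s⁻¹
        rw [← h.hS]
        exact g1 (c ∘ D1)
      · intro c
        change Φ' ((c ∘ tai) ∘ D1) = s * Φ (c ∘ tai) * s⁻¹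
        rw [h.hT, ← conj_comm h.ts, ← h.hS]
        exact g2 (c ∘ D1)
    exact DFunLike.congr_fun this c
  · intro c
    have e : Φ' (c ∘ ini ∘ ini) = Φ (c ∘ ini) := g1 (c ∘ ini)
    rw [e]
    have : Φ'.comp (pull K D2) = cj f (Φ.comp (pull K ini)) := by
      apply word_ext hK
      · intro c
        change Φ' ((c ∘ ini) ∘ D2) = f * Φ (c ∘ ini ∘ ini) * f⁻¹
        rw [← h.hF]
        exact g1 (c ∘ D2)
      · intro c
        change Φ' ((c ∘ tai) ∘ D2) = f * Φ ((c ∘ ini) ∘ tai) * f⁻¹
        rw [h.hT]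
        have e6 : (c ∘ ini) ∘ ini = c ∘ ini ∘ ini := rfl
        rw [e6, ← conj_comm h.tf, ← h.hF]
        exact g2 (c ∘ D2)
    exact DFunLike.congr_fun this c

end

end Pool.Agent.TH103.VD
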