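import Mathlib
import Pool.Agent.TH103.VD.Step

/-!
The finitely presented group defined by windows of length four.
-/

set_option autoImplicit false

namespace Pool.Agent.TH103.VD

open Function
open scoped commutatorElement

section FP

theorem fg_of_fp {G : Type} [Group G] (h : Group.IsFinitelyPresented G) : Group.FG G := by
  obtain ⟨n, φ, hφ, _⟩ := h.out
  exact Group.fg_of_surjective hφ

open Monoid.Coprod in
theorem fp_prod {G H : Type} [Group G] [Group H] (hG1 : Group.IsFinitelyPresented G)
    (hH1 : Group.IsFinitelyPresented H) : Group.IsFinitelyPresented (G × H) := by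
  obtain ⟨S, hS, hSf⟩ := Group.fg_iff.mp (fg_of_fp hG1)
  obtain ⟨U, hU, hUf⟩ := Group.fg_iff.mp (fg_of_fp hH1)
  let R : Set (Monoid.Coprod G H) := (fun p : G × H =>
    (inl p.1 : Monoid.Coprod G H) * inr p.2 * (inl p.1)⁻¹ * (inr p.2)⁻¹) '' (S ×ˢ U)
  let K := Subgroup.normalClosure R
  have hcomm : ∀ (g : G) (h : H),
      Commute ((QuotientGroup.mk' K).comp inl g) ((QuotientGroup.mk' K).comp inr h) := by
    have h0 : ∀ g ∈ S, ∀ h ∈ U,
        Commute ((QuotientGroup.mk' K).comp inl g) ((QuotientGroup.mk' K).comp inr h) := by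
      intro g hg h hh
      have h1 : QuotientGroup.mk' K ((inl g : Monoid.Coprod G H) * inr h * (inl g)⁻¹ *
          (inr h)⁻¹) = 1 :=
        (QuotientGroup.eq_one_iff _).mpr
          (Subgroup.subset_normalClosure ⟨(g, h), ⟨hg, hh⟩, rfl⟩)
      rw [map_mul, map_mul, map_mul, map_inv, map_inv, mul_inv_eq_one,
        mul_inv_eq_iff_eq_mul] at h1
      exact h1
    have h1 : ∀ g, ∀ h ∈ U,
        Commute ((QuotientGroup.mk' K).comp inl g) ((QuotientGroup.mk' K).comp inr h) := by
      intro g h hh
      have hg : g ∈ Subgroup.closure S := by rw [hS]; trivial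
      induction hg using Subgroup.closure_induction with
      | mem x hx => exact h0 x hx h hh
      | one => rw [map_one]; exact Commute.one_left _
      | mul x y _ _ hx hy => rw [map_mul]; exact hx.mul_left hy
      | inv x _ hx => rw [map_inv]; exact hx.inv_left
    intro g h
    have hh : h ∈ Subgroup.closure U := by rw [hU]; trivial
    induction hh using Subgroup.closure_induction with
    | mem x hx => exact h1 g x hx
    | one => rw [map_one]; exact Commute.one_right _
    | mul x y _ _ hx hy => rw [map_mul]; exact hx.mul_right hy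
    | inv x _ hx => rw [map_inv]; exact hx.inv_right
  let back : G × H →* Monoid.Coprod G H ⧸ K := MonoidHom.noncommCoprod
    ((QuotientGroup.mk' K).comp inl) ((QuotientGroup.mk' K).comp inr) hcomm
  have hback : back.comp toProd = QuotientGroup.mk' K := by
    apply Monoid.Coprod.hom_ext
    · ext g; simp [back]
    · ext h; simp [back]
  refine Group.IsFinitelyPresented.of_surjective (toProd : Monoid.Coprod G H →* G × H)
    toProd_surjective ⟨R, (hSf.prod hUf).image _, ?_⟩
  apply le_antisymm
  · apply Subgroup.normalClosure_le_normal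
    rintro _ ⟨⟨g, h⟩, _, rfl⟩
    change toProd _ = 1
    simp
  · intro x hx
    have h1 : back (toProd x) = 1 := by rw [MonoidHom.mem_ker.mp hx, map_one]
    rw [← MonoidHom.comp_apply, hback] at h1
    exact (QuotientGroup.eq_one_iff x).mp h1

theorem fp_pi_fin {K : Type} [Group K] (hK : Group.IsFinitelyPresented K) (n : ℕ) :
    Group.IsFinitelyPresented (Fin n → K) := by
  induction n with
  | zero => infer_instance
  | succ n ih =>
    let e : (Fin (n + 1) → K) ≃* K × (Fin n → K) :=
      { toFun := fun c => (c 0, Fin.tail c)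
        invFun := fun p => Fin.cons p.1 p.2
        left_inv := fun c => Fin.cons_self_tail c
        right_inv := fun p => by simp
        map_mul' := fun _ _ => rfl }
    have := fp_prod hK ih
    exact Group.IsFinitelyPresented.equiv e.symm

theorem fp_pi {K : Type} [Group K] (hK : Group.IsFinitelyPresented K) (ι : Type) [Finite ι] :
    Group.IsFinitelyPresented (ι → K) := by
  obtain ⟨n, ⟨e⟩⟩ := Finite.exists_equiv_fin ι
  have := fp_pi_fin hK n
  let e' : (Fin n → K) ≃* (ι → K) :=
    { toFun := fun c => c ∘ e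
      invFun := fun c => c ∘ e.symm
      left_inv := fun c => by funext i; simp
      right_inv := fun c => by funext i; simp
      map_mul' := fun _ _ => rfl }
  exact Group.IsFinitelyPresented.equiv e'

end FP

/-- the data of the group of windows -/
structure Data (K : Type) [Group K] (H : Type) [Group H] (t s f : H)
    (Φ : (V 4 → K) →* H) : Prop where
  fp : Group.IsFinitelyPresented H
  sys : Sys 2 t s f Φ
  univ : ∀ (H' : Type) [Group H'] (t' s' f' : H') (Φ' : (V 4 → K) →* H'), Sys 2 t' s' f' Φ' →
    ∃ Ψ : H →* H', Ψ t = t' ∧ Ψ s = s' ∧ Ψ f = f' ∧ Ψ.comp Φ = Φ'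
  gen : ∀ S : Subgroup H, t ∈ S → s ∈ S → f ∈ S → (∀ c, Φ c ∈ S) → ∀ x, x ∈ S

open Monoid.Coprod in
theorem exists_data (K : Type) [Group K] (hK : Group.IsFinitelyPresented K) :
    ∃ (H : Type) (_ : Group H) (t s f : H) (Φ : (V 4 → K) →* H), Data K H t s f Φ := by
  have h4 := fp_pi hK (V 4)
  obtain ⟨A3, hA3, hA3f⟩ := Group.fg_iff.mp (fg_of_fp (fp_pi hK (V 3)))
  obtain ⟨A2, hA2, hA2f⟩ := Group.fg_iff.mp (fg_of_fp (fp_pi hK (V 2)))
  let B := Monoid.Coprod (V 4 → K) (FreeGroup (Fin 3))
  let t0 : B := inr (FreeGroup.of 0)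
  let s0 : B := inr (FreeGroup.of 1)
  let f0 : B := inr (FreeGroup.of 2)
  let i0 : (V 4 → K) →* B := inl
  let RT : (V 3 → K) → B := fun c => i0 (c ∘ tai) * (t0 * i0 (c ∘ ini) * t0⁻¹)⁻¹
  let RS : (V 3 → K) → B := fun c => i0 (c ∘ D1) * (s0 * i0 (c ∘ ini) * s0⁻¹)⁻¹
  let RF : (V 2 → K) → B := fun c => i0 (c ∘ D2) * (f0 * i0 (c ∘ ini ∘ ini) * f0⁻¹)⁻¹
  let R : Set B := RT '' A3 ∪ RS '' A3 ∪ RF '' A2 ∪
    {t0 * s0 * (s0 * t0)⁻¹, t0 * f0 * (f0 * t0)⁻¹, s0 * f0 * (f0 * s0)⁻¹}
  have hRfin : R.Finite :=
    (((hA3f.image _).union (hA3f.image _)).union (hA2f.image _)).union (by simp)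
  let N := Subgroup.normalClosure R
  let p : B →* B ⧸ N := QuotientGroup.mk' N
  have hp : ∀ x y : B, x * y⁻¹ ∈ R → p x = p y := by
    intro x y h
    have : p (x * y⁻¹) = 1 := (QuotientGroup.eq_one_iff _).mpr (Subgroup.subset_normalClosure h)
    rwa [map_mul, map_inv, mul_inv_eq_one] at this
  refine ⟨B ⧸ N, inferInstance, p t0, p s0, p f0, p.comp i0, ?_, ?_, ?_, ?_⟩
  · exact Group.IsFinitelyPresented.quotient N ⟨R, hRfin, rfl⟩
  · refine ⟨?_, ?_, ?_, ?_, ?_, ?_⟩
    · have : (p.comp i0).comp (pull K tai) = cj (p t0) ((p.comp i0).comp (pull K ini)) := by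
        apply MonoidHom.eq_of_eqOn_dense hA3
        intro c hc
        exact hp _ _ (Or.inl (Or.inl (Or.inl ⟨c, hc, rfl⟩)))
      intro c
      exact DFunLike.congr_fun this c
    · have : (p.comp i0).comp (pull K D1) = cj (p s0) ((p.comp i0).comp (pull K ini)) := by
        apply MonoidHom.eq_of_eqOn_dense hA3
        intro c hc
        exact hp _ _ (Or.inl (Or.inl (Or.inr ⟨c, hc, rfl⟩)))
      intro c
      exact DFunLike.congr_fun this c
    · have : (p.comp i0).comp (pull K D2) = cj (p f0) ((p.comp i0).comp (pull K (ini ∘ ini))) := by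
        apply MonoidHom.eq_of_eqOn_dense hA2
        intro c hc
        exact hp _ _ (Or.inl (Or.inr ⟨c, hc, rfl⟩))
      intro c
      exact DFunLike.congr_fun this c
    · exact hp (t0 * s0) (s0 * t0) (Or.inr (by simp))
    · exact hp (t0 * f0) (f0 * t0) (Or.inr (by simp))
    · exact hp (s0 * f0) (f0 * s0) (Or.inr (by simp))
  · intro H' _ t' s' f' Φ' h
    let q : B →* H' := Monoid.Coprod.lift Φ' (FreeGroup.lift ![t', s', f'])
    have qt : q t0 = t' := (Monoid.Coprod.lift_apply_inr _ _ _).trans (by simp)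
    have qs : q s0 = s' := (Monoid.Coprod.lift_apply_inr _ _ _).trans (by simp)
    have qf : q f0 = f' := (Monoid.Coprod.lift_apply_inr _ _ _).trans (by simp)
    have qi : ∀ c, q (i0 c) = Φ' c := fun c => Monoid.Coprod.lift_apply_inl _ _ _
    have hm : ∀ x y : B, q (x * y) = q x * q y := fun x y => q.map_mul x y
    have hj : ∀ x y : B, q (x * y * x⁻¹) = q x * q y * (q x)⁻¹ := fun x y => by
      rw [hm, hm]
      exact congrArg _ (q.map_inv x)
    have hq : ∀ x y : B, q x = q y → q (x * y⁻¹) = 1 := fun x y h => by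
      rw [hm, h]
      have : q y⁻¹ = (q y)⁻¹ := q.map_inv y
      rw [this, mul_inv_cancel]
    have hN : N ≤ q.ker := by
      apply Subgroup.normalClosure_le_normal
      rintro x (((⟨c, _, rfl⟩ | ⟨c, _, rfl⟩) | ⟨c, _, rfl⟩) | hx)
      · apply hq
        rw [hj, qt, qi, qi]
        exact h.hT c
      · apply hq
        rw [hj, qs, qi, qi]
        exact h.hS c
      · apply hq
        rw [hj, qf, qi, qi]
        exact h.hF c
      · rcases hx with rfl | rfl | rfl
        · apply hq
          rw [hm, hm, qt, qs]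
          exact h.ts
        · apply hq
          rw [hm, hm, qt, qf]
          exact h.tf
        · apply hq
          rw [hm, hm, qs, qf]
          exact h.sf
    refine ⟨QuotientGroup.lift N q hN, qt, qs, qf, ?_⟩
    ext c
    exact qi c
  · intro S ht hs hf hc x
    obtain ⟨b, rfl⟩ := QuotientGroup.mk'_surjective N x
    have : (S.comap p) = ⊤ := by
      rw [eq_top_iff]
      have h1 : MonoidHom.range i0 ≤ S.comap p := by
        rintro _ ⟨c, rfl⟩
        exact hc c
      have h2 : MonoidHom.range (inr : FreeGroup (Fin 3) →* B) ≤ S.comap p := by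
        rintro _ ⟨w, rfl⟩
        induction w using FreeGroup.induction_on with
        | C1 => rw [map_one]; exact Subgroup.one_mem _
        | of i =>
          fin_cases i
          · exact ht
          · exact hs
          · exact hf
        | inv_of i hi => rw [map_inv]; exact Subgroup.inv_mem _ hi
        | mul x y hx hy => rw [map_mul]; exact Subgroup.mul_mem _ hx hy
      have h3 := sup_le h1 h2
      rwa [Monoid.Coprod.range_inl_sup_range_inr] at h3
    have hb : b ∈ S.comap p := by rw [this]; trivial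
    exact hb

end Pool.Agent.TH103.VD
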