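import Mathlib
import Pool.Agent.TH103.VD.Ghat

/-!
Structure of the group of windows.
-/

set_option autoImplicit false

namespace Pool.Agent.TH103.VD

open Function
open scoped commutatorElement

section

variable {K : Type} [Group K] {H : Type} [Group H] {t s f : H} {Φ : (V 4 → K) →* H}

/-- the sequence of extensions -/
noncomputable def seq (hK : Group.IsPerfect K) (hL : LP K) (h : Sys 2 t s f Φ) :
    (k : ℕ) → {Ψ : (V (k + 4) → K) →* H // Sys (k + 2) t s f Ψ}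
  | 0 => ⟨Φ, h⟩
  | k + 1 => ⟨((seq hK hL h k).2.extend hK hL).choose,
      ((seq hK hL h k).2.extend hK hL).choose_spec.2⟩

/-- the `k`-th window homomorphism -/
noncomputable def Ph (hK : Group.IsPerfect K) (hL : LP K) (h : Sys 2 t s f Φ) (k : ℕ) :
    (V (k + 4) → K) →* H := (seq hK hL h k).1

variable (hK : Group.IsPerfect K) (hL : LP K) (h : Sys 2 t s f Φ)

theorem Ph_zero : Ph hK hL h 0 = Φ := rfl

theorem Ph_sys (k : ℕ) : Sys (k + 2) t s f (Ph hK hL h k) := (seq hK hL h k).2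

theorem Ph_ini (k : ℕ) (c : V (k + 4) → K) : Ph hK hL h (k + 1) (c ∘ ini) = Ph hK hL h k c :=
  ((seq hK hL h k).2.extend hK hL).choose_spec.1 c

theorem Ph_t (k : ℕ) (c : V (k + 4) → K) :
    t * Ph hK hL h k c * t⁻¹ = Ph hK hL h (k + 1) (c ∘ tai) := by
  rw [(Ph_sys hK hL h (k + 1)).hT, Ph_ini]

theorem Ph_s (k : ℕ) (c : V (k + 4) → K) :
    s * Ph hK hL h k c * s⁻¹ = Ph hK hL h (k + 1) (c ∘ D1) := by
  rw [(Ph_sys hK hL h (k + 1)).hS, Ph_ini]

theorem Ph_f (k : ℕ) (c : V (k + 4) → K) :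
    f * Ph hK hL h k c * f⁻¹ = Ph hK hL h (k + 2) (c ∘ D2) := by
  rw [(Ph_sys hK hL h (k + 2)).hF]
  have e : Ph hK hL h (k + 2) (c ∘ ini ∘ ini) = Ph hK hL h k c := by
    have : c ∘ ini ∘ ini = (c ∘ ini) ∘ ini := rfl
    rw [this, Ph_ini, Ph_ini]
  rw [e]

/-- membership in the shifted images -/
def Mem (J M : ℕ) (g : H) : Prop :=
  ∃ c : V (M + 4) → K, g = ((t * s * f) ^ J)⁻¹ * Ph hK hL h M c * (t * s * f) ^ J

theorem Mem.one (J M : ℕ) : Mem hK hL h J M (1 : H) := ⟨1, by simp⟩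

theorem Mem.mul {J M : ℕ} {a b : H} (ha : Mem hK hL h J M a) (hb : Mem hK hL h J M b) :
    Mem hK hL h J M (a * b) := by
  obtain ⟨c, rfl⟩ := ha
  obtain ⟨d, rfl⟩ := hb
  exact ⟨c * d, by rw [map_mul]; group⟩

theorem Mem.inv {J M : ℕ} {a : H} (ha : Mem hK hL h J M a) : Mem hK hL h J M a⁻¹ := by
  obtain ⟨c, rfl⟩ := ha
  exact ⟨c⁻¹, by rw [map_inv]; group⟩

theorem Mem.succ {J M : ℕ} {a : H} (ha : Mem hK hL h J M a) : Mem hK hL h J (M + 1) a := by
  obtain ⟨c, rfl⟩ := ha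
  exact ⟨c ∘ ini, by rw [Ph_ini]⟩

theorem Mem.add {J M : ℕ} {a : H} (ha : Mem hK hL h J M a) (d : ℕ) :
    Mem hK hL h J (M + d) a := by
  induction d with
  | zero => exact ha
  | succ d ih => exact ih.succ

include h in
theorem tz : Commute t (t * s * f) :=
  ((Commute.refl t).mul_right h.ts).mul_right h.tf

include h in
theorem sz : Commute s (t * s * f) :=
  ((h.ts.symm).mul_right (Commute.refl s)).mul_right h.sf

include h in
theorem fz : Commute f (t * s * f) :=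
  ((h.tf.symm).mul_right h.sf.symm).mul_right (Commute.refl f)

theorem conj_inv_comm {t s : H} (h : Commute t s) (x : H) (n : ℕ) :
    t * ((s ^ n)⁻¹ * x * s ^ n) * t⁻¹ = (s ^ n)⁻¹ * (t * x * t⁻¹) * s ^ n := by
  have h1 : Commute t (s ^ n) := h.pow_right n
  have h2 : t * (s ^ n)⁻¹ = (s ^ n)⁻¹ * t := h1.inv_right.eq
  have h3 : s ^ n * t⁻¹ = t⁻¹ * s ^ n := h1.inv_left.symm.eq
  calc t * ((s ^ n)⁻¹ * x * s ^ n) * t⁻¹ = (t * (s ^ n)⁻¹) * x * (s ^ n * t⁻¹) := by group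
    _ = ((s ^ n)⁻¹ * t) * x * (t⁻¹ * s ^ n) := by rw [h2, h3]
    _ = _ := by group

theorem Mem.conj_t {J M : ℕ} {a : H} (ha : Mem hK hL h J M a) :
    Mem hK hL h J (M + 1) (t * a * t⁻¹) := by
  obtain ⟨c, rfl⟩ := ha
  exact ⟨c ∘ tai, by rw [conj_inv_comm (tz h), Ph_t]⟩

theorem Mem.conj_s {J M : ℕ} {a : H} (ha : Mem hK hL h J M a) :
    Mem hK hL h J (M + 1) (s * a * s⁻¹) := by
  obtain ⟨c, rfl⟩ := ha
  exact ⟨c ∘ D1, by rw [conj_inv_comm (sz h), Ph_s]⟩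

theorem Mem.conj_f {J M : ℕ} {a : H} (ha : Mem hK hL h J M a) :
    Mem hK hL h J (M + 2) (f * a * f⁻¹) := by
  obtain ⟨c, rfl⟩ := ha
  exact ⟨c ∘ D2, by rw [conj_inv_comm (fz h), Ph_f]⟩

theorem Mem.conj_z {J M : ℕ} {a : H} (ha : Mem hK hL h J M a) :
    Mem hK hL h J (M + 4) ((t * s * f) * a * (t * s * f)⁻¹) := by
  have := (((ha.conj_f hK hL h).conj_s hK hL h).conj_t hK hL h)
  have e : (t * s * f) * a * (t * s * f)⁻¹ = t * (s * (f * a * f⁻¹) * s⁻¹) * t⁻¹ := by group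
  rw [e]
  exact this

theorem Mem.conj_zinv {J M : ℕ} {a : H} (ha : Mem hK hL h J M a) :
    Mem hK hL h (J + 1) M ((t * s * f)⁻¹ * a * (t * s * f)) := by
  obtain ⟨c, rfl⟩ := ha
  refine ⟨c, ?_⟩
  rw [pow_succ]
  group

theorem Mem.up {J M : ℕ} {a : H} (ha : Mem hK hL h J M a) : Mem hK hL h (J + 1) (M + 4) a := by
  have := (ha.conj_z hK hL h).conj_zinv hK hL h
  have e : (t * s * f)⁻¹ * (t * s * f * a * (t * s * f)⁻¹) * (t * s * f) = a := by group
  rwa [e] at this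

theorem Mem.ups {J M : ℕ} {a : H} (ha : Mem hK hL h J M a) (d : ℕ) :
    Mem hK hL h (J + d) (M + 4 * d) a := by
  induction d with
  | zero => exact ha
  | succ d ih => exact ih.up

theorem Mem.cast {J M M' : ℕ} {a : H} (ha : Mem hK hL h J M a) (hM : M ≤ M') :
    Mem hK hL h J M' a := by
  obtain ⟨d, rfl⟩ := Nat.exists_eq_add_of_le hM
  exact ha.add hK hL h d

theorem Mem.diag {J M : ℕ} {a : H} (ha : Mem hK hL h J M a) :
    Mem hK hL h (J + M) (5 * (J + M)) a :=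
  (ha.ups hK hL h M).cast hK hL h (by omega)

theorem Mem.diag_mono {n m : ℕ} (hnm : n ≤ m) {a : H} (ha : Mem hK hL h n (5 * n) a) :
    Mem hK hL h m (5 * m) a := by
  obtain ⟨d, rfl⟩ := Nat.exists_eq_add_of_le hnm
  exact (ha.ups hK hL h d).cast hK hL h (by omega)

/-- the union of the shifted images -/
def Nn : Subgroup H where
  carrier := {g | ∃ n, Mem hK hL h n (5 * n) g}
  one_mem' := ⟨0, Mem.one hK hL h _ _⟩
  mul_mem' := by
    rintro a b ⟨n, ha⟩ ⟨m, hb⟩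
    exact ⟨max n m, (ha.diag_mono hK hL h (le_max_left _ _)).mul hK hL h
      (hb.diag_mono hK hL h (le_max_right _ _))⟩
  inv_mem' := by
    rintro a ⟨n, ha⟩
    exact ⟨n, ha.inv hK hL h⟩

theorem Mem.mem {J M : ℕ} {a : H} (ha : Mem hK hL h J M a) : a ∈ Nn hK hL h :=
  ⟨_, ha.diag hK hL h⟩

theorem Nn_conj_t {a : H} (ha : a ∈ Nn hK hL h) : t * a * t⁻¹ ∈ Nn hK hL h := by
  obtain ⟨n, ha⟩ := ha
  exact (ha.conj_t hK hL h).mem hK hL h

theorem Nn_conj_s {a : H} (ha : a ∈ Nn hK hL h) : s * a * s⁻¹ ∈ Nn hK hL h := by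
  obtain ⟨n, ha⟩ := ha
  exact (ha.conj_s hK hL h).mem hK hL h

theorem Nn_conj_f {a : H} (ha : a ∈ Nn hK hL h) : f * a * f⁻¹ ∈ Nn hK hL h := by
  obtain ⟨n, ha⟩ := ha
  exact (ha.conj_f hK hL h).mem hK hL h

theorem Nn_conj_zinv {a : H} (ha : a ∈ Nn hK hL h) :
    (t * s * f)⁻¹ * a * (t * s * f) ∈ Nn hK hL h := by
  obtain ⟨n, ha⟩ := ha
  exact (ha.conj_zinv hK hL h).mem hK hL h

theorem Nn_conj_tinv {a : H} (ha : a ∈ Nn hK hL h) : t⁻¹ * a * t ∈ Nn hK hL h := by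
  have h1 := Nn_conj_zinv hK hL h (Nn_conj_s hK hL h (Nn_conj_f hK hL h ha))
  have e : (t * s * f)⁻¹ * (s * (f * a * f⁻¹) * s⁻¹) * (t * s * f) = t⁻¹ * a * t := by
    have e1 : (t * s * f)⁻¹ * (s * f) = t⁻¹ := by
      have : t * s * f = (s * f) * t := by
        rw [mul_assoc, (h.ts.mul_right h.tf).eq]
      rw [this]; group
    have e2 : f⁻¹ * s⁻¹ * (t * s * f) = t := by
      have : t * s * f = (s * f) * t := by
        rw [mul_assoc, (h.ts.mul_right h.tf).eq]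
      rw [this]; group
    calc (t * s * f)⁻¹ * (s * (f * a * f⁻¹) * s⁻¹) * (t * s * f) =
        ((t * s * f)⁻¹ * (s * f)) * a * (f⁻¹ * s⁻¹ * (t * s * f)) := by group
      _ = _ := by rw [e1, e2]
  rwa [e] at h1

theorem Nn_conj_sinv {a : H} (ha : a ∈ Nn hK hL h) : s⁻¹ * a * s ∈ Nn hK hL h := by
  have h1 := Nn_conj_zinv hK hL h (Nn_conj_t hK hL h (Nn_conj_f hK hL h ha))
  have e : (t * s * f)⁻¹ * (t * (f * a * f⁻¹) * t⁻¹) * (t * s * f) = s⁻¹ * a * s := by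
    have e0 : t * s * f = (t * f) * s := by
      rw [mul_assoc, h.sf.eq, mul_assoc]
    rw [e0]
    group
  rwa [e] at h1

theorem Nn_conj_finv {a : H} (ha : a ∈ Nn hK hL h) : f⁻¹ * a * f ∈ Nn hK hL h := by
  have h1 := Nn_conj_zinv hK hL h (Nn_conj_t hK hL h (Nn_conj_s hK hL h ha))
  have e : (t * s * f)⁻¹ * (t * (s * a * s⁻¹) * t⁻¹) * (t * s * f) = f⁻¹ * a * f := by
    group
  rwa [e] at h1

end

section

variable {K : Type} [Group K] {H : Type} [Group H] {t s f : H} {Φ : (V 4 → K) →* H}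

/-- the free abelian group of rank three -/
abbrev Z3 := Multiplicative ℤ × Multiplicative ℤ × Multiplicative ℤ

theorem Nn_normal (hK : Group.IsPerfect K) (hL : LP K) (D : Data K H t s f Φ) :
    (Nn hK hL D.sys).Normal := by
  rw [← Subgroup.normalizer_eq_top_iff, eq_top_iff]
  intro x _
  refine D.gen _ ?_ ?_ ?_ ?_ x
  · rw [Subgroup.mem_normalizer_iff]
    intro a
    refine ⟨Nn_conj_t hK hL D.sys, fun ha => ?_⟩
    have := Nn_conj_tinv hK hL D.sys ha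
    have e : t⁻¹ * (t * a * t⁻¹) * t = a := by group
    rwa [e] at this
  · rw [Subgroup.mem_normalizer_iff]
    intro a
    refine ⟨Nn_conj_s hK hL D.sys, fun ha => ?_⟩
    have := Nn_conj_sinv hK hL D.sys ha
    have e : s⁻¹ * (s * a * s⁻¹) * s = a := by group
    rwa [e] at this
  · rw [Subgroup.mem_normalizer_iff]
    intro a
    refine ⟨Nn_conj_f hK hL D.sys, fun ha => ?_⟩
    have := Nn_conj_finv hK hL D.sys ha
    have e : f⁻¹ * (f * a * f⁻¹) * f = a := by group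
    rwa [e] at this
  · intro c
    apply Subgroup.le_normalizer
    exact (show Mem hK hL D.sys 0 0 (Φ c) from ⟨c, by simp [Ph_zero]⟩).mem hK hL D.sys

/-- the structure theorem -/
theorem exists_pi (hK : Group.IsPerfect K) (hL : LP K) (D : Data K H t s f Φ) :
    ∃ π : H →* Z3, ∀ x, π x = 1 → x ∈ Nn hK hL D.sys := by
  obtain ⟨π, pt, ps, pf, pΦ⟩ := D.univ Z3 (Multiplicative.ofAdd 1, 1, 1)
    (1, Multiplicative.ofAdd 1, 1) (1, 1, Multiplicative.ofAdd 1) 1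
    ⟨by intro c; simp; rfl, by intro c; simp; rfl, by intro c; simp; rfl, Commute.all _ _,
      Commute.all _ _, Commute.all _ _⟩
  refine ⟨π, ?_⟩
  have hN := Nn_normal hK hL D
  let ζ : Z3 →* H := MonoidHom.noncommCoprod (zpowersHom H t)
    (MonoidHom.noncommCoprod (zpowersHom H s) (zpowersHom H f)
      (by intro a b; simp only [zpowersHom_apply]; exact D.sys.sf.zpow_zpow _ _))
    (by
      intro a b
      simp only [MonoidHom.noncommCoprod_apply, zpowersHom_apply]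
      exact (D.sys.ts.zpow_zpow _ _).mul_right (D.sys.tf.zpow_zpow _ _))
  have hζ : ∀ v : Z3, ζ v = t ^ (v.1.toAdd) * (s ^ (v.2.1.toAdd) * f ^ (v.2.2.toAdd)) := by
    intro v
    simp [ζ, zpowersHom_apply]
  have hπζ : ∀ v, π (ζ v) = v := by
    intro v
    rw [hζ]
    simp only [map_mul, map_zpow, pt, ps, pf]
    apply Prod.ext
    · simp [← ofAdd_zsmul]
    · apply Prod.ext
      · simp [← ofAdd_zsmul]
      · simp [← ofAdd_zsmul]
  have hπN : ∀ x ∈ Nn hK hL D.sys, π x = 1 := by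
    rintro x ⟨n, c, rfl⟩
    have h1 : π (Ph hK hL D.sys (5 * n) c) = 1 := by
      have h2 : (π.comp (Ph hK hL D.sys (5 * n))) c = 1 :=
        hom_trivial (pi_perfect hK) _ (fun x y => Commute.all _ _) c
      exact h2
    rw [map_mul, map_mul, h1, map_inv]
    simp
  intro x hx
  have hmem : x ∈ Nn hK hL D.sys ⊔ ζ.range := by
    refine D.gen _ ?_ ?_ ?_ ?_ x
    · apply Subgroup.mem_sup_right
      exact ⟨(Multiplicative.ofAdd 1, 1, 1), by rw [hζ]; simp⟩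
    · apply Subgroup.mem_sup_right
      exact ⟨(1, Multiplicative.ofAdd 1, 1), by rw [hζ]; simp⟩
    · apply Subgroup.mem_sup_right
      exact ⟨(1, 1, Multiplicative.ofAdd 1), by rw [hζ]; simp⟩
    · intro c
      apply Subgroup.mem_sup_left
      exact (show Mem hK hL D.sys 0 0 (Φ c) from ⟨c, by simp [Ph_zero]⟩).mem hK hL D.sys
  rw [Subgroup.mem_sup_of_normal_left] at hmem
  obtain ⟨n, hn, _, ⟨v, rfl⟩, rfl⟩ := hmem
  rw [map_mul, hπN n hn, one_mul, hπζ] at hx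
  rw [hx, map_one, mul_one]
  exact hn

end

end Pool.Agent.TH103.VD
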