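import Mathlib
import Pool.Agent.TH103.VD.Struct

/-!
Finite models.
-/

set_option autoImplicit false

namespace Pool.Agent.TH103.VD

open Function Polynomial

section ring

variable (A : Type) [CommRing A] [Algebra (ZMod 2) A]

/-- the dual space as a set of sequences -/
abbrev Du := A →ₗ[ZMod 2] ZMod 2

variable {A}

/-- multiplication by a unit, on functionals -/
def mulp (u : Aˣ) : Equiv.Perm (Du A) where
  toFun l := l.comp (LinearMap.mulLeft (ZMod 2) (u : A))
  invFun l := l.comp (LinearMap.mulLeft (ZMod 2) ((u⁻¹ : Aˣ) : A))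
  left_inv l := by
    ext a
    simp
  right_inv l := by
    ext a
    simp

theorem mulp_apply (u : Aˣ) (l : Du A) (a : A) : mulp u l a = l (u * a) := rfl

theorem mulp_comm (u v : Aˣ) : Commute (mulp u) (mulp v) := by
  apply Equiv.ext
  intro l
  apply LinearMap.ext
  intro a
  change l (v * (u * a)) = l (u * (v * a))
  congr 1
  ring

/-- the windows of a functional -/
def win (θ : A) (n : ℕ) (l : Du A) : V n := fun i => l (θ ^ (i : ℕ))

theorem win_ini (θ : A) (n : ℕ) (l : Du A) : ini (win θ (n + 1) l) = win θ n l := rfl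

theorem win_tai (u : Aˣ) (n : ℕ) (l : Du A) :
    tai (win (u : A) (n + 1) l) = win (u : A) n (mulp u l) := by
  funext i
  change l ((u : A) ^ (i.succ : ℕ)) = l (u * (u : A) ^ (i : ℕ))
  rw [Fin.val_succ, pow_succ']

theorem win_D1 (θ : A) (u : Aˣ) (hu : (u : A) = 1 + θ) (n : ℕ) (l : Du A) :
    D1 (win θ (n + 1) l) = win θ n (mulp u l) := by
  funext i
  change l (θ ^ (i.castSucc : ℕ)) + l (θ ^ (i.succ : ℕ)) = l (u * θ ^ (i : ℕ))
  rw [← map_add, hu, Fin.val_succ, Fin.val_castSucc, pow_succ']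
  congr 1
  ring

theorem win_D2 (θ : A) (u : Aˣ) (hu : (u : A) = 1 + θ + θ ^ 2) (n : ℕ) (l : Du A) :
    D2 (win θ (n + 2) l) = win θ n (mulp u l) := by
  funext i
  change l (θ ^ (i.castSucc.castSucc : ℕ)) + l (θ ^ (i.succ.castSucc : ℕ)) +
    l (θ ^ (i.succ.succ : ℕ)) = l (u * θ ^ (i : ℕ))
  rw [← map_add, ← map_add, hu]
  simp only [Fin.val_succ, Fin.val_castSucc]
  congr 1
  ring

end ring

/-- the finite systems of windows -/
theorem exists_model (n : ℕ) : ∃ (X : Type) (_ : Finite X) (τt τs τf : Equiv.Perm X)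
    (w : ∀ m : ℕ, X → V m), Commute τt τs ∧ Commute τt τf ∧ Commute τs τf ∧
    (∀ m x, ini (w (m + 1) x) = w m x) ∧ (∀ m x, tai (w (m + 1) x) = w m (τt x)) ∧
    (∀ m x, D1 (w (m + 1) x) = w m (τs x)) ∧ (∀ m x, D2 (w (m + 2) x) = w m (τf x)) ∧
    Function.Surjective (w n) := by
  let z : (ZMod 2)[X] := X * ((1 + X) * (1 + X + X ^ 2))
  have hzm : z.Monic := by
    have h1 : (1 + X : (ZMod 2)[X]).Monic := by
      rw [add_comm]; exact monic_X_add_C 1
    have h2 : (1 + X + X ^ 2 : (ZMod 2)[X]).Monic := by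
      monicity!
    exact monic_X.mul (h1.mul h2)
  have hzd : z.natDegree ≠ 0 := by
    have h1 : (1 + X : (ZMod 2)[X]).Monic := by
      rw [add_comm]; exact monic_X_add_C 1
    have h2 : (1 + X + X ^ 2 : (ZMod 2)[X]).Monic := by
      monicity!
    have := monic_X.natDegree_mul (h1.mul h2)
    rw [this, natDegree_X]
    omega
  let p : (ZMod 2)[X] := z ^ (n + 1) + 1
  have hzp : (z ^ (n + 1)).Monic := hzm.pow _
  have hzpd : (z ^ (n + 1)).natDegree = (n + 1) * z.natDegree := hzm.natDegree_pow _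
  have hpos : 0 < (z ^ (n + 1)).natDegree := by
    rw [hzpd]
    exact Nat.mul_pos (Nat.succ_pos _) (Nat.pos_of_ne_zero hzd)
  have hlt : (1 : (ZMod 2)[X]).degree < (z ^ (n + 1)).degree := by
    rw [degree_one, degree_eq_natDegree hzp.ne_zero]
    exact_mod_cast hpos
  have hp : p.Monic := hzp.add_of_left hlt
  have hpd : p.natDegree = (n + 1) * z.natDegree := by
    rw [← hzpd]
    exact natDegree_add_eq_left_of_degree_lt hlt
  let A := AdjoinRoot p
  let θ : A := AdjoinRoot.root p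
  have hroot : (θ * ((1 + θ) * (1 + θ + θ ^ 2))) ^ (n + 1) + 1 = 0 := by
    have h0 : AdjoinRoot.mk p (z ^ (n + 1) + 1) = 0 := AdjoinRoot.mk_self
    rw [map_add, map_pow, map_one] at h0
    have hz : AdjoinRoot.mk p z = θ * ((1 + θ) * (1 + θ + θ ^ 2)) := by
      change AdjoinRoot.mk p (X * ((1 + X) * (1 + X + X ^ 2))) = _
      rw [map_mul, map_mul, map_add, map_add, map_add, map_pow, map_one, AdjoinRoot.mk_X]
    rw [hz] at h0
    exact h0
  have h2 : (1 : A) + 1 = 0 := by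
    have : (algebraMap (ZMod 2) A) (1 + 1) = 0 := by
      rw [show (1 + 1 : ZMod 2) = 0 by decide, map_zero]
    simpa using this
  have hunit : IsUnit (θ * ((1 + θ) * (1 + θ + θ ^ 2))) := by
    have h3 : (θ * ((1 + θ) * (1 + θ + θ ^ 2))) ^ (n + 1) = 1 := by
      have : (θ * ((1 + θ) * (1 + θ + θ ^ 2))) ^ (n + 1) =
        ((θ * ((1 + θ) * (1 + θ + θ ^ 2))) ^ (n + 1) + 1) + 1 - (1 + 1) := by ring
      rw [this, hroot, h2]
      ring
    exact IsUnit.of_pow_eq_one h3 (Nat.succ_ne_zero n)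
  obtain ⟨hu1, hu23⟩ := IsUnit.mul_iff.mp hunit
  obtain ⟨hu2, hu3⟩ := IsUnit.mul_iff.mp hu23
  obtain ⟨u1, e1⟩ := hu1
  obtain ⟨u2, e2⟩ := hu2
  obtain ⟨u3, e3⟩ := hu3
  let pb : PowerBasis (ZMod 2) A := AdjoinRoot.powerBasis' hp
  have hgen : pb.gen = θ := rfl
  have hdim : pb.dim = (n + 1) * z.natDegree := hpd
  have : Module.Finite (ZMod 2) A := pb.finite
  have : Finite A := Module.finite_of_finite (ZMod 2)
  have : Finite (Du A) := Finite.of_injective (fun l : Du A => (l : A → ZMod 2))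
    DFunLike.coe_injective
  have hnd : n ≤ pb.dim := by
    rw [hdim]
    have : 1 ≤ z.natDegree := Nat.one_le_iff_ne_zero.mpr hzd
    nlinarith
  refine ⟨Du A, inferInstance, mulp u1, mulp u2, mulp u3, win θ, mulp_comm _ _, mulp_comm _ _,
    mulp_comm _ _, win_ini θ, ?_, ?_, ?_, ?_⟩
  · intro m x
    rw [← e1]
    exact win_tai u1 m x
  · intro m x
    exact win_D1 θ u2 e2 m x
  · intro m x
    exact win_D2 θ u3 e3 m x
  · intro v
    refine ⟨pb.basis.constr (ZMod 2) (fun i : Fin pb.dim =>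
      if hi : (i : ℕ) < n then v ⟨i, hi⟩ else 0), ?_⟩
    funext i
    have hi : (i : ℕ) < pb.dim := lt_of_lt_of_le i.2 hnd
    have e : θ ^ (i : ℕ) = pb.basis ⟨i, hi⟩ := by
      rw [pb.basis_eq_pow, hgen]
    change (pb.basis.constr (ZMod 2) (fun i : Fin pb.dim =>
      if hi : (i : ℕ) < n then v ⟨i, hi⟩ else 0)) (θ ^ (i : ℕ)) = v i
    rw [e, Module.Basis.constr_basis, dif_pos i.2]

end Pool.Agent.TH103.VD
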