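import Mathlib
import Pool.Agent.TH103.VD.Model

/-!
Reduction of the main theorem to the construction of the group `K`.
-/

set_option autoImplicit false

namespace Pool.Agent.TH103.VD

open Function

/-- residual finiteness -/
def RF (G : Type) [Group G] : Prop :=
  ∀ g : G, g ≠ 1 → ∃ (Q : Type) (_ : Group Q) (_ : Finite Q) (q : G →* Q), q g ≠ 1

section wreath

variable {X Q : Type} [Group Q]

/-- functions acting fibrewise -/
def Pw (X Q : Type) [Group Q] : (X → Q) →* Equiv.Perm (X × Q) where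
  toFun c :=
    { toFun := fun p => (p.1, c p.1 * p.2)
      invFun := fun p => (p.1, (c p.1)⁻¹ * p.2)
      left_inv := fun p => by simp
      right_inv := fun p => by simp }
  map_one' := by
    apply Equiv.ext
    intro p
    simp
  map_mul' a b := by
    apply Equiv.ext
    intro p
    simp [mul_assoc]

theorem Pw_apply (c : X → Q) (p : X × Q) : Pw X Q c p = (p.1, c p.1 * p.2) := rfl

/-- permutations of the base -/
def Sw (Q : Type) (σ : Equiv.Perm X) : Equiv.Perm (X × Q) := Equiv.prodCongr σ (Equiv.refl Q)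

theorem Sw_apply (σ : Equiv.Perm X) (p : X × Q) : Sw Q σ p = (σ p.1, p.2) := rfl

theorem Sw_conj (σ : Equiv.Perm X) (c : X → Q) :
    (Sw Q σ)⁻¹ * Pw X Q c * ((Sw Q σ)⁻¹)⁻¹ = Pw X Q (c ∘ σ) := by
  rw [inv_inv, mul_assoc, inv_mul_eq_iff_eq_mul]
  apply Equiv.ext
  intro p
  simp [Sw_apply, Pw_apply]

theorem Sw_comm {σ τ : Equiv.Perm X} (h : Commute σ τ) :
    Commute (Sw Q σ)⁻¹ (Sw Q τ)⁻¹ := by
  apply Commute.inv_inv
  apply Equiv.ext
  intro p
  have := Equiv.congr_fun h.eq p.1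
  simp only [Equiv.Perm.mul_apply, Sw_apply] at this ⊢
  rw [this]

theorem Pw_inj {c : X → Q} (h : Pw X Q c = 1) : c = 1 := by
  funext x
  have := Equiv.congr_fun h (x, 1)
  simp only [Pw_apply, Equiv.Perm.one_apply, Prod.mk.injEq, mul_one, true_and] at this
  exact this

end wreath

section

variable {K : Type} [Group K] {H : Type} [Group H] {t s f : H} {Φ : (V 4 → K) →* H}

/-- the model homomorphism on windows of length `m` -/
def Mo {X Q : Type} [Group Q] (q : K →* Q) (w : ∀ m : ℕ, X → V m) (m : ℕ) :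
    (V m → K) →* Equiv.Perm (X × Q) :=
  (Pw X Q).comp
    { toFun := fun c x => q (c (w m x))
      map_one' := by funext x; simp
      map_mul' := fun a b => by funext x; simp }

theorem Mo_apply {X Q : Type} [Group Q] (q : K →* Q) (w : ∀ m : ℕ, X → V m) (m : ℕ)
    (c : V m → K) : Mo q w m c = Pw X Q (fun x => q (c (w m x))) := rfl

theorem model_sys {X Q : Type} [Group Q] (q : K →* Q) (w : ∀ m : ℕ, X → V m)
    (τt τs τf : Equiv.Perm X) (hts : Commute τt τs) (htf : Commute τt τf) (hsf : Commute τs τf)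
    (h0 : ∀ m x, ini (w (m + 1) x) = w m x) (h1 : ∀ m x, tai (w (m + 1) x) = w m (τt x))
    (h2 : ∀ m x, D1 (w (m + 1) x) = w m (τs x)) (h3 : ∀ m x, D2 (w (m + 2) x) = w m (τf x))
    (m : ℕ) : Sys m (Sw Q τt)⁻¹ (Sw Q τs)⁻¹ (Sw Q τf)⁻¹ (Mo q w (m + 2)) := by
  refine ⟨?_, ?_, ?_, Sw_comm hts, Sw_comm htf, Sw_comm hsf⟩
  · intro c
    rw [Mo_apply, Mo_apply, Sw_conj]
    congr 1
    funext x
    simp only [comp_apply]
    rw [h1, h0]
  · intro c
    rw [Mo_apply, Mo_apply, Sw_conj]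
    congr 1
    funext x
    simp only [comp_apply]
    rw [h2, h0]
  · intro c
    rw [Mo_apply, Mo_apply, Sw_conj]
    congr 1
    funext x
    simp only [comp_apply]
    rw [h3, h0, h0]

theorem faithful (hK : Group.IsPerfect K) (hL : LP K) (hR : RF K) (D : Data K H t s f Φ) (k : ℕ)
    (c : V (k + 4) → K) (hc : c ≠ 1) :
    ∃ (Q : Type) (_ : Group Q) (_ : Finite Q) (Ψ : H →* Q), Ψ (Ph hK hL D.sys k c) ≠ 1 := by
  obtain ⟨v, hv⟩ : ∃ v, c v ≠ 1 := by
    by_contra hcon
    push Not at hcon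
    exact hc (funext hcon)
  obtain ⟨Q, _, _, q, hq⟩ := hR _ hv
  obtain ⟨X, _, τt, τs, τf, w, hts, htf, hsf, h0, h1, h2, h3, hsurj⟩ := exists_model (k + 4)
  have hsys := fun m => model_sys q w τt τs τf hts htf hsf h0 h1 h2 h3 m
  obtain ⟨Ψ, et, es, ef, eΦ⟩ := D.univ (Equiv.Perm (X × Q)) _ _ _ _ (hsys 2)
  have key : ∀ k, Ψ.comp (Ph hK hL D.sys k) = Mo q w (k + 4) := by
    intro k
    induction k with
    | zero => exact eΦ
    | succ k ih =>
      apply word_ext hK
      · intro c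
        rw [MonoidHom.comp_apply, Ph_ini]
        have := DFunLike.congr_fun ih c
        rw [MonoidHom.comp_apply] at this
        rw [this, Mo_apply, Mo_apply]
        congr 1
        funext x
        simp only [comp_apply]
        rw [h0]
      · intro c
        rw [MonoidHom.comp_apply, ← Ph_t, map_mul, map_mul, map_inv, et]
        have := DFunLike.congr_fun ih c
        rw [MonoidHom.comp_apply] at this
        rw [this, Mo_apply, Mo_apply, Sw_conj]
        congr 1
        funext x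
        simp only [comp_apply]
        rw [h1]
  refine ⟨Equiv.Perm (X × Q), inferInstance, inferInstance, Ψ, ?_⟩
  intro hcon
  have := DFunLike.congr_fun (key k) c
  rw [MonoidHom.comp_apply, hcon, Mo_apply] at this
  have h5 := Pw_inj this.symm
  obtain ⟨x, hx⟩ := hsurj v
  have h6 := congrFun h5 x
  simp only [hx, Pi.one_apply] at h6
  exact hq h6

theorem Ph_inj (hK : Group.IsPerfect K) (hL : LP K) (hR : RF K) (D : Data K H t s f Φ) (k : ℕ) :
    Function.Injective (Ph hK hL D.sys k) := by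
  rw [injective_iff_map_eq_one]
  intro c hc
  by_contra hne
  obtain ⟨Q, _, _, Ψ, hΨ⟩ := faithful hK hL hR D k c hne
  exact hΨ (by rw [hc, map_one])

theorem int_rf (v : Multiplicative ℤ) (hv : v ≠ 1) :
    ∃ (Q : Type) (_ : Group Q) (_ : Finite Q) (q : Multiplicative ℤ →* Q), q v ≠ 1 := by
  let n : ℕ := (Multiplicative.toAdd v).natAbs + 1
  have : NeZero n := ⟨Nat.succ_ne_zero _⟩
  refine ⟨Multiplicative (ZMod n), inferInstance, inferInstance,
    AddMonoidHom.toMultiplicative (Int.castAddHom (ZMod n)), ?_⟩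
  intro h
  have h1 : ((Multiplicative.toAdd v : ℤ) : ZMod n) = 0 := h
  rw [ZMod.intCast_zmod_eq_zero_iff_dvd] at h1
  have h2 : Multiplicative.toAdd v = 0 := by
    by_contra hne
    have h3 := Int.le_of_dvd (abs_pos.mpr hne) ((dvd_abs _ _).mpr h1)
    have h4 : (n : ℤ) = |Multiplicative.toAdd v| + 1 := by
      simp [n]
    omega
  exact hv h2

theorem Z3_rf (v : Z3) (hv : v ≠ 1) :
    ∃ (Q : Type) (_ : Group Q) (_ : Finite Q) (q : Z3 →* Q), q v ≠ 1 := by
  by_cases h1 : v.1 = 1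
  · by_cases h2 : v.2.1 = 1
    · have h3 : v.2.2 ≠ 1 := by
        intro h3
        exact hv (Prod.ext h1 (Prod.ext h2 h3))
      obtain ⟨Q, i1, i2, q, hq⟩ := int_rf _ h3
      exact ⟨Q, i1, i2, q.comp ((MonoidHom.snd _ _).comp (MonoidHom.snd _ _)), hq⟩
    · obtain ⟨Q, i1, i2, q, hq⟩ := int_rf _ h2
      exact ⟨Q, i1, i2, q.comp ((MonoidHom.fst _ _).comp (MonoidHom.snd _ _)), hq⟩
  · obtain ⟨Q, i1, i2, q, hq⟩ := int_rf _ h1
    exact ⟨Q, i1, i2, q.comp (MonoidHom.fst _ _), hq⟩

theorem Z3_tf (v : Z3) (n : ℕ) (hn : n ≠ 0) (h : v ^ n = 1) : v = 1 := by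
  have key : ∀ a : Multiplicative ℤ, a ^ n = 1 → a = 1 := by
    intro a ha
    have h1 : n • Multiplicative.toAdd a = 0 := ha
    have h2 : Multiplicative.toAdd a = 0 := by
      rw [nsmul_eq_mul] at h1
      rcases mul_eq_zero.mp h1 with h | h
      · exact absurd (by exact_mod_cast h) hn
      · exact h
    exact h2
  have e1 : v.1 ^ n = 1 := congrArg Prod.fst h
  have e2 : v.2.1 ^ n = 1 := congrArg (fun p : Z3 => p.2.1) h
  have e3 : v.2.2 ^ n = 1 := congrArg (fun p : Z3 => p.2.2) h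
  exact Prod.ext (key _ e1) (Prod.ext (key _ e2) (key _ e3))

theorem H_rf (hK : Group.IsPerfect K) (hL : LP K) (hR : RF K) (D : Data K H t s f Φ) : RF H := by
  intro x hx
  obtain ⟨π, hπ⟩ := exists_pi hK hL D
  by_cases h : π x = 1
  · obtain ⟨n, c, hc⟩ := hπ x h
    have hc1 : c ≠ 1 := by
      rintro rfl
      apply hx
      rw [hc]
      simp
    obtain ⟨Q, i1, i2, Ψ, hΨ⟩ := faithful hK hL hR D _ c hc1
    refine ⟨Q, i1, i2, Ψ, ?_⟩
    intro h1
    apply hΨ
    have : Ph hK hL D.sys (5 * n) c = ((t * s * f) ^ n) * x * ((t * s * f) ^ n)⁻¹ := by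
      rw [hc]; group
    rw [this, map_mul, map_mul, h1, mul_one, ← map_mul, mul_inv_cancel, map_one]
  · obtain ⟨Q, i1, i2, q, hq⟩ := Z3_rf _ h
    exact ⟨Q, i1, i2, q.comp π, hq⟩

theorem H_tf (hK : Group.IsPerfect K) (hL : LP K) (hR : RF K) (D : Data K H t s f Φ)
    (hT : ∀ (k : K) (n : ℕ), n ≠ 0 → k ^ n = 1 → k = 1) (x : H) (m : ℕ) (hm : m ≠ 0)
    (hx : x ^ m = 1) : x = 1 := by
  obtain ⟨π, hπ⟩ := exists_pi hK hL D
  have h : π x = 1 := Z3_tf _ m hm (by rw [← map_pow, hx, map_one])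
  obtain ⟨n, c, hc⟩ := hπ x h
  have : Ph hK hL D.sys (5 * n) c = ((t * s * f) ^ n) * x * ((t * s * f) ^ n)⁻¹ := by
    rw [hc]; group
  have h1 : Ph hK hL D.sys (5 * n) (c ^ m) = 1 := by
    rw [map_pow, this, conj_pow, hx]
    group
  have h2 : c ^ m = 1 := by
    apply Ph_inj hK hL hR D
    rw [h1, map_one]
  have h3 : c = 1 := by
    funext w
    exact hT _ m hm (congrFun h2 w)
  rw [hc, h3]
  simp

/-- the product of equal elements -/
theorem prod_eq {ι : Type} [Finite ι] [DecidableEq ι] {Q : Type} [Group Q] (F : (ι → K) →* Q)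
    (x : K) (y : Q) (W : Finset ι) (hW : ∀ w ∈ W, F (Pi.mulSingle w x) = y) :
    F (fun w => if w ∈ W then x else 1) = y ^ W.card := by
  induction W using Finset.induction_on with
  | empty =>
    have : (fun w : ι => if w ∈ (∅ : Finset ι) then x else 1) = (1 : ι → K) := by
      funext w; simp
    rw [this, map_one]
    simp
  | insert a W ha ih =>
    have : (fun w => if w ∈ insert a W then x else 1) =
        (Pi.mulSingle a x : ι → K) * (fun w => if w ∈ W then x else 1) := by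
      funext w
      by_cases hw : w = a
      · subst hw
        simp [ha]
      · simp [hw]
    rw [this, map_mul, hW a (Finset.mem_insert_self _ _),
      ih (fun w hw => hW w (Finset.mem_insert_of_mem hw)), Finset.card_insert_of_notMem ha,
      pow_succ']

/-- every finite index subgroup contains the image of `A` under a suitable diagonal embedding -/
theorem exists_diag (hK : Group.IsPerfect K) (hL : LP K) (hR : RF K) (D : Data K H t s f Φ)
    (A : Finset K) (S : Subgroup H) [hS : S.FiniteIndex] :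
    ∃ ε : K →* H, Function.Injective ε ∧ ∀ a ∈ A, ε a ∈ S := by
  classical
  let N := S.normalCore
  have hN : N.FiniteIndex := Subgroup.finiteIndex_normalCore S
  have hfin : Finite (H ⧸ N) := Subgroup.finite_quotient_of_finiteIndex
  cases nonempty_fintype (H ⧸ N)
  let q := Fintype.card (H ⧸ N)
  have hq : 0 < q := Fintype.card_pos
  let k := Fintype.card (A → H ⧸ N) * q
  let F : (V (k + 4) → K) →* H ⧸ N := (QuotientGroup.mk' N).comp (Ph hK hL D.sys k)
  let ρ : V (k + 4) → (A → H ⧸ N) := fun w a => F (Pi.mulSingle w (a : K))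
  have hcard : Fintype.card (A → H ⧸ N) * q ≤ Fintype.card (V (k + 4)) := by
    have h1 : Fintype.card (V (k + 4)) = 2 ^ (k + 4) := by
      simp [ZMod.card]
    rw [h1]
    have h2 : k < 2 ^ k := Nat.lt_two_pow_self
    have h3 : 2 ^ k ≤ 2 ^ (k + 4) := Nat.pow_le_pow_right (by norm_num) (by omega)
    exact (h2.le).trans h3
  obtain ⟨y, hy⟩ := Fintype.exists_le_card_fiber_of_mul_le_card ρ hcard
  obtain ⟨W, hWs, hWc⟩ := Finset.exists_subset_card_eq hy
  have hWne : W.Nonempty := by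
    rw [← Finset.card_pos, hWc]; exact hq
  let δ : K →* (V (k + 4) → K) :=
    { toFun := fun x w => if w ∈ W then x else 1
      map_one' := by funext w; simp
      map_mul' := fun a b => by
        funext w
        by_cases hw : w ∈ W <;> simp [hw] }
  refine ⟨(Ph hK hL D.sys k).comp δ, ?_, ?_⟩
  · intro a b hab
    have h1 := Ph_inj hK hL hR D k hab
    obtain ⟨w, hw⟩ := hWne
    have h2 := congrFun h1 w
    simpa [δ, hw] using h2
  · intro a ha
    apply Subgroup.normalCore_le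
    have h1 : F (δ a) = (y ⟨a, ha⟩) ^ W.card := by
      apply prod_eq
      intro w hw
      have := hWs hw
      rw [Finset.mem_filter] at this
      exact congrFun this.2 ⟨a, ha⟩
    rw [hWc, show q = Fintype.card (H ⧸ N) from rfl, pow_card_eq_one] at h1
    exact (QuotientGroup.eq_one_iff _).mp h1

end

theorem reduction (K : Type) [Group K] (hK : Group.IsPerfect K) (hL : LP K)
    (hfp : Group.IsFinitelyPresented K) (hR : RF K)
    (hT : ∀ (k : K) (n : ℕ), n ≠ 0 → k ^ n = 1 → k = 1)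
    (A : Finset K) (hAne : A.Nonempty)
    (hA : ∀ a ∈ A, ∃ g : K, g ≠ 1 ∧ g * a ∈ A ∧ g⁻¹ * a ∈ A) :
    ∃ (G : Type) (_ : Group G),
      (∀ g : G, g ≠ 1 → ¬ IsOfFinOrder g) ∧
      (∃ (n : ℕ) (rels : Finset (FreeGroup (Fin n))),
        Nonempty (G ≃* PresentedGroup (rels : Set (FreeGroup (Fin n))))) ∧
      (∀ g : G, g ≠ 1 → ∃ N : Subgroup G, N.Normal ∧ N.FiniteIndex ∧ g ∉ N) ∧
      ¬ ∃ H : Subgroup G, H.FiniteIndex ∧
        ∀ A : Finset G, (∀ x ∈ A, x ∈ H) → 2 ≤ A.card →
          ∃ a ∈ A, ∃ b ∈ A, a ≠ b ∧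
            (∀ g ∈ H, g ≠ 1 → g * a ∉ A ∨ g⁻¹ * a ∉ A) ∧
            (∀ g ∈ H, g ≠ 1 → g * b ∉ A ∨ g⁻¹ * b ∉ A) := by
  classical
  obtain ⟨H, _, t, s, f, Φ, D⟩ := exists_data K hfp
  refine ⟨H, inferInstance, ?_, ?_, ?_, ?_⟩
  · intro g hg hfin
    rw [isOfFinOrder_iff_pow_eq_one] at hfin
    obtain ⟨n, hn, hgn⟩ := hfin
    exact hg (H_tf hK hL hR D hT g n (by omega) hgn)
  · have := D.fp
    obtain ⟨n, r, hr, ⟨e⟩⟩ := Group.IsFinitelyPresented.exists_mulEquiv_presentedGroup (G := H)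
    refine ⟨n, hr.toFinset, ⟨?_⟩⟩
    rw [Set.Finite.coe_toFinset]
    exact e
  · intro g hg
    obtain ⟨Q, _, _, q, hq⟩ := H_rf hK hL hR D g hg
    refine ⟨q.ker, inferInstance, ?_, hq⟩
    exact Subgroup.finiteIndex_ker q
  · rintro ⟨S, hS, hdiff⟩
    obtain ⟨ε, hinj, hε⟩ := exists_diag hK hL hR D A S
    obtain ⟨a0, ha0⟩ := hAne
    have hcard : 2 ≤ (A.image ε).card := by
      rw [Finset.card_image_of_injective _ hinj]
      obtain ⟨g, hg, h1, _⟩ := hA a0 ha0
      have : 1 < A.card := Finset.one_lt_card.mpr ⟨a0, ha0, g * a0, h1, by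
        intro h
        apply hg
        exact mul_eq_right.mp h.symm⟩
      omega
    obtain ⟨a', ha', b', hb', hne, h1, h2⟩ := hdiff (A.image ε) (by
      intro x hx
      obtain ⟨a, ha, rfl⟩ := Finset.mem_image.mp hx
      exact hε a ha) hcard
    obtain ⟨a, ha, rfl⟩ := Finset.mem_image.mp ha'
    obtain ⟨g, hg, hg1, hg2⟩ := hA a ha
    have hgS : ε g ∈ S := by
      have : ε g = ε (g * a) * (ε a)⁻¹ := by rw [map_mul]; group
      rw [this]
      exact S.mul_mem (hε _ hg1) (S.inv_mem (hε _ ha))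
    have hgne : ε g ≠ 1 := by
      intro h
      apply hg
      apply hinj
      rw [h, map_one]
    rcases h1 (ε g) hgS hgne with h | h
    · apply h
      rw [← map_mul]
      exact Finset.mem_image_of_mem _ hg1
    · apply h
      rw [← map_inv, ← map_mul]
      exact Finset.mem_image_of_mem _ hg2

end Pool.Agent.TH103.VD
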