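import Mathlib
import Pool.Agent.Helper310.Step
import Pool.Agent.H832R2.VFree
import Pool.Agent.TH103.VD.Reduce

/-!
Residual finiteness and torsion in amalgamated products.
-/

set_option autoImplicit false

namespace Pool.Agent.TH103.VD

open Monoid Function

/-- Free groups are residually finite. -/
theorem free_rf (J : Type) : RF (FreeGroup J) := by
  intro w hw
  have hJ : Nonempty J := by
    by_contra hcon
    rw [not_nonempty_iff] at hcon
    exact hw (Subsingleton.elim _ _)
  have hidx : (⊥ : Subgroup (FreeGroup J)).index = 0 := by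
    rw [Subgroup.index_bot]
    exact Nat.card_eq_zero_of_infinite
  obtain ⟨N', _, h2, h3⟩ := Pool.Agent.Helper310.Step.step (FreeGroupBasis.ofFreeGroup J) ⊥
    Subgroup.FG.bot hidx w (by simpa using hw)
  have hfin : Finite (FreeGroup J ⧸ N') := Subgroup.index_ne_zero_iff_finite.1 h3.ne_zero
  refine ⟨Equiv.Perm (FreeGroup J ⧸ N'), inferInstance, inferInstance,
    MulAction.toPermHom (FreeGroup J) (FreeGroup J ⧸ N'), ?_⟩
  intro h4
  have h5 : w • ((1 : FreeGroup J) : FreeGroup J ⧸ N') = ((1 : FreeGroup J) : FreeGroup J ⧸ N') := by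
    have := congrArg (fun σ : Equiv.Perm (FreeGroup J ⧸ N') => σ ((1 : FreeGroup J) :
      FreeGroup J ⧸ N')) h4
    simpa using this
  have h6 : ((w * 1 : FreeGroup J) : FreeGroup J ⧸ N') = ((1 : FreeGroup J) : FreeGroup J ⧸ N') := h5
  rw [mul_one, eq_comm, QuotientGroup.eq, inv_one, one_mul] at h6
  exact h2 h6

section

open Pool.Agent.H832R2

variable {E Q : Type} [Group E] [Group Q] {G : Bool → Type} [∀ b, Group (G b)]
  {φ : ∀ b, E →* G b} (τ : PushoutI φ →* Q)

/-- the induced action on a product -/
noncomputable def act2 {F : Type} [Group F] (q : FreeGroup (Set Q) →* F) :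
    PushoutI φ →* Equiv.Perm (Q × F) :=
  MonoidHom.toHomPerm
    { toFun := fun g => (fun z : Q × F => (τ g * z.1, q (cc τ g z.1) * z.2) : Function.End (Q × F))
      map_one' := by
        funext z
        change (τ 1 * z.1, q (cc τ 1 z.1) * z.2) = z
        rw [map_one, cc_one, map_one, one_mul, one_mul]
      map_mul' := by
        intro g h
        funext z
        change (τ (g * h) * z.1, q (cc τ (g * h) z.1) * z.2) =
          (τ g * (τ h * z.1), q (cc τ g (τ h * z.1)) * (q (cc τ h z.1) * z.2))
        rw [map_mul, cc_mul, map_mul, mul_assoc, mul_assoc] }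

theorem act2_apply {F : Type} [Group F] (q : FreeGroup (Set Q) →* F) (g : PushoutI φ)
    (z : Q × F) : act2 τ q g z = (τ g * z.1, q (cc τ g z.1) * z.2) := rfl

/-- An amalgam with a homomorphism to a finite group which is injective on the factors is
residually finite. -/
theorem amalg_rf [Finite Q] (hφ : ∀ b, Function.Injective (φ b))
    (hτ : ∀ b, Function.Injective (fun g : G b => τ (PushoutI.of b g))) :
    RF (PushoutI φ) := by
  intro g hg
  by_cases h : τ g = 1
  · have hc : cc τ g 1 ≠ 1 := fun hc => hg (eq_of_cc τ hφ hτ g 1 hc h)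
    obtain ⟨F, _, _, q, hq⟩ := free_rf _ _ hc
    refine ⟨Equiv.Perm (Q × F), inferInstance, inferInstance, act2 τ q, ?_⟩
    intro h1
    have h2 := Equiv.congr_fun h1 (1, 1)
    rw [act2_apply] at h2
    have h3 := congrArg Prod.snd h2
    simp only [mul_one, Equiv.Perm.one_apply] at h3
    exact hq h3
  · exact ⟨Q, inferInstance, inferInstance, τ, h⟩

end

end Pool.Agent.TH103.VD
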