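import Mathlib
import Pool.Agent.TH103.VD.Amalg

/-!
Syllable decompositions in amalgamated products: torsion and separation.
-/

set_option autoImplicit false

namespace Pool.Agent.TH103.VD

open Monoid Function

section

variable {E : Type} [Group E] {G : Bool → Type} [∀ b, Group (G b)] {φ : ∀ b, E →* G b}

/-- product of a list of syllables -/
def pr (φ : ∀ b, E →* G b) (L : List (Σ b, G b)) : PushoutI φ :=
  (L.map fun s => PushoutI.of (φ := φ) s.1 s.2).prod

theorem pr_nil : pr φ [] = 1 := rfl

theorem pr_cons (s : Σ b, G b) (L : List (Σ b, G b)) :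
    pr φ (s :: L) = PushoutI.of s.1 s.2 * pr φ L := by
  simp [pr]

theorem pr_append (L L' : List (Σ b, G b)) : pr φ (L ++ L') = pr φ L * pr φ L' := by
  simp [pr]

theorem exists_pr (z : PushoutI φ) : ∃ L, pr φ L = z := by
  induction z using PushoutI.induction_on with
  | of i g => exact ⟨[⟨i, g⟩], by simp [pr]⟩
  | base h => exact ⟨[⟨true, φ true h⟩], by simp [pr, PushoutI.of_apply_eq_base]⟩
  | mul x y hx hy =>
    obtain ⟨L, rfl⟩ := hx
    obtain ⟨L', rfl⟩ := hy
    exact ⟨L ++ L', pr_append L L'⟩

/-- reducedness of a list of syllables -/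
def Red (φ : ∀ b, E →* G b) (L : List (Σ b, G b)) : Prop :=
  (∀ s ∈ L, s.2 ∉ (φ s.1).range) ∧ L.IsChain (fun s t => Sigma.fst s ≠ Sigma.fst t)

theorem Red.ne_one (hφ : ∀ b, Function.Injective (φ b)) {L : List (Σ b, G b)} (h : Red φ L)
    (hne : L ≠ []) : pr φ L ≠ 1 := by
  intro h1
  let w : CoprodI.Word G := ⟨L, fun s hs h2 => h.1 s hs (by rw [h2]; exact Subgroup.one_mem _), h.2⟩
  have hw : PushoutI.ofCoprodI (φ := φ) w.prod = pr φ L := by
    change PushoutI.ofCoprodI (φ := φ) (L.map fun s => CoprodI.of s.2).prod = _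
    rw [map_list_prod, List.map_map]
    congr 1
  have : w = CoprodI.Word.empty := PushoutI.Reduced.eq_empty_of_mem_range hφ (w := w) h.1 (by
    rw [hw, h1]
    exact Subgroup.one_mem _)
  exact hne (congrArg CoprodI.Word.toList this)

theorem not_chain {α : Type} {R : α → α → Prop} (L : List α) (h : ¬ L.IsChain R) :
    ∃ L1 a b L2, L = L1 ++ a :: b :: L2 ∧ ¬ R a b := by
  induction L with
  | nil => exact absurd List.IsChain.nil h
  | cons a L ih =>
    cases L with
    | nil => exact absurd (List.IsChain.singleton a) h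
    | cons b L =>
      by_cases hab : R a b
      · have : ¬ (b :: L).IsChain R := fun h' => h (List.IsChain.cons_cons hab h')
        obtain ⟨L1, c, d, L2, h1, h2⟩ := ih this
        exact ⟨a :: L1, c, d, L2, by rw [h1]; rfl, h2⟩
      · exact ⟨[], a, b, L, rfl, hab⟩

/-- absorbing an element of the base group -/
theorem absorb (e : E) (L : List (Σ b, G b)) (hL : L ≠ []) :
    ∃ L' : List (Σ b, G b), L'.length = L.length ∧ pr φ L' = PushoutI.base φ e * pr φ L := by
  cases L with
  | nil => exact absurd rfl hL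
  | cons s L =>
    refine ⟨⟨s.1, φ s.1 e * s.2⟩ :: L, rfl, ?_⟩
    rw [pr_cons, pr_cons]
    change PushoutI.of s.1 (φ s.1 e * s.2) * _ = _
    rw [map_mul, PushoutI.of_apply_eq_base, mul_assoc]

theorem absorb' (e : E) (L : List (Σ b, G b)) (hL : L ≠ []) :
    ∃ L' : List (Σ b, G b), L'.length = L.length ∧ pr φ L' = pr φ L * PushoutI.base φ e := by
  rcases List.eq_nil_or_concat L with h | ⟨M, s, rfl⟩
  · exact absurd h hL
  · refine ⟨M ++ [⟨s.1, s.2 * φ s.1 e⟩], by simp, ?_⟩
    rw [List.concat_eq_append, pr_append, pr_append, pr_cons, pr_cons, pr_nil, mul_one, mul_one]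
    change _ * PushoutI.of s.1 (s.2 * φ s.1 e) = _
    rw [map_mul, PushoutI.of_apply_eq_base, mul_assoc]

/-- a shortest decomposition into at least two syllables is reduced -/
theorem red_of_min (L : List (Σ b, G b)) (h2 : 2 ≤ L.length)
    (hmin : ∀ L', pr φ L' = pr φ L → L.length ≤ L'.length) : Red φ L := by
  constructor
  · intro s hs hr
    obtain ⟨e, he⟩ := hr
    obtain ⟨L1, L2, h⟩ := List.append_of_mem hs
    have hb : PushoutI.of s.1 s.2 = PushoutI.base φ e := by
      rw [← he, PushoutI.of_apply_eq_base]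
    by_cases hL2 : L2 = []
    · subst hL2
      have hL1 : L1 ≠ [] := by
        rintro rfl
        rw [h] at h2
        simp at h2
      obtain ⟨L', hl, hp⟩ := absorb' (φ := φ) e L1 hL1
      have := hmin L' (by rw [hp, h, pr_append, pr_cons, pr_nil, mul_one, hb])
      rw [h, hl] at this
      simp at this
    · obtain ⟨L', hl, hp⟩ := absorb (φ := φ) e L2 hL2
      have := hmin (L1 ++ L') (by rw [h, pr_append, pr_append, pr_cons, hp, hb])
      rw [h] at this
      simp only [List.length_append, List.length_cons, hl] at this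
      omega
  · by_contra hc
    obtain ⟨L1, a, b, L2, h1, h3⟩ := not_chain _ hc
    obtain ⟨i, a⟩ := a
    obtain ⟨j, b⟩ := b
    simp only [ne_eq, not_not] at h3
    subst h3
    have := hmin (L1 ++ ⟨i, a * b⟩ :: L2) (by
      rw [h1, pr_append, pr_append, pr_cons, pr_cons, pr_cons]
      change _ * (PushoutI.of i (a * b) * _) = _ * (PushoutI.of i a * (PushoutI.of i b * _))
      rw [map_mul, mul_assoc])
    rw [h1] at this
    simp only [List.length_append, List.length_cons] at this
    omega

/-- repetition of a list -/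
def rep (L : List (Σ b, G b)) : ℕ → List (Σ b, G b)
  | 0 => []
  | n + 1 => L ++ rep L n

theorem pr_rep (L : List (Σ b, G b)) (n : ℕ) : pr φ (rep L n) = pr φ L ^ n := by
  induction n with
  | zero => rw [pow_zero]; rfl
  | succ n ih => rw [rep, pr_append, ih, pow_succ']

theorem mem_rep {L : List (Σ b, G b)} {n : ℕ} {s : Σ b, G b} (h : s ∈ rep L n) : s ∈ L := by
  induction n with
  | zero => exact absurd h List.not_mem_nil
  | succ n ih =>
    rcases List.mem_append.mp h with h | h
    · exact h
    · exact ih h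

theorem exists_red_conj (z : PushoutI φ) :
    ∃ (c : PushoutI φ) (L : List (Σ b, G b)), pr φ L = c⁻¹ * z * c ∧
      (L.length ≤ 1 ∨ ∀ n, Red φ (rep L n)) := by
  classical
  have hex : ∃ n, ∃ (c : PushoutI φ) (L : List (Σ b, G b)), L.length = n ∧
      pr φ L = c⁻¹ * z * c := by
    obtain ⟨L, hL⟩ := exists_pr z
    exact ⟨L.length, 1, L, rfl, by simp [hL]⟩
  obtain ⟨c, L, hn, hL⟩ := Nat.find_spec hex
  have hmin : ∀ (c : PushoutI φ) (L' : List (Σ b, G b)), pr φ L' = c⁻¹ * z * c →
      L.length ≤ L'.length := by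
    intro c L' h
    rw [hn]
    exact Nat.find_min' hex ⟨c, L', rfl, h⟩
  refine ⟨c, L, hL, ?_⟩
  by_cases h2 : L.length ≤ 1
  · exact Or.inl h2
  right
  have hred : Red φ L := red_of_min L (by omega) (fun L' h => hmin c L' (by rw [h, hL]))
  -- first and last syllables
  have hcyc : ∀ u s, u ∈ L.getLast? → s ∈ L.head? → u.1 ≠ s.1 := by
    intro u s hu hs h
    obtain ⟨i, u⟩ := u
    obtain ⟨j, s⟩ := s
    simp only at h
    subst h
    cases L with
    | nil => simp at h2
    | cons s' M =>
      simp only [List.head?_cons, Option.mem_def, Option.some.injEq] at hs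
      subst hs
      have hM : M ≠ [] := by
        rintro rfl
        simp at h2
      have hlast : M.getLast? = some ⟨i, u⟩ := by
        rw [List.getLast?_cons_of_ne_nil hM] at hu
        exact hu
      obtain ⟨N, hN⟩ : ∃ N, M = N ++ [⟨i, u⟩] := by
        refine ⟨M.dropLast, ?_⟩
        have h5 := List.dropLast_append_getLast hM
        have h6 : M.getLast hM = ⟨i, u⟩ := by
          rw [List.getLast?_eq_some_getLast hM] at hlast
          exact Option.some.inj hlast
        rw [h6] at h5
        exact h5.symm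
      have := hmin (c * PushoutI.of i s) (N ++ [⟨i, u * s⟩]) (by
        have e1 : pr φ (⟨i, s⟩ :: M) = PushoutI.of i s * (pr φ N * PushoutI.of i u) := by
          rw [pr_cons, hN, pr_append, pr_cons, pr_nil, mul_one]
        rw [hL] at e1
        rw [pr_append, pr_cons, pr_nil, mul_one]
        change pr φ N * PushoutI.of i (u * s) = _
        rw [map_mul]
        have e2 : (c * PushoutI.of i s)⁻¹ * z * (c * PushoutI.of i s) =
            (PushoutI.of i s)⁻¹ * (c⁻¹ * z * c) * PushoutI.of i s := by group
        rw [e2, e1]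
        group)
      rw [hN] at this
      simp only [List.length_append, List.length_cons] at this
      omega
  intro n
  refine ⟨fun s hs => hred.1 s (mem_rep hs), ?_⟩
  induction n with
  | zero => exact List.IsChain.nil
  | succ n ih =>
    rw [rep, List.isChain_append]
    refine ⟨hred.2, ih, ?_⟩
    intro x hx y hy
    cases n with
    | zero => simp [rep] at hy
    | succ n =>
      refine hcyc x y hx ?_
      have hLne : L ≠ [] := by
        rintro rfl
        simp at h2
      rw [rep, List.head?_append_of_ne_nil _ hLne] at hy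
      exact hy

/-- torsion in an amalgam -/
theorem amalg_tf (hφ : ∀ b, Function.Injective (φ b))
    (hG : ∀ b, ∀ (x : G b) (n : ℕ), n ≠ 0 → x ^ n = 1 → x = 1) (z : PushoutI φ) (n : ℕ)
    (hn : n ≠ 0) (hz : z ^ n = 1) : z = 1 := by
  obtain ⟨c, L, hL, h⟩ := exists_red_conj z
  have hconj : z = c * pr φ L * c⁻¹ := by rw [hL]; group
  have hLn : pr φ L ^ n = 1 := by
    rw [hL]
    have : (c⁻¹ * z * c) ^ n = c⁻¹ * z ^ n * c := by
      have := conj_pow (a := c⁻¹) (b := z) (i := n)
      rw [inv_inv] at this
      exact this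
    rw [this, hz]
    group
  have hone : pr φ L = 1 := by
    rcases h with h | h
    · match L, h with
      | [], _ => rfl
      | [s], _ =>
        rw [pr_cons, pr_nil, mul_one] at hLn ⊢
        rw [← map_pow] at hLn
        have h1 : s.2 ^ n = 1 := by
          apply PushoutI.of_injective hφ s.1
          rw [hLn, map_one]
        rw [hG _ _ n hn h1, map_one]
    · by_contra hne
      have hLne : L ≠ [] := by
        rintro rfl
        exact hne rfl
      obtain ⟨m, rfl⟩ := Nat.exists_eq_succ_of_ne_zero hn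
      refine (h (m + 1)).ne_one hφ ?_ ?_
      · rw [rep]
        intro h3
        exact hLne (List.append_eq_nil_iff.mp h3).1
      · rw [pr_rep]
        exact hLn
  rw [hconj, hone]
  group

/-- residual finiteness of an amalgam through quotients of the factors -/
theorem amalg_sep
    (hq : ∀ S : List (Σ b, G b), ∃ (E' : Type) (_ : Group E') (G' : Bool → Type)
      (_ : ∀ b, Group (G' b)) (φ' : ∀ b, E' →* G' b) (ζ : E →* E') (ψ : ∀ b, G b →* G' b),
      (∀ b, Function.Injective (φ' b)) ∧ (∀ b e, ψ b (φ b e) = φ' b (ζ e)) ∧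
      RF (PushoutI φ') ∧ (∀ s ∈ S, s.2 ≠ 1 → ψ s.1 s.2 ≠ 1) ∧
      (∀ s ∈ S, s.2 ∉ (φ s.1).range → ψ s.1 s.2 ∉ (φ' s.1).range)) : RF (PushoutI φ) := by
  classical
  intro z hz
  have hex : ∃ n, ∃ (L : List (Σ b, G b)), L.length = n ∧ pr φ L = z := by
    obtain ⟨L, hL⟩ := exists_pr z
    exact ⟨L.length, L, rfl, hL⟩
  obtain ⟨L, hn, hL⟩ := Nat.find_spec hex
  have hmin : ∀ (L' : List (Σ b, G b)), pr φ L' = pr φ L → L.length ≤ L'.length := by
    intro L' h
    rw [hn]
    exact Nat.find_min' hex ⟨L', rfl, by rw [h, hL]⟩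
  obtain ⟨E', _, G', _, φ', ζ, ψ, hφ', hcomp, hRF, h1, h2⟩ := hq L
  let F : PushoutI φ →* PushoutI φ' :=
    PushoutI.lift (fun b => (PushoutI.of b).comp (ψ b)) ((PushoutI.base φ').comp ζ) (by
      intro b
      ext e
      simp only [MonoidHom.comp_apply]
      rw [hcomp, PushoutI.of_apply_eq_base])
  have hFof : ∀ b x, F (PushoutI.of b x) = PushoutI.of b (ψ b x) := by
    intro b x
    exact PushoutI.lift_of _ _ _ x
  have hF : F (pr φ L) = pr φ' (L.map fun s => ⟨s.1, ψ s.1 s.2⟩) := by
    clear hmin hL hn h1 h2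
    induction L with
    | nil => rw [pr_nil, map_one]; rfl
    | cons s L ih =>
      rw [pr_cons, map_mul, ih, hFof, List.map_cons, pr_cons]
  have hne : F z ≠ 1 := by
    rw [← hL, hF]
    by_cases hlen : 2 ≤ L.length
    · have hred := red_of_min L hlen hmin
      refine Red.ne_one hφ' (L := L.map fun s => ⟨s.1, ψ s.1 s.2⟩) ⟨?_, ?_⟩ ?_
      · intro s hs
        obtain ⟨s', hs', rfl⟩ := List.mem_map.mp hs
        exact h2 s' hs' (hred.1 s' hs')
      · rw [List.isChain_map]
        exact hred.2
      · intro h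
        rw [List.map_eq_nil_iff] at h
        rw [h] at hlen
        simp at hlen
    · rcases L with _ | ⟨s, _ | ⟨t, L⟩⟩
      · exact absurd hL (fun h => hz (by rw [← h, pr_nil]))
      · rw [List.map_cons, pr_cons, List.map_nil, pr_nil, mul_one]
        intro h
        have h3 : ψ s.1 s.2 = 1 := by
          apply PushoutI.of_injective hφ' s.1
          rw [map_one]
          exact h
        refine h1 s (by simp) ?_ h3
        intro h4
        apply hz
        rw [← hL, pr_cons, pr_nil, mul_one, h4, map_one]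
      · exfalso
        simp only [List.length_cons] at hlen
        omega
  obtain ⟨Q, i1, i2, q, hq⟩ := hRF _ hne
  exact ⟨Q, i1, i2, q.comp F, hq⟩

end

end Pool.Agent.TH103.VD
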