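import Mathlib
import Pool.Agent.TH103.VD.Syll

/-!
The twisted double of a group along a rank two abelian subgroup.
-/

set_option autoImplicit false

namespace Pool.Agent.TH103.VD

open Monoid Function

section cosets

variable {E' A : Type} [Group E'] [Group A]

/-- a choice of representatives of the right cosets -/
noncomputable def cs (U : Subgroup A) (x : A) : A := ((QuotientGroup.mk x⁻¹ : A ⧸ U).out)⁻¹

theorem cs_mem (U : Subgroup A) (x : A) : x * (cs U x)⁻¹ ∈ U := by
  rw [cs, inv_inv]
  have h : ((((QuotientGroup.mk x⁻¹ : A ⧸ U).out : A)) : A ⧸ U) = ((x⁻¹ : A) : A ⧸ U) :=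
    QuotientGroup.out_eq' _
  rw [eq_comm, QuotientGroup.eq, inv_inv] at h
  exact h

theorem cs_mul (U : Subgroup A) {u : A} (hu : u ∈ U) (x : A) : cs U (u * x) = cs U x := by
  have h : (QuotientGroup.mk (u * x)⁻¹ : A ⧸ U) = QuotientGroup.mk x⁻¹ := by
    rw [QuotientGroup.eq]
    simpa using hu
  rw [cs, cs]
  exact congrArg (fun q : A ⧸ U => q.out⁻¹) h

/-- two embeddings with the same image are conjugate in the symmetric group -/
theorem exists_perm (α β : E' →* A) (hα : Function.Injective α) (hβ : Function.Injective β)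
    (hr : α.range = β.range) : ∃ π : Equiv.Perm A, ∀ e x, π (β e * x) = α e * π x := by
  have h1 : ∀ x, ∃ e, α e = x * (cs α.range x)⁻¹ := fun x => cs_mem α.range x
  have h2 : ∀ x, ∃ e, β e = x * (cs α.range x)⁻¹ := fun x => by
    have := cs_mem α.range x
    rw [hr] at this ⊢
    exact this
  choose ea hea using h1
  choose eb heb using h2
  have hαm : ∀ e, α e ∈ α.range := fun e => ⟨e, rfl⟩
  have hβm : ∀ e, β e ∈ α.range := fun e => by rw [hr]; exact ⟨e, rfl⟩
  have hca : ∀ e x, cs α.range (α e * x) = cs α.range x := fun e x => cs_mul _ (hαm e) x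
  have hcb : ∀ e x, cs α.range (β e * x) = cs α.range x := fun e x => cs_mul _ (hβm e) x
  have hcc : ∀ x, cs α.range (cs α.range x) = cs α.range x := fun x => by
    have : x = α (ea x) * cs α.range x := by rw [hea]; group
    conv_rhs => rw [this]
    rw [hca]
  have ha : ∀ e x, ea (α e * cs α.range x) = e := fun e x => by
    apply hα
    rw [hea, hca, hcc]
    group
  have hb : ∀ e x, eb (β e * cs α.range x) = e := fun e x => by
    apply hβ
    rw [heb, hcb, hcc]
    group
  have hb' : ∀ e x, eb (β e * x) = e * eb x := fun e x => by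
    apply hβ
    rw [heb, hcb, map_mul, heb]
    group
  refine ⟨⟨fun x => α (eb x) * cs α.range x, fun x => β (ea x) * cs α.range x, ?_, ?_⟩, ?_⟩
  · intro x
    simp only
    rw [ha, hca, hcc, heb]
    group
  · intro x
    simp only
    rw [hb, hcb, hcc, hea]
    group
  · intro e x
    change α (eb (β e * x)) * cs α.range (β e * x) = α e * (α (eb x) * cs α.range x)
    rw [hb', hcb, map_mul, mul_assoc]

/-- a pair of homomorphisms as a family -/
def fam (α β : E' →* A) : (b : Bool) → E' →* A
  | false => α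
  | true => β


/-- the compatible pair of permutation representations -/
theorem exists_tau (α β : E' →* A) (hα : Function.Injective α) (hβ : Function.Injective β)
    (hr : α.range = β.range) : ∃ lam mu : A →* Equiv.Perm A, Function.Injective lam ∧
      Function.Injective mu ∧ ∀ e, mu (β e) = lam (α e) := by
  obtain ⟨π, hπ⟩ := exists_perm α β hα hβ hr
  let lam : A →* Equiv.Perm A := MulAction.toPermHom A A
  have hlam : ∀ g x, lam g x = g * x := fun g x => rfl
  have hlaminj : Function.Injective lam := by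
    intro g h hgh
    have := Equiv.congr_fun hgh 1
    rw [hlam, hlam, mul_one, mul_one] at this
    exact this
  refine ⟨lam, (MulAut.conj π).toMonoidHom.comp lam, hlaminj,
    fun g h hgh => hlaminj ((MulAut.conj π).injective hgh), ?_⟩
  intro e
  apply Equiv.ext
  intro x
  change π (β e * (π⁻¹ x)) = α e * x
  rw [hπ]
  congr 1
  exact Equiv.apply_symm_apply π x

/-- amalgams of two copies of a finite group along a common subgroup -/
theorem fam_rf [Finite A] (α β : E' →* A) (hα : Function.Injective α) (hβ : Function.Injective β)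
    (hr : α.range = β.range) : RF (PushoutI (fam α β)) := by
  obtain ⟨lam, mu, h1, h2, h3⟩ := exists_tau α β hα hβ hr
  have hk : ∀ b, (fam lam mu b).comp (fam α β b) = lam.comp α := by
    intro b
    cases b with
    | false => rfl
    | true => exact MonoidHom.ext h3
  have hφ : ∀ b, Function.Injective (fam α β b) := by
    intro b
    cases b with
    | false => exact hα
    | true => exact hβ
  have hl : ∀ b, Function.Injective (fam lam mu b) := by
    intro b
    cases b with
    | false => exact h1
    | true => exact h2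
  refine amalg_rf (PushoutI.lift (fam lam mu) (lam.comp α) hk) hφ ?_
  intro b g h hgh
  apply hl b
  have e1 := PushoutI.lift_of (φ := fam α β) (fam lam mu) (lam.comp α) hk (i := b)
  rw [← e1 g, ← e1 h]
  exact hgh

end cosets

section double

variable {E : Type} [Group E] {t u : E} (htu : Commute t u)

/-- the free abelian group of rank two -/
abbrev Z2 := Multiplicative ℤ × Multiplicative ℤ

/-- the homomorphism from the free abelian group of rank two -/
def zz {E : Type} [Group E] {t u : E} (htu : Commute t u) : Z2 →* E :=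
  MonoidHom.noncommCoprod (zpowersHom E t) (zpowersHom E u) (by
    intro a b
    simp only [zpowersHom_apply]
    exact htu.zpow_zpow _ _)

theorem zz_apply (v : Z2) : zz htu v = t ^ (v.1.toAdd) * u ^ (v.2.toAdd) := by
  simp [zz, zpowersHom_apply]

/-- the double -/
abbrev Dbl {E : Type} [Group E] {t u : E} (htu : Commute t u) : Type :=
  PushoutI (fam (zz htu) (zz htu.symm))

theorem Dbl_rel1 : (PushoutI.of (φ := fam (zz htu) (zz htu.symm)) false t) =
    PushoutI.of (φ := fam (zz htu) (zz htu.symm)) true u := by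
  have h1 := PushoutI.of_apply_eq_base (fam (zz htu) (zz htu.symm)) false
    (Multiplicative.ofAdd 1, 1)
  have h2 := PushoutI.of_apply_eq_base (fam (zz htu) (zz htu.symm)) true
    (Multiplicative.ofAdd 1, 1)
  have e1 : fam (zz htu) (zz htu.symm) false (Multiplicative.ofAdd 1, 1) = t := by
    change zz htu _ = t
    rw [zz_apply]; simp
  have e2 : fam (zz htu) (zz htu.symm) true (Multiplicative.ofAdd 1, 1) = u := by
    change zz htu.symm _ = u
    rw [zz_apply]; simp
  rw [e1] at h1
  rw [e2] at h2
  rw [h1, h2]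

theorem Dbl_rel2 : (PushoutI.of (φ := fam (zz htu) (zz htu.symm)) false u) =
    PushoutI.of (φ := fam (zz htu) (zz htu.symm)) true t := by
  have h1 := PushoutI.of_apply_eq_base (fam (zz htu) (zz htu.symm)) false
    (1, Multiplicative.ofAdd 1)
  have h2 := PushoutI.of_apply_eq_base (fam (zz htu) (zz htu.symm)) true
    (1, Multiplicative.ofAdd 1)
  have e1 : fam (zz htu) (zz htu.symm) false (1, Multiplicative.ofAdd 1) = u := by
    change zz htu _ = u
    rw [zz_apply]; simp
  have e2 : fam (zz htu) (zz htu.symm) true (1, Multiplicative.ofAdd 1) = t := by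
    change zz htu.symm _ = t
    rw [zz_apply]; simp
  rw [e1] at h1
  rw [e2] at h2
  rw [h1, h2]

/-- homomorphisms from the double -/
theorem Dbl_lift {G : Type} [Group G] (f g : E →* G) (h1 : f t = g u) (h2 : f u = g t) :
    ∃ F : Dbl htu →* G, (∀ x, F (PushoutI.of (φ := fam (zz htu) (zz htu.symm)) false x) = f x) ∧
      (∀ x, F (PushoutI.of (φ := fam (zz htu) (zz htu.symm)) true x) = g x) := by
  have hk : ∀ b, (fam f g b).comp (fam (zz htu) (zz htu.symm) b) = f.comp (zz htu) := by
    intro b
    cases b with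
    | false => rfl
    | true =>
      apply MonoidHom.ext
      intro v
      change g (zz htu.symm v) = f (zz htu v)
      rw [zz_apply, zz_apply, map_mul, map_mul, map_zpow, map_zpow, map_zpow, map_zpow, h1, h2]
  have e1 := fun b => PushoutI.lift_of (φ := fam (zz htu) (zz htu.symm)) (fam f g)
    (f.comp (zz htu)) hk (i := b)
  exact ⟨PushoutI.lift (fam f g) (f.comp (zz htu)) hk, e1 false, e1 true⟩

theorem Dbl_ext {G : Type} [Group G] {F F' : Dbl htu →* G}
    (h1 : ∀ x, F (PushoutI.of (φ := fam (zz htu) (zz htu.symm)) false x) =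
      F' (PushoutI.of (φ := fam (zz htu) (zz htu.symm)) false x))
    (h2 : ∀ x, F (PushoutI.of (φ := fam (zz htu) (zz htu.symm)) true x) =
      F' (PushoutI.of (φ := fam (zz htu) (zz htu.symm)) true x)) : F = F' := by
  apply MonoidHom.ext
  intro x
  induction x using PushoutI.induction_on with
  | of i g =>
    cases i with
    | false => exact h1 g
    | true => exact h2 g
  | base h =>
    rw [← PushoutI.of_apply_eq_base (fam (zz htu) (zz htu.symm)) false]
    exact h1 _
  | mul x y hx hy => rw [map_mul, map_mul, hx, hy]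

open Monoid.Coprod in
theorem Dbl_fp (hE : Group.IsFinitelyPresented E) : Group.IsFinitelyPresented (Dbl htu) := by
  let R : Set (Monoid.Coprod E E) :=
    {inl t * (inr u)⁻¹, inl u * (inr t)⁻¹}
  let N := Subgroup.normalClosure R
  let f : Monoid.Coprod E E →* Dbl htu := Monoid.Coprod.lift
    (PushoutI.of (φ := fam (zz htu) (zz htu.symm)) false)
    (PushoutI.of (φ := fam (zz htu) (zz htu.symm)) true)
  have hp : ∀ x y : Monoid.Coprod E E, x * y⁻¹ ∈ R →
      QuotientGroup.mk' N x = QuotientGroup.mk' N y := by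
    intro x y h
    have : QuotientGroup.mk' N (x * y⁻¹) = 1 :=
      (QuotientGroup.eq_one_iff _).mpr (Subgroup.subset_normalClosure h)
    rwa [map_mul, map_inv, mul_inv_eq_one] at this
  obtain ⟨back, hb1, hb2⟩ := Dbl_lift htu ((QuotientGroup.mk' N).comp inl)
    ((QuotientGroup.mk' N).comp inr)
    (hp _ _ (Or.inl rfl)) (hp _ _ (Or.inr rfl))
  have hback : back.comp f = QuotientGroup.mk' N := by
    apply Monoid.Coprod.hom_ext
    · ext g
      change back (f (inl g)) = _
      have : f (inl g) = PushoutI.of (φ := fam (zz htu) (zz htu.symm)) false g :=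
        Monoid.Coprod.lift_apply_inl _ _ _
      rw [this, hb1]
    · ext g
      change back (f (inr g)) = _
      have : f (inr g) = PushoutI.of (φ := fam (zz htu) (zz htu.symm)) true g :=
        Monoid.Coprod.lift_apply_inr _ _ _
      rw [this, hb2]
  have hsurj : Function.Surjective f := by
    rw [← MonoidHom.range_eq_top, eq_top_iff]
    intro x _
    induction x using PushoutI.induction_on with
    | of i g =>
      cases i with
      | false => exact ⟨inl g, Monoid.Coprod.lift_apply_inl _ _ _⟩
      | true => exact ⟨inr g, Monoid.Coprod.lift_apply_inr _ _ _⟩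
    | base h =>
      rw [← PushoutI.of_apply_eq_base (fam (zz htu) (zz htu.symm)) false]
      exact ⟨inl _, Monoid.Coprod.lift_apply_inl _ _ _⟩
    | mul x y hx hy => exact mul_mem (hx trivial) (hy trivial)
  refine Group.IsFinitelyPresented.of_surjective f hsurj ⟨R, by simp [R], ?_⟩
  apply le_antisymm
  · apply Subgroup.normalClosure_le_normal
    rintro x (rfl | rfl)
    · change f _ = 1
      rw [map_mul, map_inv, mul_inv_eq_one]
      have e1 : f (inl t) = _ := Monoid.Coprod.lift_apply_inl _ _ _
      have e2 : f (inr u) = _ := Monoid.Coprod.lift_apply_inr _ _ _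
      rw [e1, e2]
      exact Dbl_rel1 htu
    · change f _ = 1
      rw [map_mul, map_inv, mul_inv_eq_one]
      have e1 : f (inl u) = _ := Monoid.Coprod.lift_apply_inl _ _ _
      have e2 : f (inr t) = _ := Monoid.Coprod.lift_apply_inr _ _ _
      rw [e1, e2]
      exact Dbl_rel2 htu
  · intro x hx
    have h1 : back (f x) = 1 := by rw [MonoidHom.mem_ker.mp hx, map_one]
    rw [← MonoidHom.comp_apply, hback] at h1
    exact (QuotientGroup.eq_one_iff x).mp h1

theorem Dbl_perfect (hab : ∀ (M : Type) [CommGroup M] (f : E →* M),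
    f u = 1 ∧ (f t = 1 → ∀ x, f x = 1)) : Group.IsPerfect (Dbl htu) := by
  constructor
  rw [← Abelianization.ker_of, eq_top_iff]
  intro x _
  rw [MonoidHom.mem_ker]
  let F : Dbl htu →* Abelianization (Dbl htu) := Abelianization.of
  have : F = 1 := by
    have a1 := hab _ (F.comp (PushoutI.of (φ := fam (zz htu) (zz htu.symm)) false))
    have a2 := hab _ (F.comp (PushoutI.of (φ := fam (zz htu) (zz htu.symm)) true))
    simp only [MonoidHom.comp_apply] at a1 a2
    apply Dbl_ext
    · intro x
      rw [MonoidHom.one_apply]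
      apply a1.2
      rw [Dbl_rel1]
      exact a2.1
    · intro x
      rw [MonoidHom.one_apply]
      apply a2.2
      rw [← Dbl_rel2]
      exact a1.1
  exact DFunLike.congr_fun this x

theorem Dbl_LP (hL : LP E) (χ : E →* Multiplicative ℤ) (hχt : χ t = Multiplicative.ofAdd 1)
    (hχu : χ u = 1) : LP (Dbl htu) := by
  intro G _ f
  obtain ⟨g0, hg0⟩ := hL G (f.comp (PushoutI.of (φ := fam (zz htu) (zz htu.symm)) false))
  obtain ⟨g1, hg1⟩ := hL G (f.comp (PushoutI.of (φ := fam (zz htu) (zz htu.symm)) true))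
  simp only [MonoidHom.comp_apply] at hg0 hg1
  obtain ⟨z0, hz0, e0⟩ := mk_center_eq_iff.mp ((hg0 t).trans ((congrArg f (Dbl_rel1 htu)).trans
    (hg1 u).symm))
  obtain ⟨z1, hz1, e1⟩ := mk_center_eq_iff.mp ((hg1 t).trans
    ((congrArg f (Dbl_rel2 htu)).symm.trans (hg0 u).symm))
  -- twisting by central characters
  have tw : ∀ (z : G) (hz : z ∈ Subgroup.center G) (g : E →* G), ∃ g' : E →* G,
      (∀ x, (QuotientGroup.mk (g' x) : G ⧸ Subgroup.center G) = QuotientGroup.mk (g x)) ∧
      g' t = g t * z ∧ g' u = g u := by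
    intro z hz g
    have hzc : ∀ (y : G) (n : ℤ), Commute y (z ^ n) := fun y n =>
      Commute.zpow_right (show Commute y z from (Subgroup.mem_center_iff.mp hz y)) n
    refine ⟨{ toFun := fun x => g x * z ^ (χ x).toAdd
              map_one' := by simp
              map_mul' := by
                intro a b
                rw [map_mul, map_mul, toAdd_mul, zpow_add]
                have := (hzc (g b) (χ a).toAdd).eq
                calc g a * g b * (z ^ (χ a).toAdd * z ^ (χ b).toAdd) =
                    g a * (g b * z ^ (χ a).toAdd) * z ^ (χ b).toAdd := by group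
                  _ = g a * (z ^ (χ a).toAdd * g b) * z ^ (χ b).toAdd := by rw [this]
                  _ = _ := by group }, ?_, ?_, ?_⟩
    · intro x
      rw [eq_comm, QuotientGroup.eq]
      change (g x)⁻¹ * (g x * z ^ (χ x).toAdd) ∈ _
      rw [inv_mul_cancel_left]
      exact Subgroup.zpow_mem _ hz _
    · change g t * z ^ (χ t).toAdd = _
      rw [hχt]; simp
    · change g u * z ^ (χ u).toAdd = _
      rw [hχu]; simp
  obtain ⟨g0', h01, h02, h03⟩ := tw z0 hz0 g0
  obtain ⟨g1', h11, h12, h13⟩ := tw z1 hz1 g1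
  obtain ⟨F, hF0, hF1⟩ := Dbl_lift htu g0' g1' (by rw [h02, h13, e0]) (by rw [h03, h12, e1])
  refine ⟨F, ?_⟩
  have : (QuotientGroup.mk' (Subgroup.center G)).comp F = f := by
    apply Dbl_ext
    · intro x
      rw [MonoidHom.comp_apply, hF0]
      exact (h01 x).trans (hg0 x)
    · intro x
      rw [MonoidHom.comp_apply, hF1]
      exact (h11 x).trans (hg1 x)
  intro k
  exact DFunLike.congr_fun this k

theorem fam_inj (hinj : ∀ x y : ℤ, t ^ x * u ^ y = 1 → x = 0 ∧ y = 0) (b : Bool) :
    Function.Injective (fam (zz htu) (zz htu.symm) b) := by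
  cases b with
  | false =>
    change Function.Injective (zz htu)
    rw [injective_iff_map_eq_one]
    intro v hv
    rw [zz_apply] at hv
    obtain ⟨h1, h2⟩ := hinj _ _ hv
    exact Prod.ext h1 h2
  | true =>
    change Function.Injective (zz htu.symm)
    rw [injective_iff_map_eq_one]
    intro v hv
    rw [zz_apply, (htu.symm.zpow_zpow _ _).eq] at hv
    obtain ⟨h1, h2⟩ := hinj _ _ hv
    exact Prod.ext h2 h1

theorem Dbl_tf (hinj : ∀ x y : ℤ, t ^ x * u ^ y = 1 → x = 0 ∧ y = 0)
    (hE : ∀ (x : E) (n : ℕ), n ≠ 0 → x ^ n = 1 → x = 1) :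
    ∀ (x : Dbl htu) (n : ℕ), n ≠ 0 → x ^ n = 1 → x = 1 := by
  intro x n hn hx
  exact amalg_tf (fam_inj htu hinj) (fun _ => hE) x n hn hx

theorem zz_range (v : Z2) : zz htu v ∈ (zz htu.symm).range := by
  refine ⟨(v.2, v.1), ?_⟩
  rw [zz_apply, zz_apply]
  exact (htu.symm.zpow_zpow _ _).eq

/-- residual finiteness of the double -/
theorem Dbl_rf (hq : ∀ S : List E, ∃ (A : Type) (_ : Group A) (_ : Finite A) (ψ : E →* A),
      (∀ x y : ℤ, ψ t ^ x * ψ u ^ y = 1 → ψ u ^ x * ψ t ^ y = 1) ∧
      (∀ s ∈ S, s ≠ 1 → ψ s ≠ 1) ∧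
      (∀ s ∈ S, s ∉ (zz htu).range → ∀ x y : ℤ, ψ s ≠ ψ t ^ x * ψ u ^ y)) :
    RF (Dbl htu) := by
  apply amalg_sep
  intro S
  obtain ⟨A, _, _, ψ, h1, h2, h3⟩ := hq (S.map fun s => s.2)
  let f0 : Z2 →* A := ψ.comp (zz htu)
  let f1 : Z2 →* A := ψ.comp (zz htu.symm)
  have hf0 : ∀ v, f0 v = ψ t ^ (v.1.toAdd) * ψ u ^ (v.2.toAdd) := by
    intro v
    change ψ (zz htu v) = _
    rw [zz_apply, map_mul, map_zpow, map_zpow]
  have hf1 : ∀ v, f1 v = ψ u ^ (v.1.toAdd) * ψ t ^ (v.2.toAdd) := by
    intro v
    change ψ (zz htu.symm v) = _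
    rw [zz_apply, map_mul, map_zpow, map_zpow]
  have hc : Commute (ψ t) (ψ u) := htu.map ψ
  have hle : f0.ker ≤ f1.ker := by
    intro v hv
    rw [MonoidHom.mem_ker, hf0] at hv
    rw [MonoidHom.mem_ker, hf1]
    exact h1 _ _ hv
  have hge : f1.ker ≤ f0.ker := by
    intro v hv
    rw [MonoidHom.mem_ker, hf1] at hv
    rw [MonoidHom.mem_ker, hf0]
    have h4 := h1 v.2.toAdd v.1.toAdd (by
      rw [(hc.zpow_zpow _ _).eq]; exact hv)
    rw [(hc.zpow_zpow _ _).eq]
    exact h4
  let α : Z2 ⧸ f0.ker →* A := QuotientGroup.kerLift f0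
  let β : Z2 ⧸ f0.ker →* A := QuotientGroup.lift f0.ker f1 hle
  have hα : Function.Injective α := QuotientGroup.kerLift_injective f0
  have hβ : Function.Injective β := by
    rw [injective_iff_map_eq_one]
    intro q hq
    obtain ⟨v, rfl⟩ := QuotientGroup.mk_surjective q
    change f1 v = 1 at hq
    exact (QuotientGroup.eq_one_iff _).mpr (hge hq)
  have hr : α.range = β.range := by
    apply le_antisymm
    · rintro _ ⟨q, rfl⟩
      obtain ⟨v, rfl⟩ := QuotientGroup.mk_surjective q
      refine ⟨QuotientGroup.mk (v.2, v.1), ?_⟩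
      change f1 (v.2, v.1) = f0 v
      rw [hf0, hf1]
      exact ((hc.zpow_zpow _ _).eq).symm
    · rintro _ ⟨q, rfl⟩
      obtain ⟨v, rfl⟩ := QuotientGroup.mk_surjective q
      refine ⟨QuotientGroup.mk (v.2, v.1), ?_⟩
      change f0 (v.2, v.1) = f1 v
      rw [hf0, hf1]
      exact (hc.zpow_zpow _ _).eq
  refine ⟨Z2 ⧸ f0.ker, inferInstance, fun _ => A, fun _ => inferInstance, fam α β,
    QuotientGroup.mk' f0.ker, fun _ => ψ, ?_, ?_, fam_rf α β hα hβ hr, ?_, ?_⟩
  · intro b
    cases b with
    | false => exact hα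
    | true => exact hβ
  · intro b e
    cases b with
    | false => rfl
    | true => rfl
  · intro s hs hne
    exact h2 s.2 (List.mem_map_of_mem hs) hne
  · rintro ⟨b, s⟩ hs hne ⟨q, hq⟩
    obtain ⟨v, rfl⟩ := QuotientGroup.mk_surjective q
    cases b with
    | false =>
      refine h3 s (List.mem_map_of_mem hs) hne v.1.toAdd v.2.toAdd ?_
      rw [← hf0]
      exact hq.symm
    | true =>
      refine h3 s (List.mem_map_of_mem hs) ?_ v.2.toAdd v.1.toAdd ?_
      · rintro ⟨w, rfl⟩
        exact hne (zz_range htu w)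
      · rw [(hc.zpow_zpow _ _).eq, ← hf1]
        exact hq.symm

end double

end Pool.Agent.TH103.VD
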