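import Mathlib
import Pool.Agent.TH103.VD.Dbl

/-!
The extension of the Hantzsche-Wendt group by a rotation of infinite order: presentation, lifting
through the centre, relations.
-/

set_option autoImplicit false

namespace Pool.Agent.TH103.VD

open Function

section central

variable {G : Type} [Group G] {a t v w : G}

/-- the twisted relations with central defects -/
structure CRel (a t v w : G) : Prop where
  vc : ∀ g : G, g * v = v * g
  wc : ∀ g : G, g * w = w * g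
  abc : a * (t * a * t⁻¹) * (t * (t * a * t⁻¹) * t⁻¹) = w
  sq : (t * a * t⁻¹) * (a * a) * (t * a * t⁻¹)⁻¹ * (a * a) = v

theorem CRel.tct (h : CRel a t v w) : t * (t * (t * a * t⁻¹) * t⁻¹) * t⁻¹ = a := by
  have h1 : t * (a * (t * a * t⁻¹) * (t * (t * a * t⁻¹) * t⁻¹)) * t⁻¹ = w := by
    rw [h.abc, h.wc, mul_inv_cancel_right]
  have h2 : t * (a * (t * a * t⁻¹) * (t * (t * a * t⁻¹) * t⁻¹)) * t⁻¹ =
      (a⁻¹ * (a * (t * a * t⁻¹) * (t * (t * a * t⁻¹) * t⁻¹))) *
        (t * (t * (t * a * t⁻¹) * t⁻¹) * t⁻¹) := by group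
  rw [h1, h.abc] at h2
  have h3 : (a⁻¹ * w)⁻¹ * w = t * (t * (t * a * t⁻¹) * t⁻¹) * t⁻¹ := by
    rw [inv_mul_eq_iff_eq_mul]
    exact h2
  rw [← h3, mul_inv_rev, inv_inv, mul_assoc, h.wc a, inv_mul_cancel_left]

/-- `b a² b⁻¹` -/
theorem CRel.k1 (h : CRel a t v w) :
    (t * a * t⁻¹) * (a * a) * (t * a * t⁻¹)⁻¹ = v * (a * a)⁻¹ :=
  eq_mul_inv_of_mul_eq h.sq

theorem conj_sq (t a b : G) : t * (b * (a * a) * b⁻¹) * t⁻¹ =
    (t * b * t⁻¹) * ((t * a * t⁻¹) * (t * a * t⁻¹)) * (t * b * t⁻¹)⁻¹ := by group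

theorem CRel.conj_v (h : CRel a t v w) (t x : G) :
    t * (v * (x * x)⁻¹) * t⁻¹ = v * ((t * x * t⁻¹) * (t * x * t⁻¹))⁻¹ := by
  rw [← mul_assoc, h.vc]
  group

/-- `c b² c⁻¹` -/
theorem CRel.k2 (h : CRel a t v w) :
    (t * (t * a * t⁻¹) * t⁻¹) * ((t * a * t⁻¹) * (t * a * t⁻¹)) * (t * (t * a * t⁻¹) * t⁻¹)⁻¹ =
      v * ((t * a * t⁻¹) * (t * a * t⁻¹))⁻¹ := by
  rw [← conj_sq, h.k1, h.conj_v]

/-- `a c² a⁻¹` -/
theorem CRel.k3 (h : CRel a t v w) :
    a * ((t * (t * a * t⁻¹) * t⁻¹) * (t * (t * a * t⁻¹) * t⁻¹)) * a⁻¹ =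
      v * ((t * (t * a * t⁻¹) * t⁻¹) * (t * (t * a * t⁻¹) * t⁻¹))⁻¹ := by
  have h1 := congrArg (fun x => t * x * t⁻¹) h.k2
  rw [conj_sq, h.tct, h.conj_v] at h1
  exact h1

theorem k5_aux {a b c v w : G} (hv : ∀ g : G, g * v = v * g) (hw : ∀ g : G, g * w = w * g)
    (h1 : a * b * c = w) (h0 : c * (b * b) * c⁻¹ = v * (b * b)⁻¹) :
    a⁻¹ * (b * b) * a = v * (b * b)⁻¹ := by
  have h2 : c = (a * b)⁻¹ * w := by rw [← h1]; group
  have e : (b * b) * w⁻¹ = w⁻¹ * (b * b) := by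
    rw [mul_inv_eq_iff_eq_mul, mul_assoc w⁻¹, hw (b * b), inv_mul_cancel_left]
  have h3 : c * (b * b) * c⁻¹ = b⁻¹ * (a⁻¹ * (b * b) * a) * b := by
    rw [h2]
    calc (a * b)⁻¹ * w * (b * b) * ((a * b)⁻¹ * w)⁻¹ =
          (a * b)⁻¹ * (w * ((b * b) * w⁻¹)) * (a * b) := by group
      _ = (a * b)⁻¹ * (b * b) * (a * b) := by rw [e, mul_inv_cancel_left]
      _ = _ := by group
  rw [h3] at h0
  have h4 : a⁻¹ * (b * b) * a = b * (v * (b * b)⁻¹) * b⁻¹ := by
    rw [← h0]; group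
  rw [h4, ← mul_assoc b, hv b]
  group

/-- `a⁻¹ b² a` -/
theorem CRel.k5 (h : CRel a t v w) :
    a⁻¹ * ((t * a * t⁻¹) * (t * a * t⁻¹)) * a = v * ((t * a * t⁻¹) * (t * a * t⁻¹))⁻¹ :=
  k5_aux h.vc h.wc h.abc h.k2

theorem main_aux {a b c v w : G} (hv : ∀ g : G, g * v = v * g) (hw : ∀ g : G, g * w = w * g)
    (h1 : a * b * c = w) (h0 : b * (a * a) * b⁻¹ = v * (a * a)⁻¹)
    (h3 : a * (c * c) * a⁻¹ = v * (c * c)⁻¹) (h5 : a⁻¹ * (b * b) * a = v * (b * b)⁻¹) :
    w * w * (w * w) = v * v * v := by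
  have h2 : c = (a * b)⁻¹ * w := by rw [← h1]; group
  have h6 : c * c = (a * b)⁻¹ * (a * b)⁻¹ * (w * w) := by
    rw [h2]
    calc (a * b)⁻¹ * w * ((a * b)⁻¹ * w) = (a * b)⁻¹ * (w * (a * b)⁻¹) * w := by
          simp only [mul_assoc]
      _ = (a * b)⁻¹ * ((a * b)⁻¹ * w) * w := by rw [← hw (a * b)⁻¹]
      _ = _ := by simp only [mul_assoc]
  have h7 : a * (b * b) * a = v * (a * a) * (b * b)⁻¹ := by
    have e : a * (b * b) * a = a * a * (a⁻¹ * (b * b) * a) := by group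
    rw [e, h5, ← mul_assoc (a * a), hv (a * a)]
  have hww : ∀ g : G, g * (w * w) = (w * w) * g := fun g => by
    rw [← mul_assoc, hw g, mul_assoc, hw g, ← mul_assoc]
  -- compare the two sides of `k3`
  have h8 : a * ((a * b)⁻¹ * (a * b)⁻¹ * (w * w)) * a⁻¹ =
      v * ((a * b)⁻¹ * (a * b)⁻¹ * (w * w))⁻¹ := by
    rw [← h6]; exact h3
  generalize hp : a * b = p at h8
  generalize hW : w * w = W at h8 hww
  have e1 : a * (p⁻¹ * p⁻¹ * W) * a⁻¹ = W * (a * (p⁻¹ * p⁻¹) * a⁻¹) := by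
    rw [hww (p⁻¹ * p⁻¹), ← mul_assoc a, hww a]
    group
  have e2 : (p⁻¹ * p⁻¹ * W)⁻¹ = p * p * W⁻¹ := by
    rw [hww (p⁻¹ * p⁻¹), mul_inv_rev, mul_inv_rev, inv_inv]
  rw [e1, e2] at h8
  have h9 : W * W = a * (p * p) * a⁻¹ * (v * (p * p)) := by
    calc W * W = (a * (p * p) * a⁻¹) * (a * (p⁻¹ * p⁻¹) * a⁻¹) * W * W := by group
      _ = (a * (p * p) * a⁻¹) * ((a * (p⁻¹ * p⁻¹) * a⁻¹) * W) * W := by simp only [mul_assoc]
      _ = (a * (p * p) * a⁻¹) * (W * (a * (p⁻¹ * p⁻¹) * a⁻¹)) * W := by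
          rw [hww (a * (p⁻¹ * p⁻¹) * a⁻¹)]
      _ = (a * (p * p) * a⁻¹) * (v * (p * p * W⁻¹)) * W := by rw [h8]
      _ = _ := by group
  have h10 : a * (p * p) * a⁻¹ * (v * (p * p)) = v * (a * (p * p) * a⁻¹ * (p * p)) := by
    rw [← mul_assoc, hv (a * (p * p) * a⁻¹), mul_assoc]
  have h11 : a * (p * p) * a⁻¹ * (p * p) = (a * a) * (b * (a * (b * b) * a)) * b := by
    rw [← hp]; group
  have h12 : b * (a * (b * b) * a) = v * (b * (a * a)) * (b * b)⁻¹ := by
    rw [h7, mul_assoc v, ← mul_assoc b, hv b]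
    group
  have h13 : (a * a) * (b * (a * (b * b) * a)) * b = v * (a * a) * (b * (a * a) * b⁻¹) := by
    rw [h12, mul_assoc v, ← mul_assoc (a * a) v, hv (a * a)]
    group
  have h14 : v * (a * a) * (b * (a * a) * b⁻¹) = v * v := by
    rw [h0, mul_assoc v, ← mul_assoc (a * a) v, hv (a * a)]
    group
  rw [h9, h10, h11, h13, h14, mul_assoc]

/-- the main identity -/
theorem CRel.main (h : CRel a t v w) : w * w * (w * w) = v * v * v :=
  main_aux h.vc h.wc h.abc h.k1 h.k3 h.k5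

/-- the correcting central element -/
theorem exists_corr {v w : G} (hv : ∀ g : G, g * v = v * g) (hw : ∀ g : G, g * w = w * g)
    (h : w * w * (w * w) = v * v * v) :
    ∃ z : G, (∀ g, g * z = z * g) ∧ z * z * z = w⁻¹ ∧ z * z * (z * z) = v⁻¹ := by
  have c1 : ∀ g : G, Commute g w := hw
  have c2 : ∀ g : G, Commute g v := hv
  refine ⟨w * v⁻¹, fun g => (c1 g).mul_right (c2 g).inv_right, ?_, ?_⟩
  · have h1 := ((c2 w).inv_right).mul_pow 3
    simp only [pow_succ, pow_zero, one_mul] at h1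
    rw [h1]
    have h2 : v⁻¹ * v⁻¹ * v⁻¹ = (w * w * (w * w))⁻¹ := by rw [h]; group
    rw [h2]; group
  · have h1 := ((c2 w).inv_right).mul_pow 4
    simp only [pow_succ, pow_zero, one_mul] at h1
    have h2 : w * v⁻¹ * (w * v⁻¹) * (w * v⁻¹ * (w * v⁻¹)) =
      w * v⁻¹ * (w * v⁻¹) * (w * v⁻¹) * (w * v⁻¹) := by simp only [mul_assoc]
    have h3 : w * w * w * w = v * v * v := by rw [← h]; simp only [mul_assoc]
    rw [h2, h1, h3]; group

/-- correction of the relations -/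
theorem CRel.corr {A T z : G} (hz : ∀ g, g * z = z * g) :
    ((A * z) * (T * (A * z) * T⁻¹) * (T * (T * (A * z) * T⁻¹) * T⁻¹) =
      (A * (T * A * T⁻¹) * (T * (T * A * T⁻¹) * T⁻¹)) * (z * z * z)) ∧
    ((T * (A * z) * T⁻¹) * ((A * z) * (A * z)) * (T * (A * z) * T⁻¹)⁻¹ * ((A * z) * (A * z)) =
      ((T * A * T⁻¹) * (A * A) * (T * A * T⁻¹)⁻¹ * (A * A)) * (z * z * (z * z))) := by
  have hconj : ∀ g x : G, g * (x * z) * g⁻¹ = (g * x * g⁻¹) * z := by
    intro g x
    rw [← mul_assoc, mul_assoc (g * x), ← hz g⁻¹, ← mul_assoc]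
  have hzz : ∀ g : G, g * (z * z) = z * z * g := fun g => by
    rw [← mul_assoc, hz g, mul_assoc, hz g, ← mul_assoc]
  rw [hconj, hconj]
  generalize T * A * T⁻¹ = B
  generalize T * B * T⁻¹ = C
  constructor
  · calc A * z * (B * z) * (C * z) = A * (z * B) * (z * C) * z := by simp only [mul_assoc]
      _ = A * (B * z) * (C * z) * z := by rw [← hz B, ← hz C]
      _ = A * B * (z * C) * (z * z) := by simp only [mul_assoc]
      _ = A * B * (C * z) * (z * z) := by rw [← hz C]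
      _ = A * B * C * (z * z * z) := by simp only [mul_assoc]
  · have a1 : (A * z) * (A * z) = A * A * (z * z) := by
      calc (A * z) * (A * z) = A * (z * A) * z := by simp only [mul_assoc]
        _ = A * (A * z) * z := by rw [← hz A]
        _ = _ := by simp only [mul_assoc]
    rw [a1]
    calc B * z * (A * A * (z * z)) * (B * z)⁻¹ * (A * A * (z * z)) =
        B * (z * (A * A)) * z * B⁻¹ * (A * A * (z * z)) := by group
      _ = B * ((A * A) * z) * z * B⁻¹ * (A * A * (z * z)) := by rw [← hz (A * A)]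
      _ = B * (A * A) * ((z * z) * B⁻¹) * (A * A * (z * z)) := by simp only [mul_assoc]
      _ = B * (A * A) * (B⁻¹ * (z * z)) * (A * A * (z * z)) := by rw [hzz B⁻¹]
      _ = B * (A * A) * B⁻¹ * ((z * z) * (A * A)) * (z * z) := by simp only [mul_assoc]
      _ = B * (A * A) * B⁻¹ * ((A * A) * (z * z)) * (z * z) := by rw [hzz (A * A)]
      _ = _ := by simp only [mul_assoc]

end central

/-! ### The presented group -/

/-- relators -/
def relsE : Set (FreeGroup (Fin 2)) :=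
  {FreeGroup.of 0 * (FreeGroup.of 1 * FreeGroup.of 0 * (FreeGroup.of 1)⁻¹) *
      (FreeGroup.of 1 * (FreeGroup.of 1 * FreeGroup.of 0 * (FreeGroup.of 1)⁻¹) *
        (FreeGroup.of 1)⁻¹),
    (FreeGroup.of 1 * FreeGroup.of 0 * (FreeGroup.of 1)⁻¹) * (FreeGroup.of 0 * FreeGroup.of 0) *
      (FreeGroup.of 1 * FreeGroup.of 0 * (FreeGroup.of 1)⁻¹)⁻¹ *
      (FreeGroup.of 0 * FreeGroup.of 0)}

/-- the group -/
abbrev EE : Type := PresentedGroup relsE

/-- the generator `a` -/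
def ea : EE := PresentedGroup.of 0

/-- the generator `t` -/
def et : EE := PresentedGroup.of 1

/-- `b` -/
def eb : EE := et * ea * et⁻¹

/-- `c` -/
def ec : EE := et * eb * et⁻¹

theorem EE_fp : Group.IsFinitelyPresented EE := by
  have : Finite relsE := by
    have : relsE.Finite := by
      unfold relsE
      exact (Set.finite_singleton _).insert _
    exact this
  infer_instance

theorem EE_abc : ea * eb * ec = 1 := by
  apply (QuotientGroup.eq_one_iff _).mpr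
  exact Subgroup.subset_normalClosure (Or.inl rfl)

theorem EE_sq : eb * (ea * ea) * eb⁻¹ * (ea * ea) = 1 := by
  apply (QuotientGroup.eq_one_iff _).mpr
  exact Subgroup.subset_normalClosure (Or.inr rfl)

theorem EE_crel : CRel ea et 1 1 :=
  ⟨fun g => by simp, fun g => by simp, EE_abc, EE_sq⟩

theorem EE_lift {G : Type} [Group G] (A T : G) (h1 : A * (T * A * T⁻¹) *
    (T * (T * A * T⁻¹) * T⁻¹) = 1) (h2 : (T * A * T⁻¹) * (A * A) * (T * A * T⁻¹)⁻¹ * (A * A) = 1) :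
    ∃ f : EE →* G, f ea = A ∧ f et = T := by
  have hr : ∀ r ∈ relsE, FreeGroup.lift ![A, T] r = 1 := by
    rintro r (rfl | rfl)
    · simp only [map_mul, map_inv, FreeGroup.lift_apply_of, Matrix.cons_val_zero,
        Matrix.cons_val_one]
      exact h1
    · simp only [map_mul, map_inv, FreeGroup.lift_apply_of, Matrix.cons_val_zero,
        Matrix.cons_val_one]
      exact h2
  refine ⟨PresentedGroup.toGroup hr, ?_, ?_⟩
  · exact PresentedGroup.toGroup.of hr
  · exact PresentedGroup.toGroup.of hr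

theorem EE_ext {G : Type} [Group G] {f g : EE →* G} (h1 : f ea = g ea) (h2 : f et = g et) :
    f = g := by
  apply PresentedGroup.ext
  intro i
  fin_cases i
  · exact h1
  · exact h2

theorem EE_LP : LP EE := by
  intro G _ f
  obtain ⟨A, hA⟩ := QuotientGroup.mk_surjective (f ea)
  obtain ⟨T, hT⟩ := QuotientGroup.mk_surjective (f et)
  have hmem : ∀ x : G, (QuotientGroup.mk x : G ⧸ Subgroup.center G) = 1 → ∀ g, g * x = x * g := by
    intro x hx
    rw [QuotientGroup.eq_one_iff] at hx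
    exact Subgroup.mem_center_iff.mp hx
  let p : G →* G ⧸ Subgroup.center G := QuotientGroup.mk' _
  have hpA : p A = f ea := hA
  have hpT : p T = f et := hT
  have h : CRel A T ((T * A * T⁻¹) * (A * A) * (T * A * T⁻¹)⁻¹ * (A * A))
      (A * (T * A * T⁻¹) * (T * (T * A * T⁻¹) * T⁻¹)) := by
    refine ⟨hmem _ ?_, hmem _ ?_, rfl, rfl⟩
    · change p _ = 1
      simp only [map_mul, map_inv, hpA, hpT]
      have := congrArg f EE_sq
      simp only [eb, map_mul, map_inv, map_one] at this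
      exact this
    · change p _ = 1
      simp only [map_mul, map_inv, hpA, hpT]
      have := congrArg f EE_abc
      simp only [ec, eb, map_mul, map_inv, map_one] at this
      exact this
  generalize hv : (T * A * T⁻¹) * (A * A) * (T * A * T⁻¹)⁻¹ * (A * A) = v at h
  generalize hw : A * (T * A * T⁻¹) * (T * (T * A * T⁻¹) * T⁻¹) = w at h
  obtain ⟨z, hz, hz3, hz4⟩ := exists_corr h.vc h.wc h.main
  obtain ⟨e1, e2⟩ := CRel.corr (A := A) (T := T) hz
  rw [hw, hz3, mul_inv_cancel] at e1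
  rw [hv, hz4, mul_inv_cancel] at e2
  obtain ⟨g, ga, gt⟩ := EE_lift (A * z) T e1 e2
  refine ⟨g, ?_⟩
  have : p.comp g = f := by
    apply EE_ext
    · rw [MonoidHom.comp_apply, ga, map_mul, hpA]
      have : p z = 1 := (QuotientGroup.eq_one_iff _).mpr (Subgroup.mem_center_iff.mpr hz)
      rw [this, mul_one]
    · rw [MonoidHom.comp_apply, gt, hpT]
  intro k
  exact DFunLike.congr_fun this k

end Pool.Agent.TH103.VD
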