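import Mathlib
import Pool.Agent.TH103.VD.EE

/-!
Normal forms in the presented group.
-/

set_option autoImplicit false

namespace Pool.Agent.TH103.VD

open Function

/-- `x = a²` -/
def ex : EE := ea * ea
/-- `y = b²` -/
def ey : EE := eb * eb
/-- `z = c²` -/
def ez : EE := ec * ec

theorem tet1 : et * ea * et⁻¹ = eb := rfl
theorem tet2 : et * eb * et⁻¹ = ec := rfl
theorem tet3 : et * ec * et⁻¹ = ea := EE_crel.tct

theorem tex : et * ex * et⁻¹ = ey := by
  have : et * ex * et⁻¹ = (et * ea * et⁻¹) * (et * ea * et⁻¹) := by unfold ex; group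
  rw [this, tet1]; rfl
theorem tey : et * ey * et⁻¹ = ez := by
  have : et * ey * et⁻¹ = (et * eb * et⁻¹) * (et * eb * et⁻¹) := by unfold ey; group
  rw [this, tet2]; rfl
theorem tez : et * ez * et⁻¹ = ex := by
  have : et * ez * et⁻¹ = (et * ec * et⁻¹) * (et * ec * et⁻¹) := by unfold ez; group
  rw [this, tet3]; rfl

theorem ayz : ea * ez * ea⁻¹ = ez⁻¹ := by
  have := EE_crel.k3
  rw [one_mul] at this
  exact this

theorem ay : ea * ey * ea⁻¹ = ey⁻¹ := by
  have := EE_crel.k5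
  rw [one_mul] at this
  have h1 : ea⁻¹ * ey * ea = ey⁻¹ := this
  have h2 : ey = ea * ey⁻¹ * ea⁻¹ := by rw [← h1]; group
  have h3 : ea * ey * ea⁻¹ = (ea * ey⁻¹ * ea⁻¹)⁻¹ := by group
  rw [h3, ← h2]

theorem ax : ea * ex * ea⁻¹ = ex := by
  unfold ex; group

theorem cxy : Commute ex ey := by
  have h : ex * ey * ex⁻¹ = ey := by
    have : ex * ey * ex⁻¹ = ea * (ea * ey * ea⁻¹) * ea⁻¹ := by unfold ex; group
    rw [this, ay]
    have : ea * ey⁻¹ * ea⁻¹ = (ea * ey * ea⁻¹)⁻¹ := by group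
    rw [this, ay, inv_inv]
  exact mul_inv_eq_iff_eq_mul.mp h

theorem cyz : Commute ey ez := by
  have h := cxy.eq
  have h1 : et * (ex * ey) * et⁻¹ = et * (ey * ex) * et⁻¹ := by rw [h]
  have h2 : et * (ex * ey) * et⁻¹ = (et * ex * et⁻¹) * (et * ey * et⁻¹) := by group
  have h3 : et * (ey * ex) * et⁻¹ = (et * ey * et⁻¹) * (et * ex * et⁻¹) := by group
  rw [h2, h3, tex, tey] at h1
  exact h1

theorem czx : Commute ez ex := by
  have h := cyz.eq
  have h1 : et * (ey * ez) * et⁻¹ = et * (ez * ey) * et⁻¹ := by rw [h]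
  have h2 : et * (ey * ez) * et⁻¹ = (et * ey * et⁻¹) * (et * ez * et⁻¹) := by group
  have h3 : et * (ez * ey) * et⁻¹ = (et * ez * et⁻¹) * (et * ey * et⁻¹) := by group
  rw [h2, h3, tey, tez] at h1
  exact h1

theorem eab : ea * eb = ez⁻¹ * ec := by
  have h := EE_abc
  have h1 : ea * eb = ec⁻¹ := eq_inv_of_mul_eq_one_left h
  rw [h1]; unfold ez; group

theorem eac : ea * ec = ex * ez⁻¹ * eb := by
  have h1 : ea * eb = ec⁻¹ := eq_inv_of_mul_eq_one_left EE_abc
  have h2 : ea * ec = (ea * ez * ea⁻¹) * ea * ec⁻¹ := by unfold ez; group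
  rw [h2, ayz, ← h1]
  have h3 : ez⁻¹ * ea * (ea * eb) = (ez⁻¹ * ex) * eb := by unfold ex; group
  rw [h3, (czx.inv_left).eq]

/-- the normal form -/
def nf (i j k : ℤ) (r : EE) (l : ℤ) : EE := ex ^ i * ey ^ j * ez ^ k * r * et ^ l

theorem conj_zpow' (g x : EE) (i : ℤ) : g * x ^ i * g⁻¹ = (g * x * g⁻¹) ^ i := (conj_zpow).symm

theorem nf_mul (i j k i' j' k' : ℤ) (r : EE) (l : ℤ) :
    ex ^ i * ey ^ j * ez ^ k * nf i' j' k' r l = nf (i + i') (j + j') (k + k') r l := by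
  unfold nf
  have c1 : Commute (ez ^ k) (ex ^ i') := czx.zpow_zpow _ _
  have c2 : Commute (ey ^ j) (ex ^ i') := cxy.symm.zpow_zpow _ _
  have c3 : Commute (ez ^ k) (ey ^ j') := cyz.symm.zpow_zpow _ _
  calc ex ^ i * ey ^ j * ez ^ k * (ex ^ i' * ey ^ j' * ez ^ k' * r * et ^ l) =
      ex ^ i * ey ^ j * (ez ^ k * ex ^ i') * ey ^ j' * ez ^ k' * r * et ^ l := by
        simp only [mul_assoc]
    _ = ex ^ i * (ey ^ j * ex ^ i') * (ez ^ k * ey ^ j') * ez ^ k' * r * et ^ l := by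
        rw [c1.eq]; simp only [mul_assoc]
    _ = ex ^ i * (ex ^ i' * ey ^ j) * (ey ^ j' * ez ^ k) * ez ^ k' * r * et ^ l := by
        rw [c2.eq, c3.eq]
    _ = (ex ^ i * ex ^ i') * (ey ^ j * ey ^ j') * (ez ^ k * ez ^ k') * r * et ^ l := by
        simp only [mul_assoc]
    _ = _ := by rw [← zpow_add, ← zpow_add, ← zpow_add]

theorem a_nf (i j k : ℤ) (r : EE) (l : ℤ) :
    ea * nf i j k r l = nf i (-j) (-k) (ea * r) l := by
  unfold nf
  have h1 : ea * (ex ^ i * ey ^ j * ez ^ k * r * et ^ l) =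
      (ea * ex ^ i * ea⁻¹) * (ea * ey ^ j * ea⁻¹) * (ea * ez ^ k * ea⁻¹) * (ea * r) * et ^ l := by
    group
  rw [h1, conj_zpow', conj_zpow', conj_zpow', ax, ay, ayz, inv_zpow', inv_zpow']

theorem t_nf (i j k : ℤ) (r : EE) (l : ℤ) :
    et * nf i j k r l = nf k i j (et * r * et⁻¹) (l + 1) := by
  unfold nf
  have h1 : et * (ex ^ i * ey ^ j * ez ^ k * r * et ^ l) =
      ((et * ex ^ i * et⁻¹) * (et * ey ^ j * et⁻¹) * (et * ez ^ k * et⁻¹)) * (et * r * et⁻¹) *
        (et * et ^ l) := by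
    group
  rw [h1, conj_zpow', conj_zpow', conj_zpow', tex, tey, tez]
  have h2 : ey ^ i * ez ^ j * ex ^ k = ex ^ k * ey ^ i * ez ^ j := by
    have c1 : Commute (ez ^ j) (ex ^ k) := czx.zpow_zpow _ _
    have c2 : Commute (ey ^ i) (ex ^ k) := cxy.symm.zpow_zpow _ _
    rw [mul_assoc, c1.eq, ← mul_assoc, c2.eq]
  rw [h2, zpow_add, zpow_one, (Commute.refl et).zpow_left l |>.eq]

theorem tinv_nf (i j k : ℤ) (r : EE) (l : ℤ) :
    et⁻¹ * nf i j k r l = nf j k i (et⁻¹ * r * et) (l - 1) := by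
  have h := t_nf j k i (et⁻¹ * r * et) (l - 1)
  have e1 : et * (et⁻¹ * r * et) * et⁻¹ = r := by group
  rw [e1, sub_add_cancel] at h
  rw [← h, inv_mul_cancel_left]

/-- the possible middle parts -/
def IsR (r : EE) : Prop := r = 1 ∨ r = ea ∨ r = eb ∨ r = ec

theorem exists_nf (g : EE) : ∃ i j k l : ℤ, ∃ r, IsR r ∧ g = nf i j k r l := by
  have hg : g ∈ Subgroup.closure (Set.range (PresentedGroup.of : Fin 2 → PresentedGroup relsE)) := by
    rw [PresentedGroup.closure_range_of]; trivial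
  have ha : ∀ y : EE, (∃ i j k l : ℤ, ∃ r, IsR r ∧ y = nf i j k r l) →
      (∃ i j k l : ℤ, ∃ r, IsR r ∧ ea * y = nf i j k r l) := by
    rintro y ⟨i, j, k, l, r, hr, rfl⟩
    rw [a_nf]
    rcases hr with rfl | rfl | rfl | rfl
    · exact ⟨i, -j, -k, l, ea, Or.inr (Or.inl rfl), by rw [mul_one]⟩
    · refine ⟨i + 1, -j, -k, l, 1, Or.inl rfl, ?_⟩
      have := nf_mul i (-j) (-k) 1 0 0 1 l
      rw [add_zero, add_zero] at this
      rw [← this]
      unfold nf ex
      group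
    · refine ⟨i, -j, -k - 1, l, ec, Or.inr (Or.inr (Or.inr rfl)), ?_⟩
      rw [eab]
      unfold nf
      rw [← mul_assoc, sub_eq_add_neg, zpow_add, zpow_neg_one]
      simp only [mul_assoc]
    · refine ⟨i + 1, -j, -k - 1, l, eb, Or.inr (Or.inr (Or.inl rfl)), ?_⟩
      rw [eac]
      have := nf_mul i (-j) (-k) 1 0 (-1) eb l
      rw [add_zero, ← sub_eq_add_neg] at this
      rw [← this]
      unfold nf
      rw [zpow_one, zpow_zero, zpow_neg_one, mul_one]
      simp only [mul_assoc]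
  have hx : ∀ y : EE, (∃ i j k l : ℤ, ∃ r, IsR r ∧ y = nf i j k r l) →
      (∃ i j k l : ℤ, ∃ r, IsR r ∧ ea⁻¹ * y = nf i j k r l) := by
    intro y hy
    obtain ⟨i, j, k, l, r, hr, h⟩ := ha y hy
    refine ⟨-1 + i, j, k, l, r, hr, ?_⟩
    have := nf_mul (-1) 0 0 i j k r l
    rw [zero_add, zero_add] at this
    rw [← this, ← h]
    unfold ex
    group
  induction hg using Subgroup.closure_induction_left with
  | one => exact ⟨0, 0, 0, 0, 1, Or.inl rfl, by simp [nf]⟩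
  | mul_left x hx' y hy ih =>
    obtain ⟨m, rfl⟩ := hx'
    fin_cases m
    · exact ha y ih
    · obtain ⟨i, j, k, l, r, hr, h⟩ := ih
      change ∃ i j k l : ℤ, ∃ r, IsR r ∧ et * y = nf i j k r l
      rw [h, t_nf]
      refine ⟨_, _, _, _, _, ?_, rfl⟩
      rcases hr with rfl | rfl | rfl | rfl
      · left; group
      · right; right; left; rfl
      · right; right; right; rfl
      · right; left; exact tet3
  | inv_mul_cancel x hx' y hy ih =>
    obtain ⟨m, rfl⟩ := hx'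
    fin_cases m
    · exact hx y ih
    · obtain ⟨i, j, k, l, r, hr, h⟩ := ih
      change ∃ i j k l : ℤ, ∃ r, IsR r ∧ et⁻¹ * y = nf i j k r l
      rw [h, tinv_nf]
      refine ⟨_, _, _, _, _, ?_, rfl⟩
      rcases hr with rfl | rfl | rfl | rfl
      · left; group
      · right; right; right; rw [← tet3]; group
      · right; left; rw [← tet1]; group
      · right; right; left; rw [← tet2]; group

end Pool.Agent.TH103.VD
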