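import Mathlib
import Pool.Agent.TH103.VD.NF

/-!
Representations of the presented group.
-/

set_option autoImplicit false

namespace Pool.Agent.TH103.VD

open Function DihedralGroup

/-- dihedral groups -/
abbrev DD (n : ℕ) := DihedralGroup (2 * n)

/-- the target groups -/
abbrev AA (n : ℕ) := Equiv.Perm (Fin 3 × DD n) × Multiplicative (ZMod n)

/-- rotation of the coordinates -/
def sg : Equiv.Perm (Fin 3) := finRotate 3

/-- the image of `a` -/
def fa (n : ℕ) : Fin 3 → DD n := ![r 1, sr 0, sr (-1)]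
/-- the image of `b` -/
def fb (n : ℕ) : Fin 3 → DD n := ![sr 0, sr (-1), r 1]
/-- the image of `c` -/
def fc (n : ℕ) : Fin 3 → DD n := ![sr (-1), r 1, sr 0]

theorem fa_sg (n : ℕ) : fa n ∘ sg = fb n := by
  funext i; fin_cases i <;> rfl
theorem fb_sg (n : ℕ) : fb n ∘ sg = fc n := by
  funext i; fin_cases i <;> rfl
theorem fc_sg (n : ℕ) : fc n ∘ sg = fa n := by
  funext i; fin_cases i <;> rfl

theorem sg3 : sg ^ 3 = 1 := by decide

/-- image of `t` in the permutation group -/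
def St (n : ℕ) : Equiv.Perm (Fin 3 × DD n) := (Sw (DD n) sg)⁻¹

theorem St3 (n : ℕ) : St n ^ 3 = 1 := by
  have h : (Sw (DD n) sg) ^ 3 = 1 := by
    apply Equiv.ext
    rintro ⟨i, d⟩
    fin_cases i <;> rfl
  rw [St, inv_pow, h, inv_one]

theorem St_conj (n : ℕ) (f : Fin 3 → DD n) :
    St n * Pw _ _ f * (St n)⁻¹ = Pw _ _ (f ∘ sg) := Sw_conj sg f

theorem exists_psi (n : ℕ) : ∃ ψ : EE →* AA n, ψ ea = (Pw _ _ (fa n), 1) ∧
    ψ et = (St n, Multiplicative.ofAdd 1) := by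
  apply EE_lift
  · apply Prod.ext
    · change Pw _ _ (fa n) * (St n * Pw _ _ (fa n) * (St n)⁻¹) *
        (St n * (St n * Pw _ _ (fa n) * (St n)⁻¹) * (St n)⁻¹) = 1
      rw [St_conj, St_conj, fa_sg, fb_sg, ← map_mul, ← map_mul]
      have : fa n * fb n * fc n = 1 := by
        funext i
        fin_cases i <;> simp [fa, fb, fc]
      rw [this, map_one]
    · simp
  · apply Prod.ext
    · change (St n * Pw _ _ (fa n) * (St n)⁻¹) * (Pw _ _ (fa n) * Pw _ _ (fa n)) *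
        (St n * Pw _ _ (fa n) * (St n)⁻¹)⁻¹ * (Pw _ _ (fa n) * Pw _ _ (fa n)) = 1
      rw [St_conj, fa_sg, ← map_inv, ← map_mul, ← map_mul, ← map_mul, ← map_mul]
      have : fb n * (fa n * fa n) * (fb n)⁻¹ * (fa n * fa n) = 1 := by
        funext i
        fin_cases i <;> simp [fa, fb]
      rw [this, map_one]
    · simp

/-- the representation -/
noncomputable def psi (n : ℕ) : EE →* AA n := (exists_psi n).choose

theorem psi_a (n : ℕ) : psi n ea = (Pw _ _ (fa n), 1) := (exists_psi n).choose_spec.1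
theorem psi_t (n : ℕ) : psi n et = (St n, Multiplicative.ofAdd 1) := (exists_psi n).choose_spec.2

theorem psi_conj (n : ℕ) {g : EE} {f : Fin 3 → DD n} (h : psi n g = (Pw _ _ f, 1)) :
    psi n (et * g * et⁻¹) = (Pw _ _ (f ∘ sg), 1) := by
  rw [map_mul, map_mul, map_inv, h, psi_t]
  apply Prod.ext
  · exact St_conj n f
  · simp

theorem psi_b (n : ℕ) : psi n eb = (Pw _ _ (fb n), 1) := by
  rw [← fa_sg]; exact psi_conj n (psi_a n)
theorem psi_c (n : ℕ) : psi n ec = (Pw _ _ (fc n), 1) := by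
  rw [← fb_sg]; exact psi_conj n (psi_b n)

/-- the function of a normal form -/
def Fx (n : ℕ) (i j k : ℤ) : Fin 3 → DD n :=
  ![r ((2 * i : ℤ) : ZMod (2 * n)), r ((2 * k : ℤ) : ZMod (2 * n)), r ((2 * j : ℤ) : ZMod (2 * n))]

theorem psi_xyz (n : ℕ) (i j k : ℤ) :
    psi n (ex ^ i * ey ^ j * ez ^ k) = (Pw _ _ (Fx n i j k), 1) := by
  have hx : psi n ex = (Pw _ _ (fa n * fa n), 1) := by
    unfold ex
    rw [map_mul, psi_a, map_mul]; simp
  have hy : psi n ey = (Pw _ _ (fb n * fb n), 1) := by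
    unfold ey
    rw [map_mul, psi_b, map_mul]; simp
  have hz : psi n ez = (Pw _ _ (fc n * fc n), 1) := by
    unfold ez
    rw [map_mul, psi_c, map_mul]; simp
  rw [map_mul, map_mul, map_zpow, map_zpow, map_zpow, hx, hy, hz]
  apply Prod.ext
  · change Pw _ _ (fa n * fa n) ^ i * Pw _ _ (fb n * fb n) ^ j * Pw _ _ (fc n * fc n) ^ k = _
    rw [← map_zpow, ← map_zpow, ← map_zpow, ← map_mul, ← map_mul]
    congr 1
    funext m
    fin_cases m
    · simp [fa, fb, fc, Fx, r_zpow]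
      congr 1
      ring
    · simp [fa, fb, fc, Fx, r_zpow]
      congr 1
      ring
    · simp [fa, fb, fc, Fx, r_zpow]
      congr 1
      ring
  · simp

/-- the middle functions -/
theorem psi_r (n : ℕ) {g : EE} (h : IsR g) : ∃ ρ : Fin 3 → DD n, psi n g = (Pw _ _ ρ, 1) ∧
    ((g = 1 ∧ ρ = 1) ∨ (g = ea ∧ ρ = fa n) ∨ (g = eb ∧ ρ = fb n) ∨ (g = ec ∧ ρ = fc n)) := by
  rcases h with rfl | rfl | rfl | rfl
  · refine ⟨1, ?_, Or.inl ⟨rfl, rfl⟩⟩
    rw [map_one, map_one]; rfl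
  · exact ⟨fa n, psi_a n, Or.inr (Or.inl ⟨rfl, rfl⟩)⟩
  · exact ⟨fb n, psi_b n, Or.inr (Or.inr (Or.inl ⟨rfl, rfl⟩))⟩
  · exact ⟨fc n, psi_c n, Or.inr (Or.inr (Or.inr ⟨rfl, rfl⟩))⟩

theorem psi_nf (n : ℕ) (i j k : ℤ) {g : EE} {ρ : Fin 3 → DD n} (h : psi n g = (Pw _ _ ρ, 1))
    (l : ℤ) : psi n (nf i j k g l) = (Pw _ _ (Fx n i j k * ρ) * St n ^ l,
      Multiplicative.ofAdd (l : ZMod n)) := by
  unfold nf
  rw [map_mul, map_mul, psi_xyz, h, map_zpow, psi_t, map_mul]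
  apply Prod.ext
  · rfl
  · change (1 : Multiplicative (ZMod n)) * 1 * (Multiplicative.ofAdd (1 : ZMod n)) ^ l = _
    rw [one_mul, one_mul, ← ofAdd_zsmul]
    simp

/-- the peripheral element -/
def eu : EE := ex * ey * ez

theorem eu_zpow (y : ℤ) : eu ^ y = ex ^ y * ey ^ y * ez ^ y := by
  unfold eu
  have c1 : Commute (ex * ey) ez := (czx.symm).mul_left cyz
  rw [c1.mul_zpow, cxy.mul_zpow]

theorem ctu : Commute et eu := by
  have h : et * eu * et⁻¹ = eu := by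
    have : et * eu * et⁻¹ = (et * ex * et⁻¹) * (et * ey * et⁻¹) * (et * ez * et⁻¹) := by
      unfold eu; group
    rw [this, tex, tey, tez]
    unfold eu
    have c1 : Commute (ey * ez) ex := (cxy.symm).mul_left czx
    rw [c1.eq, mul_assoc]
  exact mul_inv_eq_iff_eq_mul.mp h

theorem u_nf (x y : ℤ) : et ^ x * eu ^ y = nf y y y 1 x := by
  rw [(ctu.zpow_zpow x y).eq, eu_zpow]
  unfold nf
  rw [mul_one]

theorem St_zpow (n : ℕ) (hn : 3 ∣ n) (l : ℤ) (hl : (n : ℤ) ∣ l) : St n ^ l = 1 := by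
  have h3 : (3 : ℤ) ∣ l := dvd_trans (by exact_mod_cast hn) hl
  obtain ⟨m, rfl⟩ := h3
  have := St3 n
  rw [zpow_mul]
  have e : St n ^ (3 : ℤ) = St n ^ 3 := by
    rw [← zpow_natCast]; rfl
  rw [e, this, one_zpow]

theorem r_eq_iff {n : ℕ} (i j : ℤ) : (r ((2 * i : ℤ) : ZMod (2 * n)) : DD n) =
    r ((2 * j : ℤ) : ZMod (2 * n)) ↔ (n : ℤ) ∣ i - j := by
  constructor
  · intro h
    injection h with h
    rw [ZMod.intCast_eq_intCast_iff_dvd_sub] at h
    obtain ⟨m, hm⟩ := h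
    refine ⟨-m, ?_⟩
    push_cast at hm
    linarith
  · rintro ⟨m, hm⟩
    congr 1
    rw [ZMod.intCast_eq_intCast_iff_dvd_sub]
    refine ⟨-m, ?_⟩
    push_cast
    linarith

theorem r_one_iff {n : ℕ} (i : ℤ) : (r ((2 * i : ℤ) : ZMod (2 * n)) : DD n) = 1 ↔ (n : ℤ) ∣ i := by
  have := r_eq_iff (n := n) i 0
  rw [sub_zero] at this
  rw [← this]
  simp

/-- equality of two values of the representation -/
theorem psi_eq {n : ℕ} (hn : 3 ∣ n) {f g : Fin 3 → DD n} {l m : ℤ}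
    (h : ((Pw _ _ f * St n ^ l, Multiplicative.ofAdd (l : ZMod n)) : AA n) =
      (Pw _ _ g * St n ^ m, Multiplicative.ofAdd (m : ZMod n))) : f = g ∧ (n : ℤ) ∣ l - m := by
  have h1 := congrArg Prod.fst h
  have h2 : (l : ZMod n) = (m : ZMod n) := congrArg Prod.snd h
  rw [ZMod.intCast_eq_intCast_iff_dvd_sub] at h2
  have h3 : St n ^ l = St n ^ m := by
    have := St_zpow n hn (l - m) (by
      rw [← neg_sub]; exact (dvd_neg).mpr h2)
    rw [zpow_sub, mul_inv_eq_one] at this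
    exact this
  simp only at h1
  rw [h3] at h1
  have h4 := mul_right_cancel h1
  refine ⟨?_, ?_⟩
  · have h5 : Pw _ _ (f * g⁻¹) = 1 := by
      rw [map_mul, map_inv, h4, mul_inv_cancel]
    have h6 := Pw_inj h5
    exact mul_inv_eq_one.mp h6
  · rw [← neg_sub]; exact (dvd_neg).mpr h2

end Pool.Agent.TH103.VD
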