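import Mathlib
import Pool.Agent.TH103.VD.Rep

/-!
Properties of the presented group and the final group `K`.
-/

set_option autoImplicit false

namespace Pool.Agent.TH103.VD

open Function DihedralGroup

theorem sr_ne {n : ℕ} (i j : ZMod n) : (sr i : DihedralGroup n) ≠ r j := by
  intro h; injection h

theorem Fx0 (n : ℕ) (i j k : ℤ) : Fx n i j k 0 = r ((2 * i : ℤ) : ZMod (2 * n)) := rfl
theorem Fx1 (n : ℕ) (i j k : ℤ) : Fx n i j k 1 = r ((2 * k : ℤ) : ZMod (2 * n)) := rfl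
theorem Fx2 (n : ℕ) (i j k : ℤ) : Fx n i j k 2 = r ((2 * j : ℤ) : ZMod (2 * n)) := rfl

/-- if the function of a normal form takes rotation values given by even numbers then the middle
part is trivial -/
theorem mid_trivial {n : ℕ} {g : EE} {ρ : Fin 3 → DD n}
    (h : (g = 1 ∧ ρ = 1) ∨ (g = ea ∧ ρ = fa n) ∨ (g = eb ∧ ρ = fb n) ∨ (g = ec ∧ ρ = fc n))
    {i j k i' j' k' : ℤ} (he : Fx n i j k * ρ = Fx n i' j' k') :
    g = 1 ∧ (n : ℤ) ∣ i - i' ∧ (n : ℤ) ∣ j - j' ∧ (n : ℤ) ∣ k - k' := by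
  rcases h with ⟨rfl, rfl⟩ | ⟨rfl, rfl⟩ | ⟨rfl, rfl⟩ | ⟨rfl, rfl⟩
  · rw [mul_one] at he
    have h0 := congrFun he 0
    have h1 := congrFun he 1
    have h2 := congrFun he 2
    rw [Fx0, Fx0, r_eq_iff] at h0
    rw [Fx1, Fx1, r_eq_iff] at h1
    rw [Fx2, Fx2, r_eq_iff] at h2
    exact ⟨rfl, h0, h2, h1⟩
  · exfalso
    have h1 := congrFun he 1
    rw [Pi.mul_apply, Fx1, Fx1] at h1
    change r _ * sr 0 = r _ at h1
    rw [r_mul_sr] at h1
    exact sr_ne _ _ h1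
  · exfalso
    have h1 := congrFun he 0
    rw [Pi.mul_apply, Fx0, Fx0] at h1
    change r _ * sr 0 = r _ at h1
    rw [r_mul_sr] at h1
    exact sr_ne _ _ h1
  · exfalso
    have h1 := congrFun he 0
    rw [Pi.mul_apply, Fx0, Fx0] at h1
    change r _ * sr (-1) = r _ at h1
    rw [r_mul_sr] at h1
    exact sr_ne _ _ h1

theorem Fx_zero (n : ℕ) : Fx n 0 0 0 = 1 := by
  funext i
  fin_cases i <;> simp [Fx]

theorem nf_zero : nf 0 0 0 1 0 = 1 := by simp [nf]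

theorem psi_key {n : ℕ} (hn : 3 ∣ n) {i j k l i' j' k' l' : ℤ} {g : EE} (hg : IsR g)
    (h : psi n (nf i j k g l) = psi n (nf i' j' k' 1 l')) :
    g = 1 ∧ (n : ℤ) ∣ i - i' ∧ (n : ℤ) ∣ j - j' ∧ (n : ℤ) ∣ k - k' ∧ (n : ℤ) ∣ l - l' := by
  obtain ⟨ρ, h1, h2⟩ := psi_r n hg
  have h3 : psi n 1 = (Pw _ _ (1 : Fin 3 → DD n), 1) := by
    rw [map_one, map_one]; rfl
  rw [psi_nf n i j k h1, psi_nf n i' j' k' h3] at h
  obtain ⟨h4, h5⟩ := psi_eq hn h
  rw [mul_one] at h4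
  obtain ⟨a1, a2, a3, a4⟩ := mid_trivial h2 h4
  exact ⟨a1, a2, a3, a4, h5⟩

theorem psi_inj0 {g : EE} (h : psi 0 g = 1) : g = 1 := by
  obtain ⟨i, j, k, l, m, hr, rfl⟩ := exists_nf g
  have h1 : psi 0 (nf i j k m l) = psi 0 (nf 0 0 0 1 0) := by
    rw [h, nf_zero, map_one]
  obtain ⟨rfl, a1, a2, a3, a4⟩ := psi_key (by norm_num) hr h1
  simp only [Nat.cast_zero, zero_dvd_iff, sub_zero] at a1 a2 a3 a4
  rw [a1, a2, a3, a4, nf_zero]

theorem psi_sep (s : EE) : ∃ n0 : ℕ, ∀ n : ℕ, n0 ≤ n → 3 ∣ n → (s ≠ 1 → psi n s ≠ 1) ∧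
    (s ∉ (zz ctu).range → ∀ x y : ℤ, psi n s ≠ psi n et ^ x * psi n eu ^ y) := by
  obtain ⟨i, j, k, l, m, hr, rfl⟩ := exists_nf s
  refine ⟨i.natAbs + j.natAbs + k.natAbs + l.natAbs + 1, fun n hn h3 => ⟨?_, ?_⟩⟩
  · intro hne h
    apply hne
    have h1 : psi n (nf i j k m l) = psi n (nf 0 0 0 1 0) := by
      rw [h, nf_zero, map_one]
    obtain ⟨rfl, a1, a2, a3, a4⟩ := psi_key h3 hr h1
    rw [sub_zero] at a1 a2 a3 a4
    have b1 := Int.eq_zero_of_abs_lt_dvd a1 (by rw [Int.abs_eq_natAbs]; omega)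
    have b2 := Int.eq_zero_of_abs_lt_dvd a2 (by rw [Int.abs_eq_natAbs]; omega)
    have b3 := Int.eq_zero_of_abs_lt_dvd a3 (by rw [Int.abs_eq_natAbs]; omega)
    have b4 := Int.eq_zero_of_abs_lt_dvd a4 (by rw [Int.abs_eq_natAbs]; omega)
    rw [b1, b2, b3, b4, nf_zero]
  · intro hne x y h
    apply hne
    rw [← map_zpow, ← map_zpow, ← map_mul, u_nf] at h
    obtain ⟨rfl, a1, a2, a3, a4⟩ := psi_key h3 hr h
    have c1 : (n : ℤ) ∣ i - j := by
      have := dvd_sub a1 a2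
      have e : i - y - (j - y) = i - j := by ring
      rwa [e] at this
    have c2 : (n : ℤ) ∣ i - k := by
      have := dvd_sub a1 a3
      have e : i - y - (k - y) = i - k := by ring
      rwa [e] at this
    have b1 := Int.eq_zero_of_abs_lt_dvd c1 (by rw [Int.abs_eq_natAbs]; omega)
    have b2 := Int.eq_zero_of_abs_lt_dvd c2 (by rw [Int.abs_eq_natAbs]; omega)
    have e1 : j = i := by omega
    have e2 : k = i := by omega
    rw [e1, e2, ← u_nf]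
    refine ⟨(Multiplicative.ofAdd l, Multiplicative.ofAdd i), ?_⟩
    rw [zz_apply]
    rfl

theorem psi_sep_list (S : List EE) : ∃ n0 : ℕ, ∀ n : ℕ, n0 ≤ n → 3 ∣ n → ∀ s ∈ S,
    (s ≠ 1 → psi n s ≠ 1) ∧
    (s ∉ (zz ctu).range → ∀ x y : ℤ, psi n s ≠ psi n et ^ x * psi n eu ^ y) := by
  induction S with
  | nil => exact ⟨0, fun n _ _ s hs => absurd hs List.not_mem_nil⟩
  | cons s S ih =>
    obtain ⟨n1, h1⟩ := psi_sep s
    obtain ⟨n2, h2⟩ := ih
    refine ⟨max n1 n2, fun n hn h3 s' hs' => ?_⟩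
    rcases List.mem_cons.mp hs' with rfl | hs'
    · exact h1 n (le_trans (le_max_left _ _) hn) h3
    · exact h2 n (le_trans (le_max_right _ _) hn) h3 s' hs'

theorem EE_quot (S : List EE) : ∃ (A : Type) (_ : Group A) (_ : Finite A) (ψ : EE →* A),
      (∀ x y : ℤ, ψ et ^ x * ψ eu ^ y = 1 → ψ eu ^ x * ψ et ^ y = 1) ∧
      (∀ s ∈ S, s ≠ 1 → ψ s ≠ 1) ∧
      (∀ s ∈ S, s ∉ (zz ctu).range → ∀ x y : ℤ, ψ s ≠ ψ et ^ x * ψ eu ^ y) := by
  obtain ⟨n0, h0⟩ := psi_sep_list S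
  let n := 3 * (n0 + 1)
  have hn : 3 ∣ n := ⟨n0 + 1, rfl⟩
  have : NeZero n := ⟨by omega⟩
  have : NeZero (2 * n) := ⟨by omega⟩
  have h1 := h0 n (by omega) hn
  refine ⟨AA n, inferInstance, inferInstance, psi n, ?_, fun s hs => (h1 s hs).1,
    fun s hs => (h1 s hs).2⟩
  intro x y h
  rw [← map_zpow, ← map_zpow, ← map_mul, u_nf] at h
  have h2 : psi n (nf y y y 1 x) = psi n (nf 0 0 0 1 0) := by
    rw [h, nf_zero, map_one]
  obtain ⟨-, a1, a2, a3, a4⟩ := psi_key hn (Or.inl rfl) h2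
  rw [sub_zero] at a1 a4
  have e1 : psi n et ^ y = 1 := by
    rw [psi_t]
    apply Prod.ext
    · exact St_zpow n hn y a1
    · change (Multiplicative.ofAdd (1 : ZMod n)) ^ y = 1
      rw [← ofAdd_zsmul]
      have : y • (1 : ZMod n) = 0 := by
        rw [zsmul_one]
        exact (ZMod.intCast_zmod_eq_zero_iff_dvd y n).mpr a1
      rw [this]; rfl
  have e2 : psi n eu ^ x = 1 := by
    rw [← map_zpow, eu_zpow, psi_xyz]
    have : Fx n x x x = 1 := by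
      have hr := (r_one_iff (n := n) x).mpr a4
      funext i
      fin_cases i
      · exact hr
      · exact hr
      · exact hr
    rw [this, map_one]; rfl
  rw [e1, e2, one_mul]

theorem EE_inj (x y : ℤ) (h : et ^ x * eu ^ y = 1) : x = 0 ∧ y = 0 := by
  rw [u_nf] at h
  have h2 : psi 0 (nf y y y 1 x) = psi 0 (nf 0 0 0 1 0) := by
    rw [h, nf_zero]
  obtain ⟨-, a1, a2, a3, a4⟩ := psi_key (by norm_num) (Or.inl rfl) h2
  simp only [Nat.cast_zero, zero_dvd_iff, sub_zero] at a1 a4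
  exact ⟨a4, a1⟩

theorem r_pow_zero {n : ℕ} (hn : n = 0) {v : ℤ} {m : ℕ} (hm : m ≠ 0)
    (h : (r ((v : ℤ) : ZMod (2 * n)) : DD n) ^ m = 1) : v = 0 := by
  rw [r_pow, one_def] at h
  injection h with h
  have h1 : ((v * m : ℤ) : ZMod (2 * n)) = 0 := by
    push_cast
    exact h
  rw [ZMod.intCast_zmod_eq_zero_iff_dvd] at h1
  simp only [hn, mul_zero, Nat.cast_zero, zero_dvd_iff] at h1
  rcases mul_eq_zero.mp h1 with h2 | h2
  · exact h2
  · exact absurd (by exact_mod_cast h2) hm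

theorem r_pow_zero' {n : ℕ} (hn : n = 0) {v : ℤ} {m : ℕ} (hm : m ≠ 0)
    (h : (r ((2 * v : ℤ) : ZMod (2 * n)) * r 1 : DD n) ^ m = 1) : False := by
  rw [r_mul_r] at h
  have : ((2 * v : ℤ) : ZMod (2 * n)) + 1 = ((2 * v + 1 : ℤ) : ZMod (2 * n)) := by push_cast; ring
  rw [this] at h
  have := r_pow_zero hn hm h
  omega

theorem EE_tf (x : EE) (m : ℕ) (hm : m ≠ 0) (hx : x ^ m = 1) : x = 1 := by
  obtain ⟨n, hn⟩ : ∃ n : ℕ, n = 0 := ⟨0, rfl⟩
  obtain ⟨i, j, k, l, g, hr, rfl⟩ := exists_nf x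
  obtain ⟨ρ, h1, h2⟩ := psi_r n hr
  have h3 : psi n (nf i j k g l) ^ m = 1 := by rw [← map_pow, hx, map_one]
  rw [psi_nf n i j k h1] at h3
  have h4 := congrArg Prod.snd h3
  change (Multiplicative.ofAdd (l : ZMod n)) ^ m = 1 at h4
  have hl : l = 0 := by
    rw [← ofAdd_nsmul] at h4
    have h5 : m • (l : ZMod n) = 0 := h4
    rw [nsmul_eq_mul] at h5
    have h6 : ((m * l : ℤ) : ZMod n) = 0 := by
      push_cast
      exact h5
    rw [ZMod.intCast_zmod_eq_zero_iff_dvd] at h6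
    simp only [hn, Nat.cast_zero, zero_dvd_iff] at h6
    rcases mul_eq_zero.mp h6 with h7 | h7
    · exact absurd (by exact_mod_cast h7) hm
    · exact h7
  subst hl
  have h5 := congrArg Prod.fst h3
  change (Pw _ _ (Fx n i j k * ρ) * St n ^ (0 : ℤ)) ^ m = 1 at h5
  rw [zpow_zero, mul_one, ← map_pow] at h5
  have h6 := Pw_inj h5
  rcases h2 with ⟨rfl, rfl⟩ | ⟨rfl, rfl⟩ | ⟨rfl, rfl⟩ | ⟨rfl, rfl⟩
  · rw [mul_one] at h6
    have g0 := r_pow_zero hn hm (congrFun h6 0)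
    have g1 := r_pow_zero hn hm (congrFun h6 1)
    have g2 := r_pow_zero hn hm (congrFun h6 2)
    have e0 : i = 0 := by omega
    have e1 : k = 0 := by omega
    have e2 : j = 0 := by omega
    rw [e0, e1, e2, nf_zero]
  · exact (r_pow_zero' hn hm (congrFun h6 0)).elim
  · exact (r_pow_zero' hn hm (congrFun h6 2)).elim
  · exact (r_pow_zero' hn hm (congrFun h6 1)).elim

theorem EE_ab (M : Type) [CommGroup M] (f : EE →* M) :
    f eu = 1 ∧ (f et = 1 → ∀ x, f x = 1) := by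
  have hb : f eb = f ea := by
    unfold eb
    rw [map_mul, map_mul, map_inv, mul_comm (f et), mul_inv_cancel_right]
  have hc : f ec = f ea := by
    unfold ec
    rw [map_mul, map_mul, map_inv, mul_comm (f et), mul_inv_cancel_right, hb]
  have h3 := congrArg f EE_abc
  have h4 := congrArg f EE_sq
  simp only [map_mul, map_inv, map_one, hb, hc] at h3 h4
  have ha : f ea = 1 := by
    have h5 : f ea * (f ea * f ea) * (f ea)⁻¹ * (f ea * f ea) = f ea * f ea * f ea * f ea := by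
      group
    rw [h5, h3, one_mul] at h4
    exact h4
  refine ⟨?_, ?_⟩
  · unfold eu ex ey ez
    simp only [map_mul, hb, hc, ha, mul_one]
  · intro ht x
    have : f = 1 := EE_ext (by rw [ha]; rfl) (by rw [ht]; rfl)
    rw [this]; rfl

theorem EE_chi : ∃ χ : EE →* Multiplicative ℤ, χ et = Multiplicative.ofAdd 1 ∧ χ eu = 1 := by
  obtain ⟨χ, h1, h2⟩ := EE_lift (G := Multiplicative ℤ) 1 (Multiplicative.ofAdd 1)
    (by simp) (by simp)
  exact ⟨χ, h2, (EE_ab _ χ).1⟩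

/-! ### The finite set without extremal points -/

/-- letters -/
def lt (m : Fin 6) : EE := ![ea, eb, ec, ea⁻¹, eb⁻¹, ec⁻¹] m

/-- values of letters -/
def lf (m : Fin 6) : Fin 3 → DD 0 := ![fa 0, fb 0, fc 0, (fa 0)⁻¹, (fb 0)⁻¹, (fc 0)⁻¹] m

theorem psi_lt (m : Fin 6) : psi 0 (lt m) = (Pw _ _ (lf m), 1) := by
  fin_cases m
  · exact psi_a 0
  · exact psi_b 0
  · exact psi_c 0
  · change psi 0 (ea⁻¹) = (Pw _ _ (fa 0)⁻¹, 1)
    rw [map_inv, psi_a, map_inv]; rfl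
  · change psi 0 (eb⁻¹) = (Pw _ _ (fb 0)⁻¹, 1)
    rw [map_inv, psi_b, map_inv]; rfl
  · change psi 0 (ec⁻¹) = (Pw _ _ (fc 0)⁻¹, 1)
    rw [map_inv, psi_c, map_inv]; rfl

/-- words -/
def wd : List (Fin 6) → EE
  | [] => 1
  | m :: L => lt m * wd L

/-- values of words -/
def wf : List (Fin 6) → (Fin 3 → DD 0)
  | [] => 1
  | m :: L => lf m * wf L

theorem psi_wd (L : List (Fin 6)) : psi 0 (wd L) = (Pw _ _ (wf L), 1) := by
  induction L with
  | nil =>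
    change psi 0 1 = (Pw _ _ 1, 1)
    rw [map_one, map_one]; rfl
  | cons m L ih =>
    change psi 0 (lt m * wd L) = (Pw _ _ (lf m * wf L), 1)
    rw [map_mul, psi_lt, ih, map_mul]
    apply Prod.ext
    · rfl
    · simp

/-- the thirteen words -/
def LL : Fin 13 → List (Fin 6) :=
  ![[4, 2], [3, 1], [4, 0], [3], [5, 0], [4], [], [3, 2], [1], [5, 1], [5], [2], [0]]

/-- first table -/
def JJ : Fin 13 → Fin 13 := ![4, 0, 0, 4, 1, 1, 0, 1, 1, 4, 0, 0, 4]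
/-- second table -/
def KK : Fin 13 → Fin 13 := ![5, 3, 3, 5, 10, 10, 9, 10, 10, 5, 3, 3, 5]

theorem table : ∀ i : Fin 13, wf (LL (JJ i)) * (wf (LL i))⁻¹ * wf (LL (KK i)) = wf (LL i) ∧
    wf (LL (JJ i)) ≠ wf (LL i) := by
  decide

open Classical in
theorem EE_set : ∃ A : Finset EE, A.Nonempty ∧
    ∀ a ∈ A, ∃ g : EE, g ≠ 1 ∧ g * a ∈ A ∧ g⁻¹ * a ∈ A := by
  refine ⟨Finset.univ.image (fun i : Fin 13 => wd (LL i)), ⟨_, Finset.mem_image_of_mem _
    (Finset.mem_univ 0)⟩, ?_⟩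
  intro a ha
  obtain ⟨i, -, rfl⟩ := Finset.mem_image.mp ha
  obtain ⟨h1, h2⟩ := table i
  have e1 : wd (LL (JJ i)) * (wd (LL i))⁻¹ * wd (LL (KK i)) = wd (LL i) := by
    have : wd (LL (JJ i)) * (wd (LL i))⁻¹ * wd (LL (KK i)) * (wd (LL i))⁻¹ = 1 := by
      apply psi_inj0
      rw [map_mul, map_mul, map_mul, map_inv, psi_wd, psi_wd, psi_wd]
      apply Prod.ext
      · change Pw _ _ (wf (LL (JJ i))) * (Pw _ _ (wf (LL i)))⁻¹ * Pw _ _ (wf (LL (KK i))) *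
          (Pw _ _ (wf (LL i)))⁻¹ = 1
        rw [← map_inv, ← map_mul, ← map_mul, h1, ← map_mul, mul_inv_cancel, map_one]
      · simp
    exact mul_inv_eq_one.mp this
  have e2 : wd (LL (JJ i)) ≠ wd (LL i) := by
    intro h
    apply h2
    have h3 := congrArg (psi 0) h
    rw [psi_wd, psi_wd] at h3
    have h4 := congrArg Prod.fst h3
    simp only at h4
    have h5 : Pw _ _ (wf (LL (JJ i)) * (wf (LL i))⁻¹) = 1 := by
      rw [map_mul, map_inv, h4, mul_inv_cancel]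
    exact mul_inv_eq_one.mp (Pw_inj h5)
  refine ⟨wd (LL (JJ i)) * (wd (LL i))⁻¹, ?_, ?_, ?_⟩
  · intro h
    exact e2 (mul_inv_eq_one.mp h)
  · rw [inv_mul_cancel_right]
    exact Finset.mem_image_of_mem _ (Finset.mem_univ _)
  · have : (wd (LL (JJ i)) * (wd (LL i))⁻¹)⁻¹ * wd (LL i) = wd (LL (KK i)) :=
      inv_mul_eq_iff_eq_mul.mpr e1.symm
    rw [this]
    exact Finset.mem_image_of_mem _ (Finset.mem_univ _)

end Pool.Agent.TH103.VD
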