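import Mathlib
import Pool.Agent.TH103.VD.PropE

/-!
The final theorem.
-/

set_option autoImplicit false

namespace Pool.Agent.TH103.VD

open Function Monoid

theorem final :
    ∃ (G : Type) (_ : Group G),
      (∀ g : G, g ≠ 1 → ¬ IsOfFinOrder g) ∧
      (∃ (n : ℕ) (rels : Finset (FreeGroup (Fin n))),
        Nonempty (G ≃* PresentedGroup (rels : Set (FreeGroup (Fin n))))) ∧
      (∀ g : G, g ≠ 1 → ∃ N : Subgroup G, N.Normal ∧ N.FiniteIndex ∧ g ∉ N) ∧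
      ¬ ∃ H : Subgroup G, H.FiniteIndex ∧
        ∀ A : Finset G, (∀ x ∈ A, x ∈ H) → 2 ≤ A.card →
          ∃ a ∈ A, ∃ b ∈ A, a ≠ b ∧
            (∀ g ∈ H, g ≠ 1 → g * a ∉ A ∨ g⁻¹ * a ∉ A) ∧
            (∀ g ∈ H, g ≠ 1 → g * b ∉ A ∨ g⁻¹ * b ∉ A) := by
  classical
  obtain ⟨A, hA, hAd⟩ := EE_set
  obtain ⟨χ, h1, h2⟩ := EE_chi
  let ι : EE →* Dbl ctu := PushoutI.of (φ := fam (zz ctu) (zz ctu.symm)) false
  have hι : Function.Injective ι := PushoutI.of_injective (fam_inj ctu EE_inj) false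
  refine reduction (Dbl ctu) (Dbl_perfect ctu (fun M _ f => EE_ab M f)) (Dbl_LP ctu EE_LP χ h1 h2)
    (Dbl_fp ctu EE_fp) (Dbl_rf ctu EE_quot) (Dbl_tf ctu EE_inj EE_tf) (A.image ι)
    (hA.image ι) ?_
  intro a' ha'
  obtain ⟨a, ha, rfl⟩ := Finset.mem_image.mp ha'
  obtain ⟨g, hg, hg1, hg2⟩ := hAd a ha
  refine ⟨ι g, ?_, ?_, ?_⟩
  · intro h
    apply hg
    apply hι
    rw [h, map_one]
  · rw [← map_mul]
    exact Finset.mem_image_of_mem _ hg1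
  · rw [← map_inv, ← map_mul]
    exact Finset.mem_image_of_mem _ hg2

end Pool.Agent.TH103.VD
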